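import Pool.Agent.H42.Rich.Word

/-!
# The base word `y`, fixed by `0 ↦ 2, 1 ↦ 101, 2 ↦ 10001`
-/

set_option autoImplicit false

namespace Pool.Agent.H42.Rich

/-- The base morphism. -/
def f : ℕ → List ℕ
  | 0 => [2]
  | 1 => [1, 0, 1]
  | _ => [1, 0, 0, 0, 1]

/-- The iterates `f^n(1)`. -/
def it : ℕ → List ℕ
  | 0 => [1]
  | n + 1 => (it n).flatMap f

/-- The fixed point of `f`. -/
def y (k : ℕ) : ℕ := (it k).getD k 0

lemma f_len_pos (x : ℕ) : 1 ≤ (f x).length := by
  unfold f; split <;> simp

lemma it_prefix (n : ℕ) : it n <+: it (n + 1) := by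
  induction n with
  | zero => exact ⟨[0, 1], rfl⟩
  | succ n ih =>
    obtain ⟨t, ht⟩ := ih
    refine ⟨t.flatMap f, ?_⟩
    change (it n).flatMap f ++ _ = (it (n + 1)).flatMap f
    rw [← ht, List.flatMap_append]

lemma it_prefix_le {n m : ℕ} (h : n ≤ m) : it n <+: it m := by
  induction m, h using Nat.le_induction with
  | base => exact List.prefix_rfl
  | succ m _ ih => exact ih.trans (it_prefix m)

lemma length_le_flatMap (l : List ℕ) : l.length ≤ (l.flatMap f).length := by
  induction l with
  | nil => simp
  | cons a l ih =>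
    have := f_len_pos a
    rw [List.flatMap_cons, List.length_append, List.length_cons]
    omega

lemma length_it (n : ℕ) : n < (it n).length := by
  induction n with
  | zero => simp [it]
  | succ n ih =>
    obtain ⟨t, ht⟩ := it_prefix_le (Nat.zero_le n)
    have h1 : it (n + 1) = (it n).flatMap f := rfl
    rw [h1, ← ht]
    rw [← ht] at ih
    have h2 := length_le_flatMap t
    simp only [it, List.length_append, List.length_cons, List.length_nil, List.flatMap_append,
      List.flatMap_cons, List.flatMap_nil, f] at ih ⊢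
    omega

lemma getD_of_prefix {l l' : List ℕ} (h : l <+: l') {k : ℕ} (hk : k < l.length) :
    l'.getD k 0 = l.getD k 0 := by
  obtain ⟨t, rfl⟩ := h
  exact List.getD_append _ _ _ _ hk

lemma getD_it {n k : ℕ} (hk : k < (it n).length) : (it n).getD k 0 = y k := by
  unfold y
  rcases le_total n k with h | h
  · exact (getD_of_prefix (it_prefix_le h) hk).symm
  · exact getD_of_prefix (it_prefix_le h) (length_it k)

lemma take_it {n K : ℕ} (hK : K ≤ (it n).length) : (it n).take K = win y 0 K := by
  apply List.ext_getElem (by simp [hK])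
  intro t h1 h2
  have h3 : t < K := by simpa using h2
  rw [← List.getD_eq_getElem _ 0 h2, getD_win _ _ _ _ h3, List.getElem_take,
    ← List.getD_eq_getElem _ 0 (by omega), getD_it (by omega), Nat.zero_add]

lemma img_y : img f y = y := by
  funext k
  unfold img
  rw [← take_it (n := k) (K := k + 1) (by have := length_it k; omega)]
  have h1 : (List.take (k + 1) (it k)).flatMap f <+: it (k + 1) := by
    conv_rhs => rw [show it (k + 1) = (it k).flatMap f from rfl, ← List.take_append_drop (k + 1) (it k)]
    rw [List.flatMap_append]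
    exact List.prefix_append _ _
  rw [← getD_of_prefix h1, getD_it]
  · have := length_it (k + 1); omega
  · have h2 := length_le_flatMap (List.take (k + 1) (it k))
    have := length_it k
    rw [List.length_take] at h2
    omega

/-- Block starts in `y`. -/
abbrev pos : ℕ → ℕ := ipos f y

theorem desub_y : Desub f y y pos := by
  have := desub_img f y (fun n => f_len_pos _)
  rwa [img_y] at this

/-- Prefix sums of `y`. -/
def S : ℕ → ℕ
  | 0 => 0
  | n + 1 => S n + y n

lemma sum_f_le (x : ℕ) (a : ℕ) (ha : a ∈ f x) : a ≤ 2 := by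
  unfold f at ha; split at ha <;> simp at ha <;> omega

lemma y_le (k : ℕ) : y k ≤ 2 := by
  obtain ⟨n, r, rfl, hr⟩ := desub_y.locate k
  have h := desub_y.val n
  have h1 : y (pos n + r) ∈ win y (pos n) (f (y n)).length := by
    rw [← getD_win y (pos n) _ _ hr, List.getD_eq_getElem _ _ (by simpa using hr)]
    exact List.getElem_mem _
  rw [h] at h1
  exact sum_f_le _ _ h1

lemma f_length {x : ℕ} (hx : x ≤ 2) : (f x).length = 1 + 2 * x := by
  interval_cases x <;> rfl

lemma length_f_y (n : ℕ) : (f (y n)).length = 1 + 2 * y n := f_length (y_le n)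

lemma pos_eq (n : ℕ) : pos n = n + 2 * S n := by
  induction n with
  | zero => rfl
  | succ n ih =>
    have := desub_y.pos_succ n
    rw [length_f_y] at this
    simp only [S]
    omega

lemma pos_succ (n : ℕ) : pos (n + 1) = pos n + 1 + 2 * y n := by
  have := desub_y.pos_succ n
  rw [length_f_y] at this
  omega

lemma y_pos_add {n r : ℕ} (hr : r < (f (y n)).length) : y (pos n + r) = (f (y n)).getD r 0 := by
  rw [← getD_win y (pos n) _ _ hr, desub_y.val]

lemma S_add (n K : ℕ) : S (n + K) = S n + (win y n K).sum := by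
  induction K generalizing n with
  | zero => simp
  | succ K ih =>
    rw [show n + (K + 1) = n + 1 + K by ring, ih, win_succ, List.sum_cons, S]
    ring

lemma S_pos (n : ℕ) : S (pos n) = 2 * n := by
  induction n with
  | zero => rfl
  | succ n ih =>
    rw [desub_y.pos_succ, S_add, desub_y.val, ih]
    have := y_le n
    have : (f (y n)).sum = 2 := by
      interval_cases y n <;> rfl
    omega

lemma S_pos_add {n r : ℕ} (hr : r ≤ (f (y n)).length) :
    S (pos n + r) = 2 * n + ((f (y n)).take r).sum := by
  rw [S_add, S_pos, ← desub_y.val, take_win _ _ _ _ hr]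

lemma y_zero : y 0 = 1 := rfl

lemma S_one_le {n : ℕ} (hn : 1 ≤ n) : 1 ≤ S n := by
  obtain ⟨m, rfl⟩ := Nat.exists_eq_add_of_le hn
  induction m with
  | zero => simp [S, y_zero]
  | succ m ih =>
    have h1 : S (1 + (m + 1)) = S (1 + m) + y (1 + m) := rfl
    have := ih (by omega)
    omega

lemma lt_pos_add {n r : ℕ} (h : 3 ≤ pos n + r) (hr : r < (f (y n)).length) : n < pos n + r := by
  rcases Nat.eq_zero_or_pos n with rfl | hn
  · rw [length_f_y, y_zero] at hr
    have : pos 0 = 0 := rfl
    omega
  · have h1 := pos_eq n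
    have h2 := S_one_le hn
    omega

/-- All windows of length `K` of `y` lie in the list `L`. -/
theorem win_mem (K N : ℕ) (hK : 1 ≤ K) (hN : K + 2 ≤ (it N).length) (L : List (List ℕ))
    (hb : ∀ k < 3, ((it N).drop k).take K ∈ L)
    (hc : ∀ l ∈ L, ∀ r < (f (l.headD 0)).length, ((l.flatMap f).drop r).take K ∈ L) (k : ℕ) :
    win y k K ∈ L := by
  refine desub_y.mem_of_closed 3 K hK (fun n r h hr => lt_pos_add h hr) L ?_ hc k
  intro k hk
  have h1 := hb k hk
  have h2 : ((it N).drop k).take K = win y k K := by
    have h3 : (it N).take (k + K) = win y 0 (k + K) := take_it (by omega)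
    have h4 : ((it N).drop k).take K = ((it N).take (k + K)).drop k := by
      rw [List.drop_take, Nat.add_sub_cancel_left]
    rw [h4, h3, drop_win, Nat.zero_add]
  rwa [h2] at h1

end Pool.Agent.H42.Rich
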