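import Pool.Agent.H42.Rich.Lang

/-!
# The word `w = g(y)`
-/

set_option autoImplicit false

namespace Pool.Agent.H42.Rich

/-- Evaluate the argument before passing it on (a device for fast kernel evaluation). -/
def force {α : Type} (x : ℕ) (k : ℕ → α) : α :=
  match x with
  | 0 => k 0
  | n + 1 => k (n + 1)

lemma force_eq {α : Type} (x : ℕ) (k : ℕ → α) : force x k = k x := by
  cases x <;> rfl

/-- The outer morphism. -/
def g : ℕ → List ℕ
  | 0 => [0, 0, 1, 2, 2, 1, 2, 2, 2, 1, 2, 2, 1, 0]
  | 1 => [0, 1, 2, 2, 1, 0, 1, 1, 0, 1, 2, 2, 1]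
  | _ => [0, 1, 1, 1, 0, 1, 2, 1, 0, 1, 1, 1]

/-- The word `w = g(y)`. -/
def w : ℕ → ℕ := img g y

/-- Block starts in `w`. -/
abbrev posg : ℕ → ℕ := ipos g y

lemma g_len_pos (x : ℕ) : 1 ≤ (g x).length := by
  unfold g; split <;> simp

theorem desub_w : Desub g y w posg := desub_img g y fun _ => g_len_pos _

lemma length_g {x : ℕ} (hx : x ≤ 2) : (g x).length + x = 14 := by
  interval_cases x <;> rfl

lemma posg_eq (n : ℕ) : posg n + S n = 14 * n := by
  induction n with
  | zero => rfl
  | succ n ih =>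
    have h1 := desub_w.pos_succ n
    have h2 := length_g (y_le n)
    simp only [S]
    omega

lemma w_posg_add {n r : ℕ} (hr : r < (g (y n)).length) : w (posg n + r) = (g (y n)).getD r 0 := by
  rw [← getD_win w (posg n) _ _ hr, desub_w.val]

end Pool.Agent.H42.Rich
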