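import Pool.Agent.H42.Rich.CRy
import Pool.Agent.H42.Rich.Outer

/-!
# The finite check for short palindromes in `w`
-/

set_option autoImplicit false

namespace Pool.Agent.H42.Rich

/-- Codes of the factors of `y` of length 27. -/
def codes27 : List ℕ := [
  1764823872635200, 89684391035200, 88048512635200, 10221147674218816, 4944807194628416,
  7478081985024320, 4944805595529296, 4526020725129296, 4525611755529296, 7058886545925200,
  5739801426027600, 1869520496256080, 4862336791760916, 5739801026252820, 5635104808652820,
  10222885795024916, 4855787281520916, 1764823872641300, 11897923034224916, 5635002566252820,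
  1764721636481300, 1434950356506900, 4970979751434516, 10221147674224916, 4944807194634516,
  7478081985030420, 1764721536537700, 1434950256563300, 4970979651490916, 88046915097700,
  1434948659123300, 4526020726690916, 4862746162697316, 4944780036490916, 358737589126820,
  5746344565229220, 7059295490540801, 358737564140801, 352194050540801, 4855793677911297,
  1764830269031681, 11897929430615297, 1434948657561681, 4526020725129297, 4862746161135697,
  1408750616601681, 7059295490565201, 11562895117935697, 4855793677935697, 1764830269056081,
  11897929430639697, 7058886146150801, 5739801026253201, 1869520096481681, 352187660390801,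
  5739794636493201, 89684397281681, 1436586141307281, 1764721636481681, 1434950356507281,
  4970979751434897, 10222783452681221, 1434950256563205, 1408776202163205, 7059321076126725,
  11562920703497221, 10221146075121221, 4944805595530821, 7478080385926725, 1408750641563205,
  4944780036490821, 358737589126725, 5746344565229125, 7058886545926725, 5739801426029125,
  1869520496257605, 4944780011504921, 358737564140825, 5746344540243225, 4525611356144921,
  4862336792151321, 5635104809043225, 10222885795415321, 5739794636493225, 89684397281705,
  1436586141307305, 5739794630246726, 89684391035206, 1436586135060806, 5635002466406726,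
  10222783452778822, 1408776202260806, 7059321076224326, 11562920703594822, 4862336792151322,
  5635104809043226, 10222885795415322, 1434948659123306, 4526020726690922, 4862746162697322]

lemma closb27 : closb 27 codes27 = true := by decide +kernel

lemma base27 : ∀ k < 3, enc (((it 5).drop k).take 27) ∈ codes27 := by decide +kernel

theorem win27_mem (k : ℕ) : enc (win y k 27) ∈ codes27 :=
  enc_win_mem 27 5 (by norm_num) (by have := length_it5; omega) codes27 base27 closb27 k

theorem forall_win27 (P : List ℕ → Bool) (h : (codes27.all fun c => P (dec 27 c)) = true)
    (k : ℕ) : P (win y k 27) = true := by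
  have := List.all_eq_true.1 h _ (win27_mem k)
  rwa [dec_enc_win] at this

/-- Evaluate a list completely before passing it on. -/
def forceL : List ℕ → (List ℕ → Bool) → Bool
  | [], k => k []
  | a :: l, k => force a fun a' => forceL l fun l' => k (a' :: l')

lemma forceL_eq (l : List ℕ) (k : List ℕ → Bool) : forceL l k = k l := by
  induction l generalizing k with
  | nil => rfl
  | cons a l ih => rw [forceL, force_eq, ih]

/-- Equality test of lists. -/
def eqL : List ℕ → List ℕ → Bool
  | [], [] => true
  | a :: p, b :: l => Nat.beq a b && eqL p l
  | _, _ => false

lemma eqL_iff {p l : List ℕ} : eqL p l = true ↔ p = l := by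
  induction p generalizing l with
  | nil => cases l <;> simp [eqL]
  | cons a p ih =>
    cases l with
    | nil => simp [eqL]
    | cons b l => simp [eqL, ih]

/-- The short aligned palindromes with long returns. -/
def tbl : List (List ℕ) :=
  [[0, 0, 0],
   [1, 0, 0, 0, 1],
   [1, 1, 0, 1, 1],
   [1, 1, 1, 0, 1, 1, 1],
   [2, 1, 0, 0, 0, 1, 2],
   [0, 1, 1, 1, 0, 1, 1, 1, 0],
   [2, 2, 1, 0, 0, 0, 1, 2, 2],
   [1, 0, 1, 1, 1, 0, 1, 1, 1, 0, 1],
   [1, 2, 2, 1, 0, 0, 0, 1, 2, 2, 1],
   [2, 1, 0, 1, 1, 1, 0, 1, 1, 1, 0, 1, 2],
   [2, 1, 2, 2, 1, 0, 0, 0, 1, 2, 2, 1, 2]]

/-- Membership in the table. -/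
def inTbl (p : List ℕ) : Bool := tbl.any fun l => eqL l p

/-- The check of one position and one length. -/
def chkM (lv r : ℕ) (V p : List ℕ) (m : ℕ) : Bool :=
  !(eqL p p.reverse) ||
    (bif inTbl p then Nat.ble 1 r && Nat.beq (2 * (lv - r) + 1) m else retOK V m)

/-- The check of short palindromes. -/
def chkW (v : List ℕ) : Bool :=
  forceL (v.flatMap g) fun V0 => (List.range (g (v.headD 0)).length).all fun r =>
    (List.range 13).all fun m =>
      forceL ((V0.drop r).take (m + 1)) fun p =>
        chkM (g (v.headD 0)).length r (V0.drop r) p (m + 1)

lemma chkW_all : (codes27.all fun c => chkW (dec 27 c)) = true := by decide +kernel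

end Pool.Agent.H42.Rich
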