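import Pool.Agent.H42.Rich.CRy2
import Pool.Agent.H42.Rich.ChkW

/-!
# All complete returns to palindromes in `w` are palindromes
-/

set_option autoImplicit false

namespace Pool.Agent.H42.Rich

/-- Block lengths of `g`. -/
def leng (x : ℕ) : ℕ := (g x).length

/-- Block letters of `g`, with the marker `0` at the end. -/
def Fg (x r : ℕ) : ℕ := (g x ++ [0]).getD r 0

lemma posg_succ (n : ℕ) : posg (n + 1) = posg n + leng (y n) := desub_w.pos_succ n

lemma w_posg (n : ℕ) : w (posg n) = 0 := by
  have h6 := w_posg_add (n := n) (r := 0) (g_len_pos _)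
  rw [Nat.add_zero] at h6
  rw [h6]
  have := y_le n
  generalize y n = x at *
  interval_cases x <;> rfl

theorem mor_w : Mor y w posg leng Fg 1 where
  pos_zero := rfl
  pos_succ := desub_w.pos_succ
  len_pos := fun n => g_len_pos _
  val := by
    intro n r hr
    unfold leng at hr
    rcases Nat.lt_or_ge r (g (y n)).length with h | h
    · rw [w_posg_add h]
      unfold Fg
      rw [List.getD_append _ _ _ _ h]
    · have h1 := posg_succ n
      have h2 : posg n + r = posg (n + 1) := by
        unfold leng at h1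
        omega
      rw [h2, w_posg]
      unfold Fg
      rw [List.getD_append_right _ _ _ _ h, show r - (g (y n)).length = 0 by omega]
      rfl
  pal := by
    have h : ∀ x < 3, ∀ r < 15, r < leng x + 1 → Fg x (leng x + 1 - 1 - r) = Fg x r := by
      decide +kernel
    intro n r hr
    have h1 := y_le n
    have h2 := length_g h1
    exact h (y n) (by omega) r (by unfold leng at hr; omega) hr
  code := by
    have h : ∀ x < 3, ∀ x' < 3, (∀ r < 15, r < leng x → r < leng x' → Fg x r = Fg x' r) →
        x = x' := by decide +kernel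
    intro n n' hr
    have h1 := y_le n
    have h2 := y_le n'
    exact h (y n) (by omega) (y n') (by omega) fun r _ h3 h4 => hr r h3 h4
  e_le := le_rfl
  edge := by
    intro n n' s hs
    have : s = 0 := by omega
    subst this
    rw [Nat.add_zero, Nat.add_zero, w_posg, w_posg]

lemma leng_bounds (n : ℕ) : 12 ≤ leng (y n) ∧ leng (y n) ≤ 14 := by
  have := length_g (y_le n)
  have := y_le n
  unfold leng
  omega

/-- The result of the check of short palindromes. -/
lemma short_cases {j m : ℕ} (hm : 1 ≤ m) (hm' : m ≤ 13) (hP : Pal w j (j + m)) :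
    (inTbl (win w j m) = true ∧ ∃ n r, j = posg n + r ∧ 1 ≤ r ∧ r < leng (y n) ∧
      2 * (leng (y n) - r) + 1 = m) ∨
    (inTbl (win w j m) = false ∧ ∃ K, m ≤ K ∧ retOK (win w j K) m = true) := by
  obtain ⟨n, r, rfl, hr⟩ := desub_w.locate j
  have h := forall_win27 chkW chkW_all n
  unfold chkW at h
  rw [forceL_eq, List.all_eq_true] at h
  have h0 : (win y n 27).headD 0 = y n := rfl
  rw [h0] at h
  have h1 := h r (List.mem_range.2 hr)
  rw [List.all_eq_true] at h1
  have h2 := h1 (m - 1) (List.mem_range.2 (by omega))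
  rw [forceL_eq, desub_w.flatMap, Nat.sub_add_cancel hm] at h2
  have hb := leng_bounds n
  unfold leng at hb
  have hlen : posg n + (g (y n)).length + 26 ≤ posg (n + 27) := by
    have h3 := posg_succ n
    unfold leng at h3
    have : ∀ k, posg (n + 1) + k ≤ posg (n + 1 + k) := by
      intro k
      induction k with
      | zero => simp
      | succ k ih =>
        have := posg_succ (n + 1 + k)
        have := leng_bounds (n + 1 + k)
        rw [show n + 1 + (k + 1) = n + 1 + k + 1 by ring]
        omega
    have h4 := this 26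
    rw [show n + 1 + 26 = n + 27 by ring] at h4
    omega
  obtain ⟨K, hK⟩ := Nat.exists_eq_add_of_le
    (show r ≤ posg (n + 27) - posg n by omega)
  rw [hK, drop_win, take_win _ _ _ _ (by omega)] at h2
  unfold chkM at h2
  have hpal : eqL (win w (posg n + r) m) (win w (posg n + r) m).reverse = true := by
    rw [eqL_iff]
    symm
    apply reverse_win
    intro t ht
    exact (hP (posg n + r + t) (by omega) (by omega)).trans (congrArg w (by omega))
  rw [hpal, Bool.not_true, Bool.false_or] at h2
  rcases h5 : inTbl (win w (posg n + r) m) with _ | _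
  · rw [h5, cond_false] at h2
    exact Or.inr ⟨rfl, K, by omega, h2⟩
  · rw [h5, cond_true, Bool.and_eq_true, Nat.ble_eq, Nat.beq_eq] at h2
    exact Or.inl ⟨rfl, n, r, rfl, h2.1, hr, h2.2⟩

/-- Distance to the next block start, as a function of a window of length 11. -/
def tab11 : List (ℕ × ℕ) := [
  (27049, 9), (107601, 9), (108198, 10), (334401, 2), (334405, 2), (334406, 2), (345414, 6),
  (345669, 10), (345745, 6), (410949, 2), (410950, 2), (430185, 5), (430406, 10), (430417, 5),
  (430500, 5), (432794, 11), (1055338, 8), (1075476, 8), (1075625, 9), (1132176, 1),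
  (1132177, 1), (1134929, 5), (1134993, 9), (1135012, 5), (1151313, 1), (1156122, 4),
  (1156177, 9), (1156180, 4), (1156201, 4), (1332324, 8), (1336404, 0), (1337606, 3),
  (1337620, 8), (1337621, 3), (1337626, 3), (1381657, 7), (1382677, 11), (1382981, 7),
  (1643797, 3), (1643802, 3), (1720425, 5), (1720740, 5), (1720742, 6), (1721626, 11),
  (1721670, 6), (1722001, 6), (1731177, 12), (1743424, 1), (1743425, 1), (2360986, 7),
  (2366021, 7), (2366058, 8), (2380196, 0), (2380884, 4), (2380900, 8), (2380905, 4),
  (2386196, 8), (2527258, 4), (2527337, 4), (2533008, 0), (2687398, 6), (2688657, 6),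
  (2688666, 7), (2692201, 12), (2692377, 7), (2693701, 7), (2728966, 3), (2728986, 3),
  (2730404, 13), (2779393, 2), (2779398, 2)]

/-- Look up in the table. -/
def look11 (c : ℕ) : List (ℕ × ℕ) → ℕ
  | [] => 100
  | p :: l => bif Nat.beq p.1 c then p.2 else look11 c l

/-- Check of the table. -/
def chk11 (v : List ℕ) : Bool :=
  ((List.range (g (v.getD 0 0)).length).all fun r =>
    force (enc (((v.flatMap g).drop r).take 11)) fun c =>
      Nat.beq (look11 c tab11) (bif Nat.beq r 0 then 0 else (g (v.getD 0 0)).length - r)) &&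
  ((List.range (g (v.getD 1 0)).length).all fun r =>
    force (enc (((v.flatMap g).drop ((g (v.getD 0 0)).length + r - 10)).take 11).reverse) fun c =>
      Nat.beq (look11 c tab11) r)

lemma chk11_all : (codes5.all fun c => chk11 (dec 5 c)) = true := by decide +kernel

/-- The overhang of a window. -/
def ovh (j : ℕ) : ℕ := look11 (enc (win w j 11)) tab11

lemma posg_add_le (n k : ℕ) : posg n + 12 * k ≤ posg (n + k) := by
  induction k with
  | zero => simp
  | succ k ih =>
    have h1 := posg_succ (n + k)
    have h2 := leng_bounds (n + k)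
    rw [show n + (k + 1) = n + k + 1 by ring]
    omega

lemma ovh_left (j : ℕ) : ∃ a, posg a = j + ovh j ∧ ∀ a' < a, posg a' < j := by
  obtain ⟨n, r, rfl, hr⟩ := desub_w.locate j
  have h := forall_win5 chk11 chk11_all n
  unfold chk11 at h
  rw [Bool.and_eq_true, List.all_eq_true] at h
  have h1 := h.1 r (by
    rw [getD_win y n 5 0 (by norm_num)]
    exact List.mem_range.2 hr)
  have hb := leng_bounds n
  unfold leng at hb
  have hlen := posg_add_le n 5
  rw [force_eq, desub_w.flatMap, getD_win y n 5 0 (by norm_num), Nat.add_zero, Nat.beq_eq] at h1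
  obtain ⟨K, hK⟩ := Nat.exists_eq_add_of_le
    (show r ≤ posg (n + 5) - posg n by omega)
  rw [hK, drop_win, take_win _ _ _ _ (by omega)] at h1
  have h2 : ovh (posg n + r) = bif Nat.beq r 0 then 0 else (g (y n)).length - r := h1
  have hmono : ∀ {a b : ℕ}, a < b → posg a < posg b := fun h => desub_w.strictMono h
  rcases Nat.eq_zero_or_pos r with rfl | h3
  · refine ⟨n, ?_, fun a' ha' => ?_⟩
    · rw [h2, show Nat.beq 0 0 = true from rfl, cond_true, Nat.add_zero]
    · have := hmono ha'
      omega
  · have h4 : Nat.beq r 0 = false := by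
      rcases h5 : Nat.beq r 0 with _ | _
      · rfl
      · rw [Nat.beq_eq] at h5; omega
    rw [h4, cond_false] at h2
    have h5 := posg_succ n
    unfold leng at h5
    refine ⟨n + 1, ?_, fun a' ha' => ?_⟩
    · rw [h2]
      omega
    · have : posg a' ≤ posg n := desub_w.strictMono.monotone (by omega)
      omega

lemma ovh_right {j m : ℕ} (hm : 14 ≤ m) (hP : Pal w j (j + m)) :
    ∃ b, posg b + ovh j + 1 = j + m ∧ j + m < posg (b + 1) + 1 := by
  obtain ⟨n', r, hj, hr⟩ := desub_w.locate (j + m - 1)
  have hn' : 1 ≤ n' := by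
    rcases Nat.eq_zero_or_pos n' with rfl | h
    · have e0 : y 0 = 1 := rfl
      have e1 : posg 0 = 0 := rfl
      rw [e0] at hr
      have e2 : (g 1).length = 13 := rfl
      omega
    · exact h
  obtain ⟨n, rfl⟩ := Nat.exists_eq_add_of_le' hn'
  have h := forall_win5 chk11 chk11_all n
  unfold chk11 at h
  rw [Bool.and_eq_true, List.all_eq_true, List.all_eq_true] at h
  have h1 := h.2 r (by
    rw [getD_win y n 5 1 (by norm_num)]
    exact List.mem_range.2 hr)
  have hb := leng_bounds n
  unfold leng at hb
  have hb' := leng_bounds (n + 1)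
  unfold leng at hb'
  have hs := posg_succ n
  have hs' := posg_succ (n + 1)
  unfold leng at hs hs'
  have hlen := posg_add_le n 5
  rw [force_eq, desub_w.flatMap, getD_win y n 5 0 (by norm_num), Nat.add_zero, Nat.beq_eq] at h1
  obtain ⟨K, hK⟩ := Nat.exists_eq_add_of_le
    (show (g (y n)).length + r - 10 ≤ posg (n + 5) - posg n by omega)
  have hlen2 : 11 ≤ K := by
    have := posg_add_le (n + 1 + 1) 3
    rw [show n + 1 + 1 + 3 = n + 5 by ring] at this
    omega
  rw [hK, drop_win, take_win _ _ _ _ hlen2] at h1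
  have h3 : (win w (posg n + ((g (y n)).length + r - 10)) 11).reverse = win w j 11 := by
    apply reverse_win
    intro t ht
    have e1 : posg n + ((g (y n)).length + r - 10) + 11 = j + m := by
      omega
    exact (hP (j + t) (by omega) (by omega)).trans (congrArg w (by omega))
  rw [h3] at h1
  have h2 : ovh j = r := h1
  refine ⟨n + 1, ?_, ?_⟩
  · rw [h2]
    omega
  · omega

lemma fit_long {j m : ℕ} (hm : 14 ≤ m) (hP : Pal w j (j + m)) : Fit posg 1 j m (ovh j) := by
  obtain ⟨a, h1, h2⟩ := ovh_left j
  obtain ⟨b, h3, h4⟩ := ovh_right hm hP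
  have hab : a ≤ b := by
    by_contra hcon
    have h5 := h2 b (by omega)
    -- then the first block start after `j` lies after the palindrome
    have h6 : posg (b + 1) ≤ posg a := desub_w.strictMono.monotone (by omega)
    have h7 := posg_succ b
    have h8 := leng_bounds b
    omega
  refine ⟨a, b - a, h1, ?_, h2, ?_⟩
  · rw [show a + (b - a) = b by omega]
    omega
  · rw [show a + (b - a) + 1 = b + 1 by omega]
    exact h4

lemma cls_w1 {j o c c' : ℕ} (ho : 2 ≤ o) (hc : Cls w leng Fg j o c) (hc' : Cls w leng Fg j o c')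
    (h : c ≤ 2) (h' : c' ≤ 2) : c' = c := by
  have key : ∀ c < 3, ∀ c' < 3, Fg c (leng c - 1) = Fg c' (leng c' - 1) →
      Fg c (leng c - 2) = Fg c' (leng c' - 2) → c' = c := by decide +kernel
  have h1 := hc.2 (o - 1) (by omega)
  have h2 := hc'.2 (o - 1) (by omega)
  have h3 := hc.2 (o - 2) (by omega)
  have h4 := hc'.2 (o - 2) (by omega)
  have h5 := hc.1
  have h6 := hc'.1
  rw [show leng c - o + (o - 1) = leng c - 1 by omega] at h1
  rw [show leng c' - o + (o - 1) = leng c' - 1 by omega] at h2
  rw [show leng c - o + (o - 2) = leng c - 2 by omega] at h3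
  rw [show leng c' - o + (o - 2) = leng c' - 2 by omega] at h4
  exact key c (by omega) c' (by omega) (h1.trans h2.symm) (h3.trans h4.symm)

lemma cls_w2 {j c c' : ℕ} (hc : Cls w leng Fg j 1 c) (hc' : Cls w leng Fg j 1 c')
    (h : c ≤ 2) (h' : c' ≤ 2) : (c = 0 ↔ c' = 0) := by
  have key : ∀ c < 3, ∀ c' < 3, Fg c (leng c - 1) = Fg c' (leng c' - 1) → (c = 0 ↔ c' = 0) := by
    decide +kernel
  have h1 := hc.2 0 (by omega)
  have h2 := hc'.2 0 (by omega)
  exact key c (by omega) c' (by omega) (h1.trans h2.symm)

lemma cls_w3 {j c c' : ℕ} (hc : Cls w leng Fg j 1 c) (h : c ≤ 2) (h' : c' ≤ 2)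
    (h0 : c ≠ 0) (h0' : c' ≠ 0) : Cls w leng Fg j 1 c' := by
  have key : ∀ c < 2, ∀ c' < 2, 1 < leng (c' + 1) ∧
      Fg (c + 1) (leng (c + 1) - 1) = Fg (c' + 1) (leng (c' + 1) - 1) := by
    decide +kernel
  obtain ⟨k1, k2⟩ := key (c - 1) (by omega) (c' - 1) (by omega)
  rw [Nat.sub_add_cancel (show 1 ≤ c by omega), Nat.sub_add_cancel (show 1 ≤ c' by omega)] at k2
  rw [Nat.sub_add_cancel (show 1 ≤ c' by omega)] at k1
  refine ⟨k1, fun s hs => ?_⟩
  have : s = 0 := by omega
  subst this
  exact k2.symm.trans (hc.2 0 hs)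

/-- All complete returns to palindromes in `w` are palindromes. -/
theorem cr_w : CR w := by
  intro j j' m hm hjj hP hO hn
  have hP' : Pal w j' (j' + m) := pal_occ hP hO
  -- reduction given an overhang
  have main : ∀ o, Fit posg 1 j m o → Fit posg 1 j' m o → (2 ≤ m) → Pal w j (j' + m) := by
    intro o F1 F2 hm2
    obtain ⟨a, a', q, h1, h2, h2', h3, h4, h5, h6, h6r, h6r', h7, h8⟩ :=
      mor_w.lift hP hO hjj F1 F2 (fun k hk1 hk2 hOk _ => hn k hk1 hk2 hOk)
    apply h8
    rcases Nat.eq_zero_or_pos o with rfl | ho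
    · have hq : 1 ≤ q := by
        rcases Nat.eq_zero_or_pos q with rfl | h
        · have h3' : posg a + 0 + 1 = j + m := h3
          omega
        · exact h
      exact cr_y a a' q hq h1 h4 h5 (fun k hk1 hk2 hOk => h7 k hk1 hk2 hOk (by omega))
    · obtain ⟨ha, hL, hL'⟩ := h6 ho
      have single : ∀ c, y (a - 1) = c → y (a + q) = c → y (a' - 1) = c → y (a' + q) = c →
          Pal y a (a' + q) := by
        intro c z1 z2 z3 z4
        obtain ⟨i, rfl⟩ := Nat.exists_eq_add_of_le' ha
        obtain ⟨i', rfl⟩ := Nat.exists_eq_add_of_le' (show 1 ≤ a' by omega)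
        rw [Nat.add_sub_cancel] at z1 z3
        refine pal_of_ctx h4 h5 z1 z2 z3 z4 ?_ ?_
        · intro k hk1 hk2 hOk e1 e2
          refine h7 k hk1 hk2 hOk (fun _ => ⟨?_, ?_⟩)
          · rw [e1, ← z1]; exact hL
          · rw [e2, ← z1]; exact hL
        · intro p1 p2 p3
          exact cr_y i i' (q + 2) (by omega) (by omega) p1 p2 p3
      rcases Nat.lt_or_ge o 2 with ho2 | ho2
      · have : o = 1 := by omega
        subst this
        by_cases h0 : y (a - 1) = 0
        · exact single 0 h0 ((cls_w2 hL h6r (y_le _) (y_le _)).1 h0)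
            ((cls_w2 hL hL' (y_le _) (y_le _)).1 h0) ((cls_w2 hL h6r' (y_le _) (y_le _)).1 h0)
        · have h0r : y (a + q) ≠ 0 := fun h => h0 ((cls_w2 hL h6r (y_le _) (y_le _)).2 h)
          have h0' : y (a' - 1) ≠ 0 := fun h => h0 ((cls_w2 hL hL' (y_le _) (y_le _)).2 h)
          have h0r' : y (a' + q) ≠ 0 := fun h => h0 ((cls_w2 hL h6r' (y_le _) (y_le _)).2 h)
          refine cr12 (q + S (a + q) + 5) (fun j j' m hm _ => cr_y j j' m hm) h1 ha h4 h5 h0 h0r
            h0' h0r' ?_ (fun _ => by omega)
          intro c hc1 hc2 hOc e1 e2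
          exact h7 c hc1 hc2 hOc (fun _ => ⟨cls_w3 hL (y_le _) (y_le _) h0 e1,
            cls_w3 hL (y_le _) (y_le _) h0 e2⟩)
      · exact single (y (a - 1)) rfl (cls_w1 ho2 hL h6r (y_le _) (y_le _))
          (cls_w1 ho2 hL hL' (y_le _) (y_le _)) (cls_w1 ho2 hL h6r' (y_le _) (y_le _))
  rcases Nat.lt_or_ge m 14 with hm14 | hm14
  · rcases short_cases hm (by omega) hP with ⟨ht, n, r, hj, hr1, hr2, hr3⟩ | ⟨-, K, hK, h⟩
    · have hw : win w j' m = win w j m := win_congr hO
      rcases short_cases hm (by omega) hP' with ⟨-, n', r', hj', hr1', hr2', hr3'⟩ | ⟨ht', -⟩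
      · have fit : ∀ {j n r : ℕ}, j = posg n + r → 1 ≤ r → r < leng (y n) →
            2 * (leng (y n) - r) + 1 = m → Fit posg 1 j m (leng (y n) - r) := by
          intro j n r hj hr1 hr2 hr3
          have e1 := mor_w.pos_succ n
          have e2 := mor_w.pos_succ (n + 1)
          have e3 := leng_bounds (n + 1)
          refine ⟨n + 1, 0, by omega, ?_, ?_, ?_⟩
          · change posg (n + 1) + (leng (y n) - r) + 1 = j + m
            omega
          · intro a' ha'
            have : posg a' ≤ posg n := desub_w.strictMono.monotone (by omega)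
            omega
          · change j + m < posg (n + 1 + 1) + 1
            omega
        have F1 := fit hj hr1 hr2 hr3
        have F2 := fit hj' hr1' hr2' hr3'
        have heq : leng (y n') - r' = leng (y n) - r := by omega
        rw [heq] at F2
        exact main _ F1 F2 (by omega)
      · -- impossible: the window of `j'` is in the table
        rw [hw, ht] at ht'
        exact absurd ht' (by decide)
    · exact retOK_spec hm hK h hjj hO hn
  · have F1 := fit_long hm14 hP
    have F2 := fit_long hm14 hP'
    have heq : ovh j' = ovh j := by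
      unfold ovh
      rw [show win w j' 11 = win w j 11 from win_congr fun t ht => hO t (by omega)]
    rw [heq] at F2
    exact main _ F1 F2 (by omega)

end Pool.Agent.H42.Rich
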