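import Pool.Agent.H42.Rich.Pal
import Pool.Agent.H42.Rich.Lang

/-!
# Complete returns to palindromes in `y`
-/

set_option autoImplicit false

namespace Pool.Agent.H42.Rich

section general

variable {α : Type} {u : ℕ → α}

lemma pal_wrap {a b : ℕ} (hab : a + 1 ≤ b) (h : Pal u (a + 1) b) (he : u a = u b) :
    Pal u a (b + 1) := by
  intro k hk1 hk2
  rcases Nat.eq_or_lt_of_le hk1 with rfl | h1
  · rw [he]
    congr 1
    omega
  · rcases Nat.eq_or_lt_of_le (Nat.lt_succ_iff.1 hk2) with rfl | h2
    · rw [← he]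
      congr 1
      omega
    · rw [h k (by omega) h2]
      congr 1
      omega

lemma pal_unwrap {a b : ℕ} (h : Pal u a (b + 1)) : Pal u (a + 1) b := by
  intro k hk1 hk2
  rw [h k (by omega) (by omega)]
  congr 1
  omega

lemma occ_trans {i m j k : ℕ} (h1 : Occ u i m j) (h2 : Occ u i m k) : Occ u j m k :=
  fun t ht => (h2 t ht).trans (h1 t ht).symm

lemma pal_occ {i m j : ℕ} (h : Pal u i (i + m)) (hO : Occ u i m j) : Pal u j (j + m) := by
  intro k hk1 hk2
  obtain ⟨t, rfl⟩ := Nat.exists_eq_add_of_le hk1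
  rw [hO t (by omega), h (i + t) (by omega) (by omega)]
  have := hO (m - 1 - t) (by omega)
  rw [show i + (i + m) - 1 - (i + t) = i + (m - 1 - t) by omega, ← this]
  congr 1
  omega

/-- Reduction of returns with a fixed context letter to ordinary returns. -/
lemma pal_of_ctx {i i' q : ℕ} {c : α} (hP : Pal u (i + 1) (i + 1 + q))
    (hO : Occ u (i + 1) q (i' + 1)) (h1 : u i = c) (h2 : u (i + 1 + q) = c) (h3 : u i' = c)
    (h4 : u (i' + 1 + q) = c)
    (hn : ∀ k, i + 1 < k → k < i' + 1 → Occ u (i + 1) q k → u (k - 1) = c → u (k + q) = c → False)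
    (H : Pal u i (i + (q + 2)) → Occ u i (q + 2) i' →
      (∀ k, i < k → k < i' → ¬ Occ u i (q + 2) k) → Pal u i (i' + (q + 2))) :
    Pal u (i + 1) (i' + 1 + q) := by
  have h := H ?_ ?_ ?_
  · have := pal_unwrap (u := u) (a := i) (b := i' + 1 + q) (by
      rwa [show i' + 1 + q + 1 = i' + (q + 2) by ring])
    exact this
  · rw [show i + (q + 2) = i + 1 + q + 1 by ring]
    exact pal_wrap (by omega) hP (h1.trans h2.symm)
  · intro t ht
    rcases Nat.eq_zero_or_pos t with rfl | h0
    · rw [Nat.add_zero, Nat.add_zero, h1, h3]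
    · rcases Nat.lt_or_ge t (q + 1) with h5 | h5
      · have := hO (t - 1) (by omega)
        rwa [show i' + 1 + (t - 1) = i' + t by omega, show i + 1 + (t - 1) = i + t by omega] at this
      · rw [show t = q + 1 by omega, show i' + (q + 1) = i' + 1 + q by ring,
          show i + (q + 1) = i + 1 + q by ring, h2, h4]
  · intro k hk1 hk2 hOk
    refine hn (k + 1) (by omega) (by omega) ?_ ?_ ?_
    · intro t ht
      have := hOk (t + 1) (by omega)
      rwa [show k + (t + 1) = k + 1 + t by ring, show i + (t + 1) = i + 1 + t by ring] at this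
    · have := hOk 0 (by omega)
      rw [Nat.add_sub_cancel]
      rwa [Nat.add_zero, Nat.add_zero, h1] at this
    · have := hOk (q + 1) (by omega)
      rw [show k + (q + 1) = k + 1 + q by ring, show i + (q + 1) = i + 1 + q by ring, h2] at this
      exact this

end general

/-! ### Brute force search of a return -/

/-- Prefix test. -/
def pre : List ℕ → List ℕ → Bool
  | [], _ => true
  | _ :: _, [] => false
  | a :: p, b :: l => Nat.beq a b && pre p l

/-- The first position at which `p` occurs. -/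
def findRet (p : List ℕ) : List ℕ → ℕ → Option ℕ
  | [], _ => none
  | a :: l, t => bif pre p (a :: l) then some t else findRet p l (t + 1)

/-- The complete return to the prefix of length `m` exists and is a palindrome. -/
def retOK (v : List ℕ) (m : ℕ) : Bool :=
  match findRet (v.take m) (v.drop 1) 1 with
  | none => false
  | some t => pre (v.take (t + m)) (v.take (t + m)).reverse

lemma pre_iff {p l : List ℕ} : pre p l = true ↔ p <+: l := by
  induction p generalizing l with
  | nil => simp [pre]
  | cons a p ih =>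
    cases l with
    | nil => simp [pre]
    | cons b l => simp [pre, ih, List.cons_prefix_cons]

lemma pre_win {u : ℕ → ℕ} {i j m K : ℕ} : pre (win u i m) (win u j K) = true ↔
    m ≤ K ∧ Occ u i m j := by
  rw [pre_iff]
  constructor
  · intro h
    have h1 := h.length_le
    simp only [length_win] at h1
    refine ⟨h1, ?_⟩
    have h2 := List.prefix_iff_eq_take.1 h
    rw [length_win, take_win _ _ _ _ h1] at h2
    exact fun t ht => (win_inj h2 t ht).symm
  · rintro ⟨h1, h2⟩
    have : win u i m = win u j m := win_congr fun t ht => (h2 t ht).symm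
    rw [this]
    obtain ⟨c, rfl⟩ := Nat.exists_eq_add_of_le h1
    rw [win_add]
    exact List.prefix_append _ _

lemma findRet_spec {u : ℕ → ℕ} {i m : ℕ} (hm : 1 ≤ m) (K : ℕ) : ∀ j t r,
    findRet (win u i m) (win u j K) t = some r →
      ∃ s, r = t + s ∧ s + m ≤ K ∧ Occ u i m (j + s) ∧ ∀ s' < s, ¬ Occ u i m (j + s') := by
  induction K with
  | zero => intro j t r h; simp [findRet] at h
  | succ K ih =>
    intro j t r h
    rw [win_succ] at h
    unfold findRet at h
    rw [← win_succ] at h
    rcases h1 : pre (win u i m) (win u j (K + 1)) with _ | _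
    · rw [h1, cond_false] at h
      obtain ⟨s, rfl, h2, h3, h4⟩ := ih _ _ _ h
      refine ⟨s + 1, by ring, by omega, ?_, ?_⟩
      · rwa [show j + (s + 1) = j + 1 + s by ring]
      · intro s' hs'
        rcases Nat.eq_zero_or_pos s' with rfl | h5
        · intro hO
          have := pre_win.2 ⟨show m ≤ K + 1 by omega, hO⟩
          rw [Nat.add_zero] at this
          rw [this] at h1
          exact absurd h1 (by decide)
        · have := h4 (s' - 1) (by omega)
          rwa [show j + 1 + (s' - 1) = j + s' by omega] at this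
    · rw [h1, cond_true] at h
      obtain rfl := Option.some.inj h
      obtain ⟨h2, h3⟩ := pre_win.1 h1
      exact ⟨0, by simp, by omega, h3, fun s' hs' => absurd hs' (by omega)⟩

lemma reverse_win {u : ℕ → ℕ} {a b m : ℕ}
    (h : ∀ t < m, u (b + t) = u (a + m - 1 - t)) : (win u a m).reverse = win u b m := by
  apply List.ext_getElem (by simp)
  intro t h1 h2
  have h3 : t < m := by simpa using h2
  rw [List.getElem_reverse, ← List.getD_eq_getElem _ 0, ← List.getD_eq_getElem _ 0 h2,
    getD_win _ _ _ _ h3, length_win, getD_win _ _ _ _ (by omega), h t h3]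
  congr 1
  omega

lemma pal_of_pre {u : ℕ → ℕ} {a m : ℕ} (h : pre (win u a m) (win u a m).reverse = true) :
    Pal u a (a + m) := by
  rw [pre_iff] at h
  have h2 := h.eq_of_length (by simp)
  intro k hk1 hk2
  obtain ⟨t, rfl⟩ := Nat.exists_eq_add_of_le hk1
  have ht : t < m := by omega
  rw [← getD_win u a m t ht, h2, List.getD_eq_getElem _ _ (by simpa using ht),
    List.getElem_reverse, ← List.getD_eq_getElem _ 0, length_win, getD_win _ _ _ _ (by omega)]
  congr 1
  omega

lemma retOK_spec {u : ℕ → ℕ} {j m K : ℕ} (hm : 1 ≤ m) (hK : m ≤ K)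
    (h : retOK (win u j K) m = true) {j' : ℕ} (hjj : j < j') (hO : Occ u j m j')
    (hn : ∀ k, j < k → k < j' → ¬ Occ u j m k) : Pal u j (j' + m) := by
  unfold retOK at h
  obtain ⟨K, rfl⟩ := Nat.exists_eq_add_of_le' (show 1 ≤ K by omega)
  rw [take_win _ _ _ _ hK, win_succ, List.drop_one, List.tail_cons, ← win_succ] at h
  split at h
  · exact absurd h (by decide)
  · rename_i r hr
    obtain ⟨s, rfl, h2, h3, h4⟩ := findRet_spec hm K _ _ _ hr
    have h5 : j' = j + 1 + s := by
      rcases lt_trichotomy j' (j + 1 + s) with h6 | h6 | h6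
      · have := h4 (j' - (j + 1)) (by omega)
        rw [show j + 1 + (j' - (j + 1)) = j' by omega] at this
        exact absurd hO this
      · exact h6
      · exact absurd h3 (hn _ (by omega) h6)
    rw [take_win _ _ _ _ (by omega)] at h
    have := pal_of_pre h
    rwa [show j + (1 + s + m) = j' + m by omega] at this

/-! ### The structure of `y` -/

/-- Block lengths. -/
def lenf (x : ℕ) : ℕ := (f x).length

/-- Block letters. -/
def Ff (x r : ℕ) : ℕ := (f x).getD r 0

theorem mor_y : Mor y y pos lenf Ff 0 where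
  pos_zero := rfl
  pos_succ := desub_y.pos_succ
  len_pos := fun n => f_len_pos _
  val := fun n r hr => y_pos_add hr
  pal := by
    have h : ∀ x < 3, ∀ r < 5, r < lenf x + 0 → Ff x (lenf x + 0 - 1 - r) = Ff x r := by
      decide +kernel
    intro n r hr
    have h1 := y_le n
    have h2 := length_f_y n
    exact h (y n) (by omega) r (by unfold lenf at hr; omega) hr
  code := by
    have h : ∀ x < 3, ∀ x' < 3, (∀ r < 5, r < lenf x → r < lenf x' → Ff x r = Ff x' r) →
        x = x' := by decide +kernel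
    intro n n' hr
    have h1 := y_le n
    have h2 := y_le n'
    exact h (y n) (by omega) (y n') (by omega) fun r _ h3 h4 => hr r h3 h4
  e_le := by norm_num
  edge := fun _ _ s hs => absurd hs (by omega)

/-- The nine possible positions inside the blocks. -/
lemma nine (j : ℕ) : ∃ n, pos n ≤ j ∧ j < pos (n + 1) ∧ y (pos (n + 1)) ≠ 0 ∧
    ((y n = 0 ∧ j = pos n ∧ y j = 2 ∧ pos (n + 1) = j + 1) ∨
     (y n = 1 ∧ j = pos n ∧ y j = 1 ∧ y (j + 1) = 0 ∧ y (j + 2) = 1 ∧ pos (n + 1) = j + 3) ∨
     (y n = 1 ∧ j = pos n + 1 ∧ y j = 0 ∧ y (pos n) = 1 ∧ y (j + 1) = 1 ∧ pos (n + 1) = j + 2) ∨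
     (y n = 1 ∧ j = pos n + 2 ∧ y j = 1 ∧ y (pos n + 1) = 0 ∧ pos (n + 1) = j + 1) ∨
     (y n = 2 ∧ j = pos n ∧ y j = 1 ∧ y (j + 1) = 0 ∧ pos (n + 1) = j + 5) ∨
     (y n = 2 ∧ j = pos n + 1 ∧ y j = 0 ∧ y (pos n) = 1 ∧ y (j + 1) = 0 ∧ y (j + 2) = 0 ∧
        y (j + 3) = 1 ∧ pos (n + 1) = j + 4) ∨
     (y n = 2 ∧ j = pos n + 2 ∧ y j = 0 ∧ y (pos n + 1) = 0 ∧ y (j + 1) = 0 ∧ y (j + 2) = 1 ∧
        pos (n + 1) = j + 3) ∨
     (y n = 2 ∧ j = pos n + 3 ∧ y j = 0 ∧ y (pos n + 2) = 0 ∧ y (j + 1) = 1 ∧
        pos (n + 1) = j + 2) ∨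
     (y n = 2 ∧ j = pos n + 4 ∧ y j = 1 ∧ y (pos n + 3) = 0 ∧ pos (n + 1) = j + 1)) := by
  obtain ⟨n, r, rfl, hr⟩ := desub_y.locate j
  have h1 := y_le n
  have h2 := length_f_y n
  have h3 := pos_succ n
  have h4 : ∀ r, r < (f (y n)).length → y (pos n + r) = (f (y n)).getD r 0 :=
    fun r hr => y_pos_add hr
  have h5 : y (pos (n + 1)) ≠ 0 := by
    have h6 := y_pos_add (n := n + 1) (r := 0) (f_len_pos _)
    rw [Nat.add_zero] at h6
    rw [h6]
    have := y_le (n + 1)
    generalize y (n + 1) = x at *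
    interval_cases x <;> decide
  refine ⟨n, by omega, by omega, h5, ?_⟩
  have hz : y n = 0 ∨ y n = 1 ∨ y n = 2 := by omega
  rcases hz with hz | hz | hz
  · rw [hz] at h4 hr h3
    simp only [f, List.length_cons, List.length_nil] at h4 hr
    have : r = 0 := by omega
    subst this
    left
    exact ⟨hz, by omega, h4 0 (by omega), by omega⟩
  · rw [hz] at h4 hr h3
    simp only [f, List.length_cons, List.length_nil] at h4 hr
    have a0 : y (pos n) = 1 := h4 0 (by omega)
    have a1 : y (pos n + 1) = 0 := h4 1 (by omega)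
    have a2 : y (pos n + 2) = 1 := h4 2 (by omega)
    interval_cases r
    · right; left; exact ⟨hz, by omega, a0, a1, a2, by omega⟩
    · right; right; left; exact ⟨hz, by omega, a1, a0, a2, by omega⟩
    · right; right; right; left; exact ⟨hz, by omega, a2, a1, by omega⟩
  · rw [hz] at h4 hr h3
    simp only [f, List.length_cons, List.length_nil] at h4 hr
    have a0 : y (pos n) = 1 := h4 0 (by omega)
    have a1 : y (pos n + 1) = 0 := h4 1 (by omega)
    have a2 : y (pos n + 2) = 0 := h4 2 (by omega)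
    have a3 : y (pos n + 3) = 0 := h4 3 (by omega)
    have a4 : y (pos n + 4) = 1 := h4 4 (by omega)
    interval_cases r
    · right; right; right; right; left; exact ⟨hz, by omega, a0, a1, by omega⟩
    · right; right; right; right; right; left
      exact ⟨hz, by omega, a1, a0, a2, a3, a4, by omega⟩
    · right; right; right; right; right; right; left
      exact ⟨hz, by omega, a2, a1, a3, a4, by omega⟩
    · right; right; right; right; right; right; right; left
      exact ⟨hz, by omega, a3, a2, a4, by omega⟩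
    · right; right; right; right; right; right; right; right
      exact ⟨hz, by omega, a4, a3, by omega⟩

lemma y_pos_ne (n : ℕ) : y (pos n) ≠ 0 := by
  have h6 := y_pos_add (n := n) (r := 0) (f_len_pos _)
  rw [Nat.add_zero] at h6
  rw [h6]
  have := y_le n
  generalize y n = x at *
  interval_cases x <;> decide

lemma y_pos_pred_ne {n : ℕ} (hn : 1 ≤ n) : y (pos n - 1) ≠ 0 := by
  obtain ⟨n, rfl⟩ := Nat.exists_eq_add_of_le' hn
  have h3 := desub_y.pos_succ n
  have h4 := f_len_pos (y n)
  rw [show pos (n + 1) - 1 = pos n + ((f (y n)).length - 1) by omega, y_pos_add (by omega)]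
  have := y_le n
  generalize y n = x at *
  interval_cases x <;> decide

/-- Boundaries are exactly the places between two nonzero letters. -/
lemma isB_of_ne {k : ℕ} (h1 : y k ≠ 0) (h2 : y (k + 1) ≠ 0) : ∃ n, pos n = k + 1 := by
  obtain ⟨n, -, -, -, h⟩ := nine k
  rcases h with h | h | h | h | h | h | h | h | h
  · exact ⟨n + 1, h.2.2.2⟩
  · exact absurd h.2.2.2.1 h2
  · exact absurd h.2.2.1 h1
  · exact ⟨n + 1, h.2.2.2.2⟩
  · exact absurd h.2.2.2.1 h2
  · exact absurd h.2.2.1 h1
  · exact absurd h.2.2.1 h1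
  · exact absurd h.2.2.1 h1
  · exact ⟨n + 1, h.2.2.2.2⟩

lemma isB_of_two {k : ℕ} (h1 : y k = 2) : ∃ n, pos n = k ∧ pos (n + 1) = k + 1 := by
  obtain ⟨n, -, -, -, h⟩ := nine k
  rcases h with h | h | h | h | h | h | h | h | h
  · exact ⟨n, by omega, h.2.2.2⟩
  all_goals exfalso; omega

/-- A letter `1` followed by `0` starts a block. -/
lemma isB_start {k : ℕ} (h1 : y k = 1) (h2 : y (k + 1) = 0) :
    ∃ n, pos n = k ∧ 1 ≤ y n := by
  obtain ⟨n, -, -, hne, h⟩ := nine k
  rcases h with h | h | h | h | h | h | h | h | h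
  · exfalso; omega
  · exact ⟨n, by omega, by omega⟩
  · exfalso; omega
  · exfalso; rw [h.2.2.2.2] at hne; exact hne h2
  · exact ⟨n, by omega, by omega⟩
  · exfalso; omega
  · exfalso; omega
  · exfalso; omega
  · exfalso; rw [h.2.2.2.2] at hne; exact hne h2

/-- A letter `1` preceded by `0` ends a block. -/
lemma isB_end {k : ℕ} (h1 : y (k + 1) = 1) (h2 : y k = 0) :
    ∃ n, pos (n + 1) = k + 2 ∧ pos n < k + 1 ∧ 1 ≤ y n := by
  obtain ⟨n, -, -, hne, h⟩ := nine (k + 1)
  rcases h with h | h | h | h | h | h | h | h | h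
  · exfalso; omega
  · exfalso
    have h3 := h.2.1
    rcases Nat.eq_zero_or_pos n with rfl | h4
    · have : pos 0 = 0 := rfl
      omega
    · apply y_pos_pred_ne h4
      rw [← h3, Nat.add_sub_cancel]
      exact h2
  · exfalso; omega
  · exact ⟨n, by omega, by omega, by omega⟩
  · exfalso
    have h3 := h.2.1
    rcases Nat.eq_zero_or_pos n with rfl | h4
    · have : pos 0 = 0 := rfl
      omega
    · apply y_pos_pred_ne h4
      rw [← h3, Nat.add_sub_cancel]
      exact h2
  · exfalso; omega
  · exfalso; omega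
  · exfalso; omega
  · exact ⟨n, by omega, by omega, by omega⟩

lemma next_zero {k : ℕ} (h : y k = 0) : y (k + 1) ≤ 1 := by
  obtain ⟨n, -, -, -, h⟩ := nine k
  omega

lemma zero_pos {k : ℕ} (h : y k = 0) : 1 ≤ k ∧ y (k - 1) ≤ 1 := by
  obtain ⟨n, -, -, -, h⟩ := nine k
  rcases h with h | h | h | h | h | h | h | h | h
  · exfalso; omega
  · exfalso; omega
  · refine ⟨by omega, ?_⟩
    rw [show k - 1 = pos n by omega]; omega
  · exfalso; omega
  · exfalso; omega
  · refine ⟨by omega, ?_⟩
    rw [show k - 1 = pos n by omega]; omega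
  · refine ⟨by omega, ?_⟩
    rw [show k - 1 = pos n + 1 by omega]; omega
  · refine ⟨by omega, ?_⟩
    rw [show k - 1 = pos n + 2 by omega]; omega
  · exfalso; omega

end Pool.Agent.H42.Rich
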