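import Pool.Agent.H42.Rich.CRy

/-!
# All complete returns to palindromes in `y` are palindromes
-/

set_option autoImplicit false

namespace Pool.Agent.H42.Rich

lemma fit0 {j m : ℕ} (hm : 1 ≤ m) (h1 : ∃ n, pos n = j) (h2 : ∃ n, pos n = j + m) :
    Fit pos 0 j m 0 := by
  obtain ⟨a, ha⟩ := h1
  obtain ⟨b, hb⟩ := h2
  have hab : a < b := desub_y.strictMono.lt_iff_lt.1 (by omega)
  refine ⟨a, b - a, by omega, ?_, ?_, ?_⟩
  · rw [show a + (b - a) = b by omega]; omega
  · intro a' ha'
    have := desub_y.strictMono ha'
    omega
  · rw [show a + (b - a) + 1 = b + 1 by omega]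
    have := desub_y.strictMono (show b < b + 1 by omega)
    omega

/-- Aligned palindromes starting with `2` or `10`. -/
lemma fit_zero {j m : ℕ} (hm : 1 ≤ m) (hP : Pal y j (j + m))
    (h : y j = 2 ∨ (2 ≤ m ∧ y j = 1 ∧ y (j + 1) = 0)) : Fit pos 0 j m 0 := by
  have h1 := hP j (by omega) (by omega)
  rw [show j + (j + m) - 1 - j = j + (m - 1) by omega] at h1
  rcases h with h | ⟨h2, h3, h4⟩
  · obtain ⟨n, hn, -⟩ := isB_of_two h
    obtain ⟨n', -, hn'⟩ := isB_of_two (h1.symm.trans h)
    exact fit0 hm ⟨n, hn⟩ ⟨n' + 1, by omega⟩
  · obtain ⟨n, hn, -⟩ := isB_start h3 h4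
    have h5 := hP (j + 1) (by omega) (by omega)
    rw [show j + (j + m) - 1 - (j + 1) = j + (m - 2) by omega] at h5
    obtain ⟨n', hn', -⟩ := isB_end (k := j + (m - 2))
      (by rw [show j + (m - 2) + 1 = j + (m - 1) by omega]; exact h1.symm.trans h3)
      (h5.symm.trans h4)
    exact fit0 hm ⟨n, hn⟩ ⟨n' + 1, by omega⟩

/-- Palindromes starting with `1` and a nonzero letter. -/
lemma fit_one {j m : ℕ} (hm : 2 ≤ m) (hP : Pal y j (j + m)) (h1 : y j = 1) (h2 : y (j + 1) ≠ 0) :
    Fit pos 0 j m 1 := by
  have h3 := hP j (by omega) (by omega)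
  rw [show j + (j + m) - 1 - j = j + (m - 1) by omega] at h3
  have h4 := hP (j + 1) (by omega) (by omega)
  rw [show j + (j + m) - 1 - (j + 1) = j + (m - 2) by omega] at h4
  obtain ⟨a, ha⟩ := isB_of_ne (k := j) (by omega) h2
  obtain ⟨b, hb⟩ := isB_of_ne (k := j + (m - 2)) (by rw [← h4]; exact h2)
    (by rw [show j + (m - 2) + 1 = j + (m - 1) by omega, ← h3]; omega)
  have hab : a ≤ b := desub_y.strictMono.le_iff_le.1 (by omega)
  -- the letters of the neighbouring blocks
  obtain ⟨n, e1, e2, -, h⟩ := nine j
  have hn : n + 1 = a := by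
    have f1 : n < a := desub_y.strictMono.lt_iff_lt.1 (by omega)
    have f2 : a < n + 2 := by
      by_contra hcon
      have := desub_y.strictMono (show n + 1 < a by omega)
      omega
    omega
  subst hn
  have hlt : pos n < j := by
    rcases h with h | h | h | h | h | h | h | h | h <;> omega
  have hb' : pos b + 1 < pos (b + 1) := by
    have f1 := pos_succ b
    have f2 : y b ≠ 0 := by
      intro f2
      have f3 := y_pos_add (n := b) (r := 0) (f_len_pos _)
      rw [f2, Nat.add_zero] at f3
      simp only [f, List.getD_cons_zero] at f3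
      rw [hb, show j + (m - 2) + 1 = j + (m - 1) by omega, ← h3] at f3
      omega
    omega
  refine ⟨n + 1, b - (n + 1), ha, ?_, ?_, ?_⟩
  · rw [show n + 1 + (b - (n + 1)) = b by omega]; omega
  · intro a' ha'
    have : pos a' ≤ pos n := desub_y.strictMono.monotone (by omega)
    omega
  · rw [show n + 1 + (b - (n + 1)) + 1 = b + 1 by omega]
    omega

/-- Palindromes starting with `0^s 1`. -/
lemma fit_zeros {j m s : ℕ} (hs : 1 ≤ s) (hsm : s < m) (hP : Pal y j (j + m))
    (h1 : ∀ t < s, y (j + t) = 0) (h2 : y (j + s) ≠ 0) : Fit pos 0 j m (s + 1) := by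
  have hz : y (j + (s - 1)) = 0 := h1 _ (by omega)
  have h3 : y (j + s) = 1 := by
    have := next_zero hz
    rw [show j + (s - 1) + 1 = j + s by omega] at this
    omega
  obtain ⟨n, e1, e2, e3⟩ := isB_end (k := j + (s - 1))
    (by rw [show j + (s - 1) + 1 = j + s by omega]; exact h3) hz
  -- mirrored letters
  have h4 := hP (j + s) (by omega) (by omega)
  rw [show j + (j + m) - 1 - (j + s) = j + (m - 1 - s) by omega] at h4
  have h5 := hP (j + (s - 1)) (by omega) (by omega)
  rw [show j + (j + m) - 1 - (j + (s - 1)) = j + (m - 1 - s) + 1 by omega] at h5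
  obtain ⟨b, g1, g2⟩ := isB_start (k := j + (m - 1 - s)) (h4.symm.trans h3) (h5.symm.trans hz)
  -- the block `n` starts before `j`
  have hnj : pos n < j := by
    by_contra hcon
    have hcon' : j ≤ pos n := by omega
    have := y_pos_ne n
    rw [show pos n = j + (pos n - j) by omega] at this
    exact this (h1 _ (by omega))
  have hab : n + 1 ≤ b := by
    have : n < b := desub_y.strictMono.lt_iff_lt.1 (by change pos n < pos b; omega)
    omega
  have hlast : y (j + (m - 1)) = 0 := by
    have h6 := hP j (by omega) (by omega)
    rw [show j + (j + m) - 1 - j = j + (m - 1) by omega] at h6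
    have := h1 0 (by omega)
    rw [Nat.add_zero] at this
    exact h6.symm.trans this
  have hbb : j + m < pos (b + 1) := by
    -- the zeros after the start of the block `b` lie in this block
    have hk : ∀ k, k ≤ s → j + (m - 1 - s) + k < pos (b + 1) := by
      intro k
      induction k with
      | zero => intro _; have := pos_succ b; omega
      | succ k ih =>
        intro hk
        have := ih (by omega)
        by_contra hcon
        have heq : pos (b + 1) = j + (m - 1 - s) + (k + 1) := by omega
        have h7 := hP (j + (s - (k + 1))) (by omega) (by omega)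
        rw [show j + (j + m) - 1 - (j + (s - (k + 1))) = pos (b + 1) by omega,
          h1 _ (by omega)] at h7
        exact y_pos_ne (b + 1) h7.symm
    have h8 := hk s le_rfl
    have h9 : j + (m - 1 - s) + s = j + (m - 1) := by omega
    rw [h9] at h8
    by_contra hcon
    have heq : pos (b + 1) - 1 = j + (m - 1) := by omega
    have := y_pos_pred_ne (n := b + 1) (by omega)
    rw [heq] at this
    exact this hlast
  refine ⟨n + 1, b - (n + 1), by omega, ?_, ?_, ?_⟩
  · rw [show n + 1 + (b - (n + 1)) = b by omega]; omega
  · intro a' ha'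
    have : pos a' ≤ pos n := desub_y.strictMono.monotone (by omega)
    omega
  · rw [show n + 1 + (b - (n + 1)) + 1 = b + 1 by omega]
    omega

lemma S_mono {a b : ℕ} (h : a ≤ b) : S a ≤ S b := by
  obtain ⟨c, rfl⟩ := Nat.exists_eq_add_of_le h
  rw [S_add]
  omega

lemma S_succ (n : ℕ) : S (n + 1) = S n + y n := rfl

/-- Complete returns with nonzero contexts. -/
lemma cr12 (N : ℕ) (IH : ∀ j j' m, 1 ≤ m → m + S (j + m) < N + S j → j < j' →
      Pal y j (j + m) → Occ y j m j' → (∀ k, j < k → k < j' → ¬ Occ y j m k) →
      Pal y j (j' + m))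
    {a a' q : ℕ} (haa : a < a') (ha : 1 ≤ a) (hP : Pal y a (a + q)) (hO : Occ y a q a')
    (c1 : y (a - 1) ≠ 0) (c2 : y (a + q) ≠ 0) (c3 : y (a' - 1) ≠ 0) (c4 : y (a' + q) ≠ 0)
    (hn : ∀ c, a < c → c < a' → Occ y a q c → y (c - 1) ≠ 0 → y (c + q) ≠ 0 → False)
    (hN : 1 ≤ q → q + S (a + q) + 4 < N + S a) : Pal y a (a' + q) := by
  rcases Nat.eq_zero_or_pos q with rfl | hq
  · -- empty palindrome: consecutive boundaries
    rw [Nat.add_zero] at *
    obtain ⟨n, hn1⟩ := isB_of_ne (k := a - 1) c1 (by rw [Nat.sub_add_cancel ha]; exact c2)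
    obtain ⟨n', hn2⟩ := isB_of_ne (k := a' - 1) c3
      (by rw [Nat.sub_add_cancel (by omega)]; exact c4)
    have h1 : n < n' := desub_y.strictMono.lt_iff_lt.1 (by omega)
    have h2 : n' = n + 1 := by
      by_contra hcon
      have h3 := desub_y.strictMono (show n < n + 1 by omega)
      have h4 := desub_y.strictMono (show n + 1 < n' by omega)
      exact hn (pos (n + 1)) (by omega) (by omega) (fun t ht => absurd ht (by omega))
        (y_pos_pred_ne (by omega)) (y_pos_ne _)
    subst h2
    have := mor_y.palUp (a := n) (b := n + 1) (fun k hk1 hk2 => by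
      congr 1; omega) (by omega)
    rw [hn1, hn2, Nat.add_zero, Nat.sub_add_cancel ha, Nat.sub_add_cancel (by omega)] at this
    exact this
  · have hlast := hP a (by omega) (by omega)
    rw [show a + (a + q) - 1 - a = a + (q - 1) by omega] at hlast
    by_cases hz : y a = 0
    · -- contexts are `1`
      have z1 : y (a - 1) = 1 := by
        have := zero_pos hz
        omega
      have z2 : y (a + q) = 1 := by
        have := next_zero (hlast.symm.trans hz)
        rw [show a + (q - 1) + 1 = a + q by omega] at this
        omega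
      have hz' : y a' = 0 := by
        have := hO 0 (by omega)
        rw [Nat.add_zero, Nat.add_zero] at this
        exact this.trans hz
      have z3 : y (a' - 1) = 1 := by
        have := zero_pos hz'
        omega
      have z4 : y (a' + q) = 1 := by
        have h1 := hO (q - 1) (by omega)
        have := next_zero ((h1.trans hlast.symm).trans hz)
        rw [show a' + (q - 1) + 1 = a' + q by omega] at this
        omega
      obtain ⟨i, rfl⟩ := Nat.exists_eq_add_of_le' ha
      obtain ⟨i', rfl⟩ := Nat.exists_eq_add_of_le' (show 1 ≤ a' by omega)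
      rw [Nat.add_sub_cancel] at z1 z3
      refine pal_of_ctx hP hO z1 z2 z3 z4 ?_ ?_
      · intro k hk1 hk2 hOk e1 e2
        exact hn k hk1 hk2 hOk (by omega) (by omega)
      · intro p1 p2 p3
        refine IH i i' (q + 2) (by omega) ?_ (by omega) p1 p2 p3
        have s1 : S (i + 1) = S i + y i := rfl
        have s2 : S (i + 1 + q + 1) = S (i + 1 + q) + y (i + 1 + q) := rfl
        rw [show i + (q + 2) = i + 1 + q + 1 by ring]
        have := hN hq
        omega
    · -- the palindrome is an image
      have hisB : ∀ k, 1 ≤ k → y (k - 1) ≠ 0 → y k ≠ 0 → ∃ n, pos n = k := by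
        intro k hk e1 e2
        obtain ⟨n, hn⟩ := isB_of_ne (k := k - 1) e1 (by rwa [Nat.sub_add_cancel hk])
        exact ⟨n, by omega⟩
      have hz' : y a' ≠ 0 := by
        have := hO 0 (by omega)
        rw [Nat.add_zero, Nat.add_zero] at this
        rwa [this]
      have hl' : y (a' + (q - 1)) ≠ 0 := by
        rw [hO (q - 1) (by omega), ← hlast]
        exact hz
      have F1 : Fit pos 0 a q 0 := fit0 hq (hisB a ha c1 hz)
        (hisB (a + q) (by omega) (by
          rw [show a + q - 1 = a + (q - 1) by omega, ← hlast]; exact hz) c2)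
      have F2 : Fit pos 0 a' q 0 := fit0 hq (hisB a' (by omega) c3 hz')
        (hisB (a' + q) (by omega) (by
          rw [show a' + q - 1 = a' + (q - 1) by omega]; exact hl') c4)
      obtain ⟨b, b', p, h1, h2, h3, h4, h5, h6, -, -, -, h7, h8⟩ :=
        mor_y.lift hP hO haa F1 F2 (by
          rintro k hk1 hk2 hOk ⟨b, p, g1, g2, -, -⟩
          refine hn k hk1 hk2 hOk ?_ ?_
          · have := y_pos_pred_ne (n := b) (by
              rcases Nat.eq_zero_or_pos b with rfl | h
              · have : pos 0 = 0 := rfl
                omega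
              · exact h)
            rwa [g1, Nat.add_zero] at this
          · have := y_pos_ne (b + p)
            rwa [show pos (b + p) = k + q by omega] at this)
      apply h8
      have hp : 1 ≤ p := by
        rcases Nat.eq_zero_or_pos p with rfl | h
        · have h4' : pos b + 0 + 0 = a + q := h4
          omega
        · exact h
      refine IH b b' p hp ?_ h1 h5 h6 (fun k hk1 hk2 hOk => h7 k hk1 hk2 hOk (by omega))
      have t1 := pos_eq b
      have t2 := pos_eq (b + p)
      have t3 := S_pos b
      have t4 := S_pos (b + p)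
      rw [show pos b = a by omega] at t3
      rw [show pos (b + p) = a + q by omega] at t4
      have t5 := S_mono (show b ≤ b + p by omega)
      have := hN hq
      omega

/-- The brute force part. -/
def chkBase (v : List ℕ) : Bool :=
  (!(pre [0] v) || retOK v 1) && ((!(pre [0, 0] v) || retOK v 2) &&
    ((!(pre [0, 0, 0] v) || retOK v 3) && (!(pre [0, 0, 0, 0] v) &&
      (!(pre [1] v) || retOK v 1))))

lemma chkBase_all : (codes49.all fun c => chkBase (dec 49 c)) = true := by decide +kernel

lemma base_zero {j m : ℕ} (hm : 1 ≤ m) (h : ∀ t < m, y (j + t) = 0) :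
    retOK (win y j 49) m = true := by
  have hb := forall_win49 chkBase chkBase_all j
  unfold chkBase at hb
  simp only [Bool.and_eq_true, Bool.or_eq_true, Bool.not_eq_true'] at hb
  obtain ⟨h1, h2, h3, h4, -⟩ := hb
  have key : ∀ m', m' ≤ m → m' ≤ 49 → win y j m' = List.replicate m' 0 →
      pre (List.replicate m' 0) (win y j 49) = true := by
    intro m' _ h5 h6
    rw [← h6, pre_win]
    exact ⟨h5, fun _ _ => rfl⟩
  have rep : ∀ m', m' ≤ m → win y j m' = List.replicate m' 0 := by
    intro m' hm'
    induction m' with
    | zero => rfl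
    | succ k ih =>
      rw [win_add, ih (by omega), win_succ, win_zero, h k (by omega), List.replicate_succ']
  have hm4 : m < 4 := by
    by_contra hcon
    have := key 4 (by omega) (by norm_num) (rep 4 (by omega))
    change pre [0, 0, 0, 0] _ = true at this
    rw [this] at h4
    exact absurd h4 (by decide)
  have h5 := key m le_rfl (by omega) (rep m le_rfl)
  interval_cases m
  · change pre [0] _ = true at h5
    rcases h1 with h1 | h1
    · rw [h5] at h1; exact absurd h1 (by decide)
    · exact h1
  · change pre [0, 0] _ = true at h5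
    rcases h2 with h1 | h1
    · rw [h5] at h1; exact absurd h1 (by decide)
    · exact h1
  · change pre [0, 0, 0] _ = true at h5
    rcases h3 with h1 | h1
    · rw [h5] at h1; exact absurd h1 (by decide)
    · exact h1

lemma base_one {j : ℕ} (h : y j = 1) : retOK (win y j 49) 1 = true := by
  have hb := forall_win49 chkBase chkBase_all j
  unfold chkBase at hb
  simp only [Bool.and_eq_true, Bool.or_eq_true, Bool.not_eq_true'] at hb
  obtain ⟨-, -, -, -, h5⟩ := hb
  rcases h5 with h1 | h1
  · have : pre [1] (win y j 49) = true := by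
      rw [win_succ, h]
      rfl
    rw [this] at h1
    exact absurd h1 (by decide)
  · exact h1

/-- The letters allowed by an overhang in `y`. -/
lemma cls_one {j o c : ℕ} (ho : 1 ≤ o) (hc : Cls y lenf Ff j o c) : c ≠ 0 := by
  rintro rfl
  have := hc.1
  unfold lenf f at this
  simp only [List.length_cons, List.length_nil] at this
  omega

lemma cls_two {j o c : ℕ} (ho : 3 ≤ o) (hc : Cls y lenf Ff j o c) (h2 : c ≤ 2) : c = 2 := by
  have := hc.1
  unfold lenf at this
  rw [f_length h2] at this
  omega

lemma cls_of_ne {j o c c' : ℕ} (ho : 1 ≤ o) (ho' : o ≤ 2) (hc : Cls y lenf Ff j o c) (h2 : c ≤ 2)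
    (h : c' ≠ 0) (h2' : c' ≤ 2) : Cls y lenf Ff j o c' := by
  have h0 := cls_one ho hc
  have key : ∀ o < 2, ∀ c < 2, ∀ c' < 2,
      (o + 1 < lenf (c' + 1)) ∧ ∀ s < o + 1,
        Ff (c' + 1) (lenf (c' + 1) - (o + 1) + s) = Ff (c + 1) (lenf (c + 1) - (o + 1) + s) := by
    decide +kernel
  obtain ⟨k1, k2⟩ := key (o - 1) (by omega) (c - 1) (by omega) (c' - 1) (by omega)
  rw [Nat.sub_add_cancel ho, Nat.sub_add_cancel (show 1 ≤ c by omega),
    Nat.sub_add_cancel (show 1 ≤ c' by omega)] at k2
  rw [Nat.sub_add_cancel ho, Nat.sub_add_cancel (show 1 ≤ c' by omega)] at k1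
  exact ⟨k1, fun s hs => (k2 s hs).trans (hc.2 s hs)⟩

theorem crY (N : ℕ) : ∀ j j' m, 1 ≤ m → m + S (j + m) < N + S j → j < j' →
    Pal y j (j + m) → Occ y j m j' → (∀ k, j < k → k < j' → ¬ Occ y j m k) →
    Pal y j (j' + m) := by
  induction N with
  | zero =>
    intro j j' m hm h
    have := S_mono (show j ≤ j + m by omega)
    omega
  | succ N IH =>
    intro j j' m hm hμ hjj hP hO hn
    have hP' : Pal y j' (j' + m) := pal_occ hP hO
    -- reduction given an overhang
    have main : ∀ o, Fit pos 0 j m o → Fit pos 0 j' m o → (o = 0 → y j ≠ 0) →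
        Pal y j (j' + m) := by
      intro o F1 F2 _
      obtain ⟨a, a', q, h1, h2, h2', h3, h4, h5, h6, h6r, h6r', h7, h8⟩ :=
        mor_y.lift hP hO hjj F1 F2 (fun k hk1 hk2 hOk _ => hn k hk1 hk2 hOk)
      apply h8
      have t1 := pos_eq a
      have t2 := pos_eq (a + q)
      have t3 := S_pos a
      have t4 := S_pos (a + q)
      have t5 := S_mono (show a ≤ a + q by omega)
      rcases Nat.eq_zero_or_pos o with rfl | ho
      · -- no overhang
        rw [show pos a = j by omega] at t3
        rw [show pos (a + q) = j + m by omega] at t4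
        have hq : 1 ≤ q := by
          rcases Nat.eq_zero_or_pos q with rfl | h
          · have h3' : pos a + 0 + 0 = j + m := h3
            omega
          · exact h
        exact IH a a' q hq (by omega) h1 h4 h5
          (fun k hk1 hk2 hOk => h7 k hk1 hk2 hOk (by omega))
      · obtain ⟨ha, hL, hL'⟩ := h6 ho
        -- sums of the overhangs
        have hSl : S j + 1 ≤ S (pos a) := by
          have := y_pos_pred_ne ha
          have e1 : S (pos a - 1 + 1) = S (pos a - 1) + y (pos a - 1) := rfl
          rw [Nat.sub_add_cancel (by omega)] at e1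
          have e2 := S_mono (show j ≤ pos a - 1 by omega)
          omega
        have hSr : S (pos (a + q)) + 1 ≤ S (j + m) := by
          have := y_pos_ne (a + q)
          have e1 : S (pos (a + q) + 1) = S (pos (a + q)) + y (pos (a + q)) := rfl
          have e2 := S_mono (show pos (a + q) + 1 ≤ j + m by omega)
          omega
        rcases Nat.lt_or_ge o 3 with ho3 | ho3
        · -- contexts `1` or `2`
          refine cr12 N IH h1 ha h4 h5 (cls_one ho hL) (cls_one ho h6r) (cls_one ho hL')
            (cls_one ho h6r') ?_ ?_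
          · intro c hc1 hc2 hOc e1 e2
            refine h7 c hc1 hc2 hOc (fun _ => ⟨?_, ?_⟩)
            · exact cls_of_ne ho (by omega) hL (y_le _) e1 (y_le _)
            · exact cls_of_ne ho (by omega) hL (y_le _) e2 (y_le _)
          · intro hq
            omega
        · -- context `2`
          have z1 := cls_two ho3 hL (y_le _)
          have z2 := cls_two ho3 h6r (y_le _)
          have z3 := cls_two ho3 hL' (y_le _)
          have z4 := cls_two ho3 h6r' (y_le _)
          obtain ⟨i, rfl⟩ := Nat.exists_eq_add_of_le' ha
          obtain ⟨i', rfl⟩ := Nat.exists_eq_add_of_le' (show 1 ≤ a' by omega)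
          rw [Nat.add_sub_cancel] at z1 z3
          refine pal_of_ctx h4 h5 z1 z2 z3 z4 ?_ ?_
          · intro k hk1 hk2 hOk e1 e2
            refine h7 k hk1 hk2 hOk (fun _ => ⟨?_, ?_⟩)
            · rw [e1, ← z1]; exact hL
            · rw [e2, ← z1]; exact hL
          · intro p1 p2 p3
            refine IH i i' (q + 2) (by omega) ?_ (by omega) p1 p2 p3
            have s1 : S (i + 1) = S i + y i := rfl
            have s2 : S (i + 1 + q + 1) = S (i + 1 + q) + y (i + 1 + q) := rfl
            rw [show i + (q + 2) = i + 1 + q + 1 by ring]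
            omega
    have hy := y_le j
    have hO0 : y j' = y j := by
      have := hO 0 (by omega)
      rwa [Nat.add_zero, Nat.add_zero] at this
    rcases (show y j = 0 ∨ y j = 1 ∨ y j = 2 by omega) with hy0 | hy1 | hy2
    · by_cases hall : ∀ t < m, y (j + t) = 0
      · exact retOK_spec hm (by
          by_contra hcon
          have h4 := base_zero (j := j) (m := 4) (by norm_num) (fun t ht => hall t (by omega))
          have hb := forall_win49 chkBase chkBase_all j
          unfold chkBase at hb
          simp only [Bool.and_eq_true, Bool.or_eq_true, Bool.not_eq_true'] at hb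
          obtain ⟨-, -, -, h5, -⟩ := hb
          have : pre [0, 0, 0, 0] (win y j 49) = true := by
            have e : ([0, 0, 0, 0] : List ℕ) = win y j 4 := by
              simp only [win]
              rw [show y j = 0 from hy0, show y (j + 1) = 0 from hall 1 (by omega),
                show y (j + 1 + 1) = 0 from hall 2 (by omega),
                show y (j + 1 + 1 + 1) = 0 from hall 3 (by omega)]
            rw [e, pre_win]
            exact ⟨by norm_num, fun _ _ => rfl⟩
          rw [this] at h5
          exact absurd h5 (by decide)) (base_zero hm hall) hjj hO hn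
      · push Not at hall
        classical
        let s := Nat.find hall
        have hs : s < m ∧ y (j + s) ≠ 0 := Nat.find_spec hall
        have hs' : ∀ t < s, y (j + t) = 0 := by
          intro t ht
          have := Nat.find_min hall ht
          push Not at this
          exact this (by omega)
        have hs1 : 1 ≤ s := by
          rcases Nat.eq_zero_or_pos s with h | h
          · rw [h] at hs
            exact absurd hy0 hs.2
          · exact h
        refine main (s + 1) (fit_zeros hs1 hs.1 hP hs' hs.2) (fit_zeros hs1 hs.1 hP' ?_ ?_) ?_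
        · intro t ht
          rw [hO t (by omega)]
          exact hs' t ht
        · rw [hO s hs.1]
          exact hs.2
        · intro h
          omega
    · rcases Nat.lt_or_ge m 2 with hm2 | hm2
      · have : m = 1 := by omega
        subst this
        exact retOK_spec (le_refl 1) (by norm_num) (base_one hy1) hjj hO hn
      · by_cases h0 : y (j + 1) = 0
        · refine main 0 (fit_zero hm hP (Or.inr ⟨hm2, hy1, h0⟩))
            (fit_zero hm hP' (Or.inr ⟨hm2, hO0.trans hy1, (hO 1 (by omega)).trans h0⟩)) ?_
          intro _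
          omega
        · refine main 1 (fit_one hm2 hP hy1 h0)
            (fit_one hm2 hP' (hO0.trans hy1) (by rw [hO 1 (by omega)]; exact h0)) ?_
          intro h
          omega
    · refine main 0 (fit_zero hm hP (Or.inl hy2)) (fit_zero hm hP' (Or.inl (hO0.trans hy2))) ?_
      intro _
      omega

/-- All complete returns to palindromes in `y` are palindromes. -/
theorem cr_y : CR y := by
  intro i j m hm hij hP hO hn
  exact crY (m + S (i + m) + 1) i j m hm (by omega) hij hP hO hn

end Pool.Agent.H42.Rich
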