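import Mathlib

/-!
# Rich words and additive powers
-/

set_option autoImplicit false

namespace Pool.Agent.H42.Rich

/-- The factor of length `n` of the infinite word `W` starting at position `i`. -/
def factor {α : Type} (W : ℕ → α) (i n : ℕ) : List α := (List.range n).map fun t => W (i + t)

/-- An additive `k`-power: a concatenation of `k` nonempty blocks of integers of the same length
and with the same sum. -/
def IsAdditivePower (k : ℕ) (x : List ℤ) : Prop :=
  ∃ (B : List (List ℤ)) (m : ℕ) (s : ℤ), B.length = k ∧ x = B.flatten ∧ 1 ≤ m ∧
    ∀ u ∈ B, u.length = m ∧ u.sum = s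

/-- A finite word is rich if it has exactly `length + 1` distinct palindromic factors, the empty
word included. -/
def IsRich (x : List ℤ) : Prop := {p : List ℤ | p <:+: x ∧ p.reverse = p}.ncard = x.length + 1

/-- `S` carries an infinite rich additive `4`-power-free word: some infinite word with letters in
`S` has all its finite factors rich and none of them an additive `4`-power. -/
def HasProperty (S : Set ℤ) : Prop :=
  ∃ W : ℕ → ℤ, (∀ n, W n ∈ S) ∧ (∀ i n, IsRich (factor W i n)) ∧
    ∀ i n, ¬ IsAdditivePower 4 (factor W i n)

end Pool.Agent.H42.Rich
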