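import Pool.Agent.H42.Rich.Pal
import Pool.Agent.H42.Rich.Notions

/-!
# Rich words and additive powers: general lemmas
-/

set_option autoImplicit false

namespace Pool.Agent.H42.Rich

section general

variable {α : Type} {W : ℕ → α}

@[simp] lemma length_factor (W : ℕ → α) (i n : ℕ) : (factor W i n).length = n := by
  simp [factor]

@[simp] lemma factor_zero (W : ℕ → α) (i : ℕ) : factor W i 0 = [] := rfl

lemma factor_add (W : ℕ → α) (i a b : ℕ) :
    factor W i (a + b) = factor W i a ++ factor W (i + a) b := by
  unfold factor
  rw [List.range_add, List.map_append, List.map_map]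
  congr 1
  apply List.map_congr_left
  intro t _
  simp [add_assoc]

lemma getElem_factor (W : ℕ → α) (i n t : ℕ) (h : t < (factor W i n).length) :
    (factor W i n)[t] = W (i + t) := by
  simp [factor]

lemma factor_eq_iff {i j n : ℕ} : factor W i n = factor W j n ↔ Occ W i n j := by
  constructor
  · intro h t ht
    have h1 : t < (factor W i n).length := by simpa using ht
    have h2 : t < (factor W j n).length := by simpa using ht
    rw [← getElem_factor W j n t h2, ← getElem_factor W i n t h1]
    exact (List.getElem_of_eq h h1).symm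
  · intro h
    apply List.ext_getElem (by simp)
    intro t h1 h2
    rw [getElem_factor, getElem_factor]
    exact (h t (by simpa using h1)).symm

lemma reverse_factor_iff {i n : ℕ} : (factor W i n).reverse = factor W i n ↔ Pal W i (i + n) := by
  constructor
  · intro h k hk1 hk2
    obtain ⟨t, rfl⟩ := Nat.exists_eq_add_of_le hk1
    have h1 : t < (factor W i n).length := by simp; omega
    have h2 : t < (factor W i n).reverse.length := by simp; omega
    have h3 : (factor W i n).reverse[t] = (factor W i n)[t] := List.getElem_of_eq h h2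
    rw [List.getElem_reverse, getElem_factor, getElem_factor] at h3
    rw [← h3]
    congr 1
    simp only [length_factor]
    omega
  · intro h
    apply List.ext_getElem (by simp)
    intro t h1 h2
    have ht : t < n := by simpa using h2
    rw [List.getElem_reverse, getElem_factor, getElem_factor, h (i + t) (by omega) (by omega)]
    congr 1
    simp only [length_factor]
    omega

/-- Infixes of a factor are factors. -/
lemma infix_factor_iff {i n : ℕ} {p : List α} :
    p <:+: factor W i n ↔ ∃ k m, i ≤ k ∧ k + m ≤ i + n ∧ p = factor W k m := by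
  constructor
  · rintro ⟨s, t, h⟩
    have hlen := congrArg List.length h
    simp only [List.length_append, length_factor] at hlen
    refine ⟨i + s.length, p.length, by omega, by omega, ?_⟩
    have h1 : factor W i n = factor W i s.length ++ (factor W (i + s.length) p.length ++
        factor W (i + s.length + p.length) t.length) := by
      rw [← factor_add, ← factor_add, ← add_assoc, hlen]
    rw [h1, List.append_assoc] at h
    have h2 := List.append_inj h (by simp)
    have h3 := List.append_inj h2.2 (by simp)
    exact h3.1
  · rintro ⟨k, m, h1, h2, rfl⟩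
    obtain ⟨a, rfl⟩ := Nat.exists_eq_add_of_le h1
    obtain ⟨b, hb⟩ := Nat.exists_eq_add_of_le h2
    refine ⟨factor W i a, factor W (i + a + m) b, ?_⟩
    rw [← factor_add, show i + a + m = i + (a + m) by ring, ← factor_add]
    congr 1
    omega

/-- The set of palindromic factors. -/
def pals (W : ℕ → α) (i n : ℕ) : Set (List α) := {p | p <:+: factor W i n ∧ p.reverse = p}

lemma pals_zero (i : ℕ) : pals W i 0 = {[]} := by
  ext p
  simp only [pals, factor_zero, List.infix_nil, Set.mem_ofPred_eq, Set.mem_singleton_iff]
  constructor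
  · exact fun h => h.1
  · rintro rfl
    exact ⟨rfl, rfl⟩

theorem pals_succ (hW : CR W) (i n : ℕ) :
    ∃ q, q ∉ pals W i n ∧ pals W i (n + 1) = insert q (pals W i n) := by
  classical
  -- the longest palindromic suffix
  let P : ℕ → Prop := fun m => 1 ≤ m ∧ Pal W (i + (n + 1) - m) (i + (n + 1))
  have hP1 : P 1 := by
    refine ⟨le_rfl, ?_⟩
    intro k hk1 hk2
    congr 1
    omega
  set M := Nat.findGreatest P (n + 1) with hM
  have hM1 : 1 ≤ M := Nat.le_findGreatest (by omega) hP1
  have hMn : M ≤ n + 1 := Nat.findGreatest_le _
  have hPM : P M := Nat.findGreatest_spec (m := 1) (by omega) hP1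
  have hmax : ∀ m, M < m → m ≤ n + 1 → ¬ P m := fun m h1 h2 =>
    Nat.findGreatest_is_greatest h1 h2
  obtain ⟨j, hj⟩ : ∃ j, j = i + (n + 1) - M := ⟨_, rfl⟩
  have hjM : j + M = i + (n + 1) := by omega
  have hPj : Pal W j (j + M) := by
    rw [hjM, hj]
    exact hPM.2
  refine ⟨factor W j M, ?_, ?_⟩
  · rintro ⟨h1, -⟩
    rw [infix_factor_iff] at h1
    obtain ⟨k, m, h2, h3, h4⟩ := h1
    have hm : m = M := by
      have := congrArg List.length h4
      simpa using this.symm
    subst hm
    -- the last earlier occurrence
    let Q : ℕ → Prop := fun k => i ≤ k ∧ Occ W j M k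
    have hQk : Q k := ⟨h2, factor_eq_iff.1 h4⟩
    set K := Nat.findGreatest Q (j - 1) with hK
    have hkj : k ≤ j - 1 := by omega
    have hQK : Q K := Nat.findGreatest_spec hkj hQk
    have hKj : K ≤ j - 1 := Nat.findGreatest_le _
    have hKmax : ∀ k', K < k' → k' ≤ j - 1 → ¬ Q k' := fun m h1 h2 =>
      Nat.findGreatest_is_greatest h1 h2
    have hOK : Occ W K M j := fun t ht => (hQK.2 t ht).symm
    have hPK : Pal W K (K + M) := by
      intro x hx1 hx2
      obtain ⟨t, rfl⟩ := Nat.exists_eq_add_of_le hx1
      rw [hQK.2 t (by omega), hPj (j + t) (by omega) (by omega)]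
      have := hQK.2 (M - 1 - t) (by omega)
      rw [show j + (j + M) - 1 - (j + t) = j + (M - 1 - t) by omega, ← this]
      congr 1
      omega
    have hfin := hW K j M hM1 (by omega) hPK hOK (by
      intro k' hk1 hk2 hO
      refine hKmax k' hk1 (by omega) ⟨by have := hQK.1; omega, ?_⟩
      intro t ht
      rw [hO t ht, hQK.2 t ht])
    have hKi := hQK.1
    refine hmax (i + (n + 1) - K) (by omega) (by omega) ⟨by omega, ?_⟩
    rw [show i + (n + 1) - (i + (n + 1) - K) = K by omega, ← hjM]
    exact hfin
  · ext p
    rw [Set.mem_insert_iff]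
    constructor
    · rintro ⟨h1, h2⟩
      rw [infix_factor_iff] at h1
      obtain ⟨k, m, h3, h4, rfl⟩ := h1
      rcases Nat.lt_or_ge (k + m) (i + (n + 1)) with h5 | h5
      · right
        exact ⟨infix_factor_iff.2 ⟨k, m, h3, by omega, rfl⟩, h2⟩
      · have h6 : k + m = i + (n + 1) := by omega
        rcases Nat.eq_zero_or_pos m with rfl | hm
        · right
          refine ⟨?_, h2⟩
          rw [factor_zero]
          exact List.nil_infix
        · rw [reverse_factor_iff, h6] at h2
          have hmM : m ≤ M := by
            by_contra hcon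
            refine hmax m (by omega) (by omega) ⟨hm, ?_⟩
            rw [show i + (n + 1) - m = k by omega]
            exact h2
          rcases Nat.eq_or_lt_of_le hmM with h7 | h7
          · left
            rw [show k = j by omega, h7]
          · right
            have hkj : factor W k m = factor W j m := by
              rw [factor_eq_iff]
              intro t ht
              rw [hPj (j + t) (by omega) (by omega), h2 (k + t) (by omega) (by omega)]
              congr 1
              omega
            refine ⟨infix_factor_iff.2 ⟨j, m, by omega, by omega, hkj⟩, ?_⟩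
            rw [reverse_factor_iff, h6]
            exact h2
    · rintro (rfl | ⟨h1, h2⟩)
      · exact ⟨infix_factor_iff.2 ⟨j, M, by omega, by omega, rfl⟩, reverse_factor_iff.2 hPj⟩
      · refine ⟨?_, h2⟩
        rw [infix_factor_iff] at h1 ⊢
        obtain ⟨k, m, h3, h4, h5⟩ := h1
        exact ⟨k, m, h3, by omega, h5⟩

lemma finite_pals (i n : ℕ) : (pals W i n).Finite := by
  classical
  apply Set.Finite.subset (s := (Finset.image (fun q : ℕ × ℕ => factor W q.1 q.2)
    (Finset.range (i + n + 1) ×ˢ Finset.range (i + n + 1)) : Set (List α)))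
  · exact Finset.finite_toSet _
  · rintro p ⟨h1, -⟩
    rw [infix_factor_iff] at h1
    obtain ⟨k, m, h3, h4, rfl⟩ := h1
    rw [Finset.mem_coe, Finset.mem_image]
    exact ⟨(k, m), by simp; omega, rfl⟩

theorem ncard_pals (hW : CR W) (i n : ℕ) : (pals W i n).ncard = n + 1 := by
  induction n with
  | zero => rw [pals_zero, Set.ncard_singleton]
  | succ n ih =>
    obtain ⟨q, h1, h2⟩ := pals_succ hW i n
    rw [h2, Set.ncard_insert_of_notMem h1 (finite_pals i n), ih]

end general

theorem rich_of_cr {W : ℕ → ℤ} (hW : CR W) (i n : ℕ) : IsRich (factor W i n) := by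
  have := ncard_pals hW i n
  unfold IsRich
  rw [length_factor]
  exact this

/-- Injective coding preserves the property. -/
theorem cr_comp {u : ℕ → ℕ} (hu : ∀ n, u n ≤ 2) (hCR : CR u) (h : ℕ → ℤ)
    (hinj : ∀ a ≤ 2, ∀ b ≤ 2, h a = h b → a = b) : CR (fun n => h (u n)) := by
  intro i j m hm hij hP hO hn
  have e : ∀ a b, h (u a) = h (u b) → u a = u b := fun a b hab => hinj _ (hu a) _ (hu b) hab
  have := hCR i j m hm hij (fun k h1 h2 => e _ _ (hP k h1 h2)) (fun t ht => e _ _ (hO t ht))
    (fun k h1 h2 hO' => hn k h1 h2 (fun t ht => congrArg h (hO' t ht)))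
  intro k h1 h2
  exact congrArg h (this k h1 h2)

/-- A reformulation of additive `4`-powers in an infinite word. -/
theorem four_blocks {W : ℕ → ℤ} {i n : ℕ} (h : IsAdditivePower 4 (factor W i n)) :
    ∃ m s, 1 ≤ m ∧ (factor W i m).sum = s ∧ (factor W (i + m) m).sum = s ∧
      (factor W (i + 2 * m) m).sum = s ∧ (factor W (i + 3 * m) m).sum = s := by
  obtain ⟨B, m, s, hB, hx, hm, hu⟩ := h
  match B, hB with
  | [b1, b2, b3, b4], _ =>
    obtain ⟨l1, s1⟩ := hu b1 (by simp)
    obtain ⟨l2, s2⟩ := hu b2 (by simp)
    obtain ⟨l3, s3⟩ := hu b3 (by simp)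
    obtain ⟨l4, s4⟩ := hu b4 (by simp)
    have hn : n = m + (m + (m + m)) := by
      have := congrArg List.length hx
      simp only [length_factor, List.flatten_cons, List.flatten_nil, List.length_append,
        List.length_nil, l1, l2, l3, l4] at this
      omega
    rw [hn, factor_add, factor_add, factor_add] at hx
    simp only [List.flatten_cons, List.flatten_nil, List.append_nil] at hx
    have e1 := List.append_inj hx (by simp [l1])
    have e2 := List.append_inj e1.2 (by simp [l2])
    have e3 := List.append_inj e2.2 (by simp [l3])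
    refine ⟨m, s, hm, ?_, ?_, ?_, ?_⟩
    · rw [e1.1]; exact s1
    · rw [e2.1]; exact s2
    · rw [show i + 2 * m = i + m + m by ring, e3.1]; exact s3
    · rw [show i + 3 * m = i + m + m + m by ring, e3.2]; exact s4

lemma sum_factor_succ (W : ℕ → ℤ) (i n : ℕ) :
    (factor W i (n + 1)).sum = (factor W i n).sum + W (i + n) := by
  rw [factor_add, List.sum_append]
  simp [factor]

end Pool.Agent.H42.Rich
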