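import Pool.Agent.H42.Rich.Templ

/-!
# Power-freeness of `w` and `y`
-/

set_option autoImplicit false

namespace Pool.Agent.H42.Rich

/-- Prefix counts of the letter `a` in `w`. -/
def C (a k : ℕ) : ℕ := (win w 0 k).count a

lemma C_add (a k K : ℕ) : C a (k + K) = C a k + (win w k K).count a := by
  unfold C
  rw [win_add, List.count_append, Nat.zero_add]

lemma C_succ (a k : ℕ) : C a (k + 1) = C a k + if w k = a then 1 else 0 := by
  rw [C_add, win_succ, win_zero, List.count_cons, List.count_nil, Nat.zero_add]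
  simp

lemma C0_posg (n : ℕ) : C 0 (posg n) = 3 * n := by
  induction n with
  | zero => rfl
  | succ n ih =>
    rw [desub_w.pos_succ, C_add, desub_w.val, ih]
    have := y_le n
    have : (g (y n)).count 0 = 3 := by interval_cases y n <;> rfl
    omega

lemma C1_posg (n : ℕ) : C 1 (posg n) = 4 * n + 2 * S n := by
  induction n with
  | zero => rfl
  | succ n ih =>
    rw [desub_w.pos_succ, C_add, desub_w.val, ih]
    have := y_le n
    have : (g (y n)).count 1 = 4 + 2 * y n := by interval_cases y n <;> rfl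
    simp only [S]
    omega

lemma C_posg_add {n r : ℕ} (a : ℕ) (hr : r ≤ (g (y n)).length) :
    C a (posg n + r) = C a (posg n) + ((g (y n)).take r).count a := by
  rw [C_add, ← desub_w.val, take_win _ _ _ _ hr]

/-- The three admissible second differences of the counts of `0` and `1`. -/
def Dok (a1 a2 a3 b1 b2 b3 : ℕ) : Prop :=
  (a1 + a3 = 2 * a2 ∧ b1 + b3 = 2 * b2) ∨ (a1 + a3 = 2 * a2 + 3 ∧ b1 + b3 + 2 = 2 * b2) ∨
    (a1 + a3 + 3 = 2 * a2 ∧ b1 + b3 = 2 * b2 + 2)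

instance (a1 a2 a3 b1 b2 b3 : ℕ) : Decidable (Dok a1 a2 a3 b1 b2 b3) := by
  unfold Dok; infer_instance

/-- The possible positions in the blocks: letter of `y`, offset, number of zeros before it, and
the shifted value of the functional. -/
def ptab : List (ℕ × ℕ × ℕ × ℕ) :=
  [0, 1, 2].flatMap fun x => (List.range (g x).length).map fun r =>
    (x, r, ((g x).take r).count 0,
      6 * r + 3 * ((g x).take r).count 1 + 60 - 32 * ((g x).take r).count 0)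

/-- The same table, evaluated. -/
def ptab' : List (ℕ × ℕ × ℕ × ℕ) :=
  [(0, 0, 0, 60), (0, 1, 1, 34), (0, 2, 2, 8), (0, 3, 2, 17), (0, 4, 2, 23), (0, 5, 2, 29),
   (0, 6, 2, 38), (0, 7, 2, 44), (0, 8, 2, 50), (0, 9, 2, 56), (0, 10, 2, 65), (0, 11, 2, 71),
   (0, 12, 2, 77), (0, 13, 2, 86), (1, 0, 0, 60), (1, 1, 1, 34), (1, 2, 1, 43), (1, 3, 1, 49),
   (1, 4, 1, 55), (1, 5, 1, 64), (1, 6, 2, 38), (1, 7, 2, 47), (1, 8, 2, 56), (1, 9, 3, 30),
   (1, 10, 3, 39), (1, 11, 3, 45), (1, 12, 3, 51), (2, 0, 0, 60), (2, 1, 1, 34), (2, 2, 1, 43),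
   (2, 3, 1, 52), (2, 4, 1, 61), (2, 5, 2, 35), (2, 6, 2, 44), (2, 7, 2, 50), (2, 8, 2, 59),
   (2, 9, 3, 33), (2, 10, 3, 42), (2, 11, 3, 51)]

lemma ptab_eq : ptab = ptab' := by decide +kernel

/-- One case of the initial step. -/
def stepC (c : Bool) (X r1 r2 r3 : ℕ) (k : ℕ → ℕ → Bool) : Bool :=
  bif c then
    bif Nat.beq (X % 3) 0 then
      force (X / 3) fun A => Nat.ble (112 + 2 * r2) (14 * A + r1 + r3 + 8) &&
        force (14 * A + r1 + r3 + 8 - (112 + 2 * r2)) fun B => k A B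
    else true
  else true

/-- The initial step. -/
def stepI (p1 p2 p3 : ℕ × ℕ × ℕ × ℕ) (k : ℕ → ℕ → Bool) : Bool :=
  force (p1.2.2.2 + p3.2.2.2) fun s => force (2 * p2.2.2.2) fun t =>
    stepC (Nat.beq s t) (24 + 2 * p2.2.2.1 - (p1.2.2.1 + p3.2.2.1)) p1.2.1 p2.2.1 p3.2.1 k &&
    (stepC (Nat.beq (s + 102) t) (27 + 2 * p2.2.2.1 - (p1.2.2.1 + p3.2.2.1))
      p1.2.1 p2.2.1 p3.2.1 k &&
    stepC (Nat.beq s (t + 102)) (21 + 2 * p2.2.2.1 - (p1.2.2.1 + p3.2.2.1))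
      p1.2.1 p2.2.1 p3.2.1 k)

/-- The check of all initial templates. -/
def chkI : Bool :=
  ptab'.all fun p1 => ptab'.all fun p2 => ptab'.all fun p3 => stepI p1 p2 p3 fun a1 b1 =>
    ptab'.all fun p4 => stepI p2 p3 p4 fun a2 b2 =>
      ptab'.all fun p5 => stepI p3 p4 p5 fun a3 b3 =>
        memT p1.1 p2.1 p3.1 p4.1 p5.1 a1 b1 a2 b2 a3 b3

lemma chkI_true : chkI = true := by decide +kernel


lemma stepC_spec {c : Bool} {X r1 r2 r3 A : ℕ} {k : ℕ → ℕ → Bool}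
    (h : stepC c X r1 r2 r3 k = true) (hc : c = true) (hX : X = 3 * A) :
    ∃ B, 14 * A + r1 + r3 + 8 = 112 + 2 * r2 + B ∧ k A B = true := by
  subst hc hX
  unfold stepC at h
  simp only [cond_true, Nat.mul_mod_right, Nat.beq_eq, force_eq,
    Nat.mul_div_cancel_left _ (show 0 < 3 by norm_num)] at h
  rw [show Nat.beq 0 0 = true from rfl, cond_true, Bool.and_eq_true, Nat.ble_eq] at h
  exact ⟨_, by omega, h.2⟩

/-- Locating a position of `w` in its block. -/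
lemma locate_g (i : ℕ) : ∃ n c, ∃ p ∈ ptab', p.1 = y n ∧ i + S n = 14 * n + p.2.1 ∧
    C 0 i = 3 * n + p.2.2.1 ∧ C 1 i = 4 * n + 2 * S n + c ∧
    p.2.2.2 + 32 * p.2.2.1 = 6 * p.2.1 + 3 * c + 60 ∧ p.2.1 ≤ 13 ∧ p.2.2.1 ≤ 3 ∧
    posg n ≤ i ∧ i < posg (n + 1) := by
  obtain ⟨n, r, rfl, hr⟩ := desub_w.locate i
  have hx := y_le n
  have hl := length_g hx
  have h1 : ∀ x ≤ 2, ∀ r < (g x).length, ((g x).take r).count 0 ≤ 3 ∧
      32 * ((g x).take r).count 0 ≤ 6 * r + 3 * ((g x).take r).count 1 + 60 := by decide +kernel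
  obtain ⟨h2, h3⟩ := h1 _ hx _ hr
  refine ⟨n, ((g (y n)).take r).count 1, (y n, r, ((g (y n)).take r).count 0,
      6 * r + 3 * ((g (y n)).take r).count 1 + 60 - 32 * ((g (y n)).take r).count 0),
      ?_, rfl, ?_, ?_, ?_, ?_, ?_, h2, ?_, ?_⟩
  · rw [← ptab_eq]
    unfold ptab
    rw [List.mem_flatMap]
    refine ⟨y n, ?_, ?_⟩
    · simp only [List.mem_cons, List.not_mem_nil, or_false]
      omega
    · rw [List.mem_map]
      exact ⟨r, List.mem_range.2 hr, rfl⟩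
  · have := posg_eq n
    change posg n + r + S n = 14 * n + r
    omega
  · rw [C_posg_add 0 hr.le, C0_posg]
  · rw [C_posg_add 1 hr.le, C1_posg]
  · change 6 * r + 3 * ((g (y n)).take r).count 1 + 60 - 32 * ((g (y n)).take r).count 0 +
      32 * ((g (y n)).take r).count 0 = 6 * r + 3 * ((g (y n)).take r).count 1 + 60
    omega
  · change r ≤ 13
    omega
  · omega
  · rw [desub_w.pos_succ]
    omega

lemma stepI_spec {n1 n2 n3 i1 i2 i3 a1 a2 a3 b1 b2 b3 c1 c2 c3 : ℕ} {p1 p2 p3 : ℕ × ℕ × ℕ × ℕ}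
    (hi : i1 + i3 = 2 * i2)
    (u1 : i1 + S n1 = 14 * n1 + p1.2.1) (u2 : i2 + S n2 = 14 * n2 + p2.2.1)
    (u3 : i3 + S n3 = 14 * n3 + p3.2.1)
    (v1 : a1 = 3 * n1 + p1.2.2.1) (v2 : a2 = 3 * n2 + p2.2.2.1) (v3 : a3 = 3 * n3 + p3.2.2.1)
    (w1 : b1 = 4 * n1 + 2 * S n1 + c1) (w2 : b2 = 4 * n2 + 2 * S n2 + c2)
    (w3 : b3 = 4 * n3 + 2 * S n3 + c3)
    (z1 : p1.2.2.2 + 32 * p1.2.2.1 = 6 * p1.2.1 + 3 * c1 + 60)
    (z2 : p2.2.2.2 + 32 * p2.2.2.1 = 6 * p2.2.1 + 3 * c2 + 60)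
    (z3 : p3.2.2.2 + 32 * p3.2.2.1 = 6 * p3.2.1 + 3 * c3 + 60)
    (g1 : p1.2.2.1 ≤ 3) (g2 : p2.2.2.1 ≤ 3) (g3 : p3.2.2.1 ≤ 3)
    (hD : Dok a1 a2 a3 b1 b2 b3) {k : ℕ → ℕ → Bool} (h : stepI p1 p2 p3 k = true) :
    ∃ A B, Diff n1 n2 n3 A B ∧ k A B = true := by
  unfold stepI at h
  simp only [force_eq, Bool.and_eq_true] at h
  obtain ⟨h1, h2, h3⟩ := h
  rcases hD with ⟨d1, d2⟩ | ⟨d1, d2⟩ | ⟨d1, d2⟩
  · obtain ⟨B, hB, hk⟩ := stepC_spec (A := n1 + n3 + 8 - 2 * n2) h1 (by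
      rw [Nat.beq_eq]; omega) (by omega)
    exact ⟨_, B, ⟨by omega, by omega⟩, hk⟩
  · obtain ⟨B, hB, hk⟩ := stepC_spec (A := n1 + n3 + 8 - 2 * n2) h2 (by
      rw [Nat.beq_eq]; omega) (by omega)
    exact ⟨_, B, ⟨by omega, by omega⟩, hk⟩
  · obtain ⟨B, hB, hk⟩ := stepC_spec (A := n1 + n3 + 8 - 2 * n2) h3 (by
      rw [Nat.beq_eq]; omega) (by omega)
    exact ⟨_, B, ⟨by omega, by omega⟩, hk⟩

/-- The condition on three consecutive positions inside a block. -/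
def Dokg (x r l : ℕ) : Prop :=
  Dok (((g x).take r).count 0) (((g x).take (r + l)).count 0)
    (((g x).take (r + 2 * l)).count 0) (((g x).take r).count 1)
    (((g x).take (r + l)).count 1) (((g x).take (r + 2 * l)).count 1)

instance (x r l : ℕ) : Decidable (Dokg x r l) := by
  unfold Dokg; infer_instance

/-- The check inside a single block. -/
lemma single : ∀ x < 3, ∀ r < 14, ∀ l < 3, ¬ (r + 4 * (l + 1) < (g x).length ∧
    Dokg x r (l + 1) ∧ Dokg x (r + (l + 1)) (l + 1) ∧ Dokg x (r + 2 * (l + 1)) (l + 1)) := by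
  decide +kernel

lemma Dok_add {a1 a2 a3 b1 b2 b3 : ℕ} (u v : ℕ)
    (h : Dok (u + a1) (u + a2) (u + a3) (v + b1) (v + b2) (v + b3)) :
    Dok a1 a2 a3 b1 b2 b3 := by
  unfold Dok at *
  omega

/-- There are no four consecutive blocks of equal length in `w` whose Parikh vectors differ only
by `0` or `± (3, -2, -1)`. -/
theorem w_free (i l : ℕ) (hl : 1 ≤ l)
    (h1 : Dok (C 0 i) (C 0 (i + l)) (C 0 (i + 2 * l)) (C 1 i) (C 1 (i + l)) (C 1 (i + 2 * l)))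
    (h2 : Dok (C 0 (i + l)) (C 0 (i + 2 * l)) (C 0 (i + 3 * l)) (C 1 (i + l)) (C 1 (i + 2 * l))
      (C 1 (i + 3 * l)))
    (h3 : Dok (C 0 (i + 2 * l)) (C 0 (i + 3 * l)) (C 0 (i + 4 * l)) (C 1 (i + 2 * l))
      (C 1 (i + 3 * l)) (C 1 (i + 4 * l))) : False := by
  obtain ⟨n1, c1, p1, m1, l1, u1, v1, w1, z1, q1, g1, o1, o1'⟩ := locate_g i
  obtain ⟨n2, c2, p2, m2, l2, u2, v2, w2, z2, q2, g2, o2, o2'⟩ := locate_g (i + l)
  obtain ⟨n3, c3, p3, m3, l3, u3, v3, w3, z3, q3, g3, o3, o3'⟩ := locate_g (i + 2 * l)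
  obtain ⟨n4, c4, p4, m4, l4, u4, v4, w4, z4, q4, g4, o4, o4'⟩ := locate_g (i + 3 * l)
  obtain ⟨n5, c5, p5, m5, l5, u5, v5, w5, z5, q5, g5, o5, o5'⟩ := locate_g (i + 4 * l)
  have hI := chkI_true
  unfold chkI at hI
  rw [List.all_eq_true] at hI
  have hI1 := hI p1 m1
  rw [List.all_eq_true] at hI1
  have hI2 := hI1 p2 m2
  rw [List.all_eq_true] at hI2
  obtain ⟨A1, B1, d1, k1⟩ := stepI_spec (by ring) u1 u2 u3 v1 v2 v3 w1 w2 w3 z1 z2 z3 g1 g2 g3 h1
    (hI2 p3 m3)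
  rw [List.all_eq_true] at k1
  obtain ⟨A2, B2, d2, k2⟩ := stepI_spec (by ring) u2 u3 u4 v2 v3 v4 w2 w3 w4 z2 z3 z4 g2 g3 g4 h2
    (k1 p4 m4)
  rw [List.all_eq_true] at k2
  obtain ⟨A3, B3, d3, k3⟩ := stepI_spec (by ring) u3 u4 u5 v3 v4 v5 w3 w4 w5 z3 z4 z5 g3 g4 g5 h3
    (k2 p5 m5)
  rw [l1, l2, l3, l4, l5] at k3
  have mono : ∀ {a b : ℕ}, posg a < posg (b + 1) → a ≤ b := by
    intro a b h
    have := (desub_w.strictMono.lt_iff_lt).1 h
    omega
  have h15 := no_inst n5 n1 n2 n3 n4 A1 B1 A2 B2 A3 B3 (mono (by omega)) (mono (by omega))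
    (mono (by omega)) (mono (by omega)) d1 d2 d3 k3
  subst h15
  -- all positions lie in one block
  obtain ⟨r, rfl⟩ := Nat.exists_eq_add_of_le o1
  have hlen := desub_w.pos_succ n1
  have hlen' := length_g (y_le n1)
  have hyn := y_le n1
  have hs := single (y n1) (by omega) r (by omega) (l - 1) (by omega)
  rw [Nat.sub_add_cancel hl] at hs
  apply hs
  refine ⟨by omega, ?_, ?_, ?_⟩
  · apply Dok_add (C 0 (posg n1)) (C 1 (posg n1))
    rw [← C_posg_add 0 (by omega), ← C_posg_add 0 (by omega), ← C_posg_add 0 (by omega),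
      ← C_posg_add 1 (by omega), ← C_posg_add 1 (by omega), ← C_posg_add 1 (by omega)]
    simpa only [add_assoc] using h1
  · apply Dok_add (C 0 (posg n1)) (C 1 (posg n1))
    rw [← C_posg_add 0 (by omega), ← C_posg_add 0 (by omega), ← C_posg_add 0 (by omega),
      ← C_posg_add 1 (by omega), ← C_posg_add 1 (by omega), ← C_posg_add 1 (by omega)]
    simpa only [add_assoc, show l + l = 2 * l by ring, show l + 2 * l = 3 * l by ring] using h2
  · apply Dok_add (C 0 (posg n1)) (C 1 (posg n1))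
    rw [← C_posg_add 0 (by omega), ← C_posg_add 0 (by omega), ← C_posg_add 0 (by omega),
      ← C_posg_add 1 (by omega), ← C_posg_add 1 (by omega), ← C_posg_add 1 (by omega)]
    simpa only [add_assoc, show 2 * l + l = 3 * l by ring,
      show 2 * l + 2 * l = 4 * l by ring] using h3

/-- There are no four consecutive blocks of equal length and equal sum in `y`. -/
theorem y_free (i l : ℕ) (hl : 1 ≤ l)
    (h1 : S i + S (i + 2 * l) = 2 * S (i + l))
    (h2 : S (i + l) + S (i + 3 * l) = 2 * S (i + 2 * l))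
    (h3 : S (i + 2 * l) + S (i + 4 * l) = 2 * S (i + 3 * l)) : False := by
  have h0 : ∀ x1 < 3, ∀ x2 < 3, ∀ x3 < 3, ∀ x4 < 3, ∀ x5 < 3,
      memT x1 x2 x3 x4 x5 8 8 8 8 8 8 = true := by decide +kernel
  have e1 := y_le i
  have e2 := y_le (i + l)
  have e3 := y_le (i + 2 * l)
  have e4 := y_le (i + 3 * l)
  have e5 := y_le (i + 4 * l)
  have hT := h0 (y i) (by omega) (y (i + l)) (by omega) (y (i + 2 * l)) (by omega)
    (y (i + 3 * l)) (by omega) (y (i + 4 * l)) (by omega)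
  have := no_inst (i + 4 * l) i (i + l) (i + 2 * l) (i + 3 * l) 8 8 8 8 8 8 (by omega) (by omega)
    (by omega) (by omega) ⟨by ring, by omega⟩ ⟨by ring, by omega⟩ ⟨by ring, by omega⟩ hT
  omega

end Pool.Agent.H42.Rich
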