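import Pool.Agent.H42.Rich.CRw
import Pool.Agent.H42.Rich.WFree
import Pool.Agent.H42.Rich.Def

/-!
# Every set of at least three integers carries an infinite rich additive 4-power-free word
-/

set_option autoImplicit false

namespace Pool.Agent.H42.Rich

lemma w_le (k : ℕ) : w k ≤ 2 := by
  obtain ⟨n, r, rfl, hr⟩ := desub_w.locate k
  rw [w_posg_add hr]
  have h : ∀ x < 3, ∀ r < (g x).length, (g x).getD r 0 ≤ 2 := by decide +kernel
  have := y_le n
  exact h (y n) (by omega) r hr

/-! ### The arithmetic progression case -/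

lemma sum_y (a b : ℤ) (i m : ℕ) :
    (factor (fun n => a + b * (y n : ℤ)) i m).sum = a * m + b * ((S (i + m) : ℤ) - S i) := by
  induction m with
  | zero => simp
  | succ m ih =>
    rw [sum_factor_succ, ih, show i + (m + 1) = i + m + 1 by ring, S_succ]
    push_cast
    ring

theorem ap_case (a b : ℤ) (hb : b ≠ 0) :
    (∀ i n, IsRich (factor (fun n => a + b * (y n : ℤ)) i n)) ∧
      ∀ i n, ¬ IsAdditivePower 4 (factor (fun n => a + b * (y n : ℤ)) i n) := by
  constructor
  · apply rich_of_cr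
    refine cr_comp (u := y) y_le cr_y (fun x => a + b * (x : ℤ)) ?_
    intro c _ d _ h
    have : b * (c : ℤ) = b * d := by linarith
    exact_mod_cast mul_left_cancel₀ hb this
  · intro i n h
    obtain ⟨m, s, hm, h1, h2, h3, h4⟩ := four_blocks h
    rw [sum_y] at h1 h2 h3 h4
    have e1 : b * ((S (i + m) : ℤ) - S i) = b * ((S (i + m + m) : ℤ) - S (i + m)) := by linarith
    have e2 : b * ((S (i + m + m) : ℤ) - S (i + m)) =
        b * ((S (i + 2 * m + m) : ℤ) - S (i + 2 * m)) := by linarith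
    have e3 : b * ((S (i + 2 * m + m) : ℤ) - S (i + 2 * m)) =
        b * ((S (i + 3 * m + m) : ℤ) - S (i + 3 * m)) := by linarith
    have f1 := mul_left_cancel₀ hb e1
    have f2 := mul_left_cancel₀ hb e2
    have f3 := mul_left_cancel₀ hb e3
    rw [show i + m + m = i + 2 * m by ring] at f1 f2
    rw [show i + 2 * m + m = i + 3 * m by ring] at f2 f3
    rw [show i + 3 * m + m = i + 4 * m by ring] at f3
    exact y_free i m hm (by omega) (by omega) (by omega)

/-! ### The general case -/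

lemma sum_w (h : ℕ → ℤ) (i m : ℕ) :
    (factor (fun n => h (w n)) i m).sum = h 0 * ((C 0 (i + m) : ℤ) - C 0 i) +
      h 1 * ((C 1 (i + m) : ℤ) - C 1 i) +
      h 2 * (m - ((C 0 (i + m) : ℤ) - C 0 i) - ((C 1 (i + m) : ℤ) - C 1 i)) := by
  induction m with
  | zero => simp
  | succ m ih =>
    rw [sum_factor_succ, ih, show i + (m + 1) = i + m + 1 by ring, C_succ, C_succ]
    have := w_le (i + m)
    rcases (show w (i + m) = 0 ∨ w (i + m) = 1 ∨ w (i + m) = 2 by omega) with h0 | h0 | h0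
    · rw [h0, if_pos rfl, if_neg (by decide)]
      push_cast
      ring
    · rw [h0, if_neg (by decide), if_pos rfl]
      push_cast
      ring
    · rw [h0, if_neg (by decide), if_neg (by decide)]
      push_cast
      ring

lemma small_solutions {D0 D1 K T : ℤ} (hK : 0 < K) (hKT : K < T) (hT : T < 2 * K)
    (h : K * D0 = - (T * D1)) (h1 : -156 ≤ -32 * D0 + 3 * D1) (h2 : -32 * D0 + 3 * D1 ≤ 156) :
    (D0 = 0 ∧ D1 = 0) ∨ (D0 = 3 ∧ D1 = -2) ∨ (D0 = -3 ∧ D1 = 2) ∨ (D0 = 4 ∧ D1 = -3) ∨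
      (D0 = -4 ∧ D1 = 3) := by
  -- positive part
  have key : ∀ D E : ℤ, K * D = T * E → 0 < D → 32 * D + 3 * E ≤ 156 →
      (D = 3 ∧ E = 2) ∨ (D = 4 ∧ E = 3) := by
    intro D E h hD hb
    have hE : 0 < E := by
      by_contra hcon
      have : T * E ≤ 0 := mul_nonpos_of_nonneg_of_nonpos (by omega) (by omega)
      have : 0 < K * D := mul_pos hK hD
      omega
    have h3 : E < D := by
      by_contra hcon
      have : K * D ≤ K * E := mul_le_mul_of_nonneg_left (by omega) hK.le
      have : K * E < T * E := mul_lt_mul_of_pos_right hKT hE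
      omega
    have h4 : D < 2 * E := by
      by_contra hcon
      have : K * (2 * E) ≤ K * D := mul_le_mul_of_nonneg_left (by omega) hK.le
      have : T * E < 2 * K * E := mul_lt_mul_of_pos_right hT hE
      have : 2 * K * E = K * (2 * E) := by ring
      omega
    omega
  rcases lt_trichotomy D0 0 with h0 | h0 | h0
  · rcases key (-D0) D1 (by rw [mul_neg, h]; ring) (by omega) (by omega) with h5 | h5 <;> omega
  · subst h0
    rw [mul_zero] at h
    have : T * D1 = 0 := by omega
    rcases mul_eq_zero.1 this with h5 | h5 <;> omega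
  · rcases key D0 (-D1) (by rw [h]; ring) h0 (by omega) with h5 | h5 <;> omega

lemma no_137 : ∀ p1 ∈ ptab', ∀ p2 ∈ ptab', ∀ p3 ∈ ptab',
    Nat.beq (p1.2.2.2 + p3.2.2.2 + 137) (2 * p2.2.2.2) = false ∧
      Nat.beq (p1.2.2.2 + p3.2.2.2) (2 * p2.2.2.2 + 137) = false := by decide +kernel

lemma ptab_bounds : ∀ p ∈ ptab', 8 ≤ p.2.2.2 ∧ p.2.2.2 ≤ 86 := by decide +kernel

lemma dok_of_eq {i1 i2 i3 : ℕ} (hi : i1 + i3 = 2 * i2) {K T : ℤ} (hK : 0 < K) (hKT : K < T)
    (hT : T < 2 * K)
    (h : K * ((C 0 i1 : ℤ) + C 0 i3 - 2 * C 0 i2) = - (T * ((C 1 i1 : ℤ) + C 1 i3 - 2 * C 1 i2))) :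
    Dok (C 0 i1) (C 0 i2) (C 0 i3) (C 1 i1) (C 1 i2) (C 1 i3) := by
  obtain ⟨n1, c1, p1, m1, l1, u1, v1, w1, z1, q1, g1, o1, o1'⟩ := locate_g i1
  obtain ⟨n2, c2, p2, m2, l2, u2, v2, w2, z2, q2, g2, o2, o2'⟩ := locate_g i2
  obtain ⟨n3, c3, p3, m3, l3, u3, v3, w3, z3, q3, g3, o3, o3'⟩ := locate_g i3
  have b1 := ptab_bounds p1 m1
  have b2 := ptab_bounds p2 m2
  have b3 := ptab_bounds p3 m3
  have hF : -32 * ((C 0 i1 : ℤ) + C 0 i3 - 2 * C 0 i2) + 3 * ((C 1 i1 : ℤ) + C 1 i3 - 2 * C 1 i2)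
      = (p1.2.2.2 : ℤ) + p3.2.2.2 - 2 * p2.2.2.2 := by
    omega
  have hn := no_137 p1 m1 p2 m2 p3 m3
  have hn1 : p1.2.2.2 + p3.2.2.2 + 137 ≠ 2 * p2.2.2.2 := by
    intro h5
    rw [← Nat.beq_eq] at h5
    rw [h5] at hn
    exact absurd hn.1 (by decide)
  have hn2 : p1.2.2.2 + p3.2.2.2 ≠ 2 * p2.2.2.2 + 137 := by
    intro h5
    rw [← Nat.beq_eq] at h5
    rw [h5] at hn
    exact absurd hn.2 (by decide)
  unfold Dok
  rcases small_solutions hK hKT hT h (by omega) (by omega) with h5 | h5 | h5 | h5 | h5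
  · left; omega
  · right; left; omega
  · right; right; omega
  · exfalso; omega
  · exfalso; omega

theorem gen_case (h : ℕ → ℤ) (hinj : ∀ a ≤ 2, ∀ b ≤ 2, h a = h b → a = b) {K T : ℤ} (hK : 0 < K)
    (hKT : K < T) (hT : T < 2 * K)
    (hh : ∀ D0 D1 : ℤ, (h 0 - h 2) * D0 + (h 1 - h 2) * D1 = 0 → K * D0 = - (T * D1)) :
    (∀ i n, IsRich (factor (fun n => h (w n)) i n)) ∧
      ∀ i n, ¬ IsAdditivePower 4 (factor (fun n => h (w n)) i n) := by
  constructor
  · apply rich_of_cr
    exact cr_comp (u := w) w_le cr_w h hinj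
  · intro i n hp
    obtain ⟨m, s, hm, h1, h2, h3, h4⟩ := four_blocks hp
    rw [sum_w] at h1 h2 h3 h4
    rw [show i + m + m = i + 2 * m by ring] at h2
    rw [show i + 2 * m + m = i + 3 * m by ring] at h3
    rw [show i + 3 * m + m = i + 4 * m by ring] at h4
    refine w_free i m hm ?_ ?_ ?_
    · refine dok_of_eq (by ring) hK hKT hT (hh _ _ ?_)
      linear_combination h2 - h1
    · refine dok_of_eq (by ring) hK hKT hT (hh _ _ ?_)
      linear_combination h3 - h2
    · refine dok_of_eq (by ring) hK hKT hT (hh _ _ ?_)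
      linear_combination h4 - h3

/-- Three distinct integers carry the property. -/
theorem three_case {s0 s1 s2 : ℤ} (h01 : s0 < s1) (h12 : s1 < s2) :
    ∃ W : ℕ → ℤ, (∀ n, W n = s0 ∨ W n = s1 ∨ W n = s2) ∧ (∀ i n, IsRich (factor W i n)) ∧
      ∀ i n, ¬ IsAdditivePower 4 (factor W i n) := by
  rcases lt_trichotomy (s1 - s0) (s2 - s1) with hlt | heq | hgt
  · -- the letters `0, 1, 2` become `s1, s0, s2`
    let h : ℕ → ℤ := fun x => if x = 0 then s1 else if x = 1 then s0 else s2
    have e0 : h 0 = s1 := rfl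
    have e1 : h 1 = s0 := rfl
    have e2 : h 2 = s2 := rfl
    refine ⟨fun n => h (w n), fun n => ?_, gen_case h ?_ (K := s2 - s1) (T := s2 - s0)
      (by omega) (by omega) (by omega) ?_⟩
    · have := w_le n
      rcases (show w n = 0 ∨ w n = 1 ∨ w n = 2 by omega) with h0 | h0 | h0
      · right; left; change h (w n) = _; rw [h0, e0]
      · left; change h (w n) = _; rw [h0, e1]
      · right; right; change h (w n) = _; rw [h0, e2]
    · intro a ha b hb hab
      interval_cases a <;> interval_cases b <;> simp only [e0, e1, e2] at hab <;> omega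
    · intro D0 D1 hD
      rw [e0, e1, e2] at hD
      linear_combination -hD
  · -- arithmetic progression
    refine ⟨fun n => s0 + (s1 - s0) * (y n : ℤ), fun n => ?_, ap_case s0 (s1 - s0) (by omega)⟩
    have := y_le n
    change s0 + (s1 - s0) * (y n : ℤ) = s0 ∨ s0 + (s1 - s0) * (y n : ℤ) = s1 ∨
      s0 + (s1 - s0) * (y n : ℤ) = s2
    rcases (show y n = 0 ∨ y n = 1 ∨ y n = 2 by omega) with h0 | h0 | h0
    · left; rw [h0]; push_cast; ring
    · right; left; rw [h0]; push_cast; ring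
    · right; right; rw [h0]; push_cast; linarith
  · -- the letters `0, 1, 2` become `s1, s2, s0`
    let h : ℕ → ℤ := fun x => if x = 0 then s1 else if x = 1 then s2 else s0
    have e0 : h 0 = s1 := rfl
    have e1 : h 1 = s2 := rfl
    have e2 : h 2 = s0 := rfl
    refine ⟨fun n => h (w n), fun n => ?_, gen_case h ?_ (K := s1 - s0) (T := s2 - s0)
      (by omega) (by omega) (by omega) ?_⟩
    · have := w_le n
      rcases (show w n = 0 ∨ w n = 1 ∨ w n = 2 by omega) with h0 | h0 | h0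
      · right; left; change h (w n) = _; rw [h0, e0]
      · right; right; change h (w n) = _; rw [h0, e1]
      · left; change h (w n) = _; rw [h0, e2]
    · intro a ha b hb hab
      interval_cases a <;> interval_cases b <;> simp only [e0, e1, e2] at hab <;> omega
    · intro D0 D1 hD
      rw [e0, e1, e2] at hD
      linear_combination hD

/-- Every set with at least three elements has the property. -/
theorem hasProperty_of_three {S : Set ℤ} (hS : 3 ≤ S.encard) : HasProperty S := by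
  obtain ⟨t, ht, ht3⟩ := Set.exists_subset_encard_eq hS
  obtain ⟨a, b, c, hab, hac, hbc, rfl⟩ := Set.encard_eq_three.1 ht3
  have ha : a ∈ S := ht (by simp)
  have hb : b ∈ S := ht (by simp)
  have hc : c ∈ S := ht (by simp)
  have main : ∀ s0 s1 s2 : ℤ, s0 ∈ S → s1 ∈ S → s2 ∈ S → s0 < s1 → s1 < s2 → HasProperty S := by
    intro s0 s1 s2 h0 h1 h2 h01 h12
    obtain ⟨W, h3, h4, h5⟩ := three_case h01 h12
    refine ⟨W, fun n => ?_, h4, h5⟩
    rcases h3 n with h | h | h <;> rw [h] <;> assumption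
  rcases lt_or_gt_of_ne hab with h1 | h1 <;> rcases lt_or_gt_of_ne hac with h2 | h2 <;>
    rcases lt_or_gt_of_ne hbc with h3 | h3
  · exact main a b c ha hb hc h1 h3
  · exact main a c b ha hc hb h2 h3
  · exfalso; omega
  · exact main c a b hc ha hb h2 h1
  · exact main b a c hb ha hc h1 h2
  · exfalso; omega
  · exact main b c a hb hc ha h3 h2
  · exact main c b a hc hb ha h3 h1

/-- Sets with at most one element do not have the property. -/
theorem not_hasProperty_of_one {S : Set ℤ} (hS : S.encard ≤ 1) : ¬ HasProperty S := by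
  rintro ⟨W, h1, -, h3⟩
  rw [Set.encard_le_one_iff] at hS
  apply h3 0 4
  refine ⟨[[W 0], [W 0], [W 0], [W 0]], 1, W 0, rfl, ?_, le_rfl, ?_⟩
  · have e1 := hS _ _ (h1 1) (h1 0)
    have e2 := hS _ _ (h1 2) (h1 0)
    have e3 := hS _ _ (h1 3) (h1 0)
    simp [factor, List.range_succ, e1, e2, e3]
  · intro u hu
    simp only [List.mem_cons, List.not_mem_nil, or_false, or_self] at hu
    subst hu
    simp

end Pool.Agent.H42.Rich
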