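import Mathlib

/-!
# Palindromes, complete returns, and desubstitution
-/

set_option autoImplicit false

namespace Pool.Agent.H42.Rich

/-- The factor `u[a, b)` is a palindrome. -/
def Pal {α : Type} (u : ℕ → α) (a b : ℕ) : Prop := ∀ k, a ≤ k → k < b → u k = u (a + b - 1 - k)

/-- The factor of length `m` at `j` is the same as the one at `i`. -/
def Occ {α : Type} (u : ℕ → α) (i m j : ℕ) : Prop := ∀ t < m, u (j + t) = u (i + t)

/-- Every complete return to a nonempty palindrome is a palindrome. -/
def CR {α : Type} (u : ℕ → α) : Prop := ∀ i j m, 1 ≤ m → i < j → Pal u i (i + m) → Occ u i m j →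
  (∀ k, i < k → k < j → ¬ Occ u i m k) → Pal u i (j + m)

/-- A morphic image with palindromic blocks (with marker length `e ≤ 1`). -/
structure Mor (v u pos len : ℕ → ℕ) (F : ℕ → ℕ → ℕ) (e : ℕ) : Prop where
  pos_zero : pos 0 = 0
  pos_succ : ∀ n, pos (n + 1) = pos n + len (v n)
  len_pos : ∀ n, 1 ≤ len (v n)
  val : ∀ n r, r < len (v n) + e → u (pos n + r) = F (v n) r
  pal : ∀ n r, r < len (v n) + e → F (v n) (len (v n) + e - 1 - r) = F (v n) r
  code : ∀ n n', (∀ r, r < len (v n) → r < len (v n') → F (v n) r = F (v n') r) → v n = v n'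
  e_le : e ≤ 1
  edge : ∀ n n' s, s < e → u (pos n + s) = u (pos n' + s)

/-- The factor of length `m` at `j` is aligned with the blocks, with overhang `o`. -/
def Fit (pos : ℕ → ℕ) (e j m o : ℕ) : Prop :=
  ∃ a q, pos a = j + o ∧ pos (a + q) + o + e = j + m ∧ (∀ a' < a, pos a' < j) ∧
    j + m < pos (a + q + 1) + e

/-- The letters that fit the overhang. -/
def Cls (u len : ℕ → ℕ) (F : ℕ → ℕ → ℕ) (j o c : ℕ) : Prop :=
  o < len c ∧ ∀ s < o, F c (len c - o + s) = u (j + s)

namespace Mor

variable {v u pos len : ℕ → ℕ} {F : ℕ → ℕ → ℕ} {e : ℕ}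

lemma mono (M : Mor v u pos len F e) : StrictMono pos :=
  strictMono_nat_of_lt_succ fun n => by
    have := M.pos_succ n
    have := M.len_pos n
    omega

lemma reflect (M : Mor v u pos len F e) {a b : ℕ} (h : Pal v a b) (s : ℕ) (hs : a + s ≤ b) :
    pos (a + s) + pos (b - s) = pos a + pos b := by
  induction s with
  | zero => simp
  | succ s ih =>
    have h1 := ih (by omega)
    have h2 := M.pos_succ (a + s)
    have h3 := M.pos_succ (b - (s + 1))
    rw [show b - (s + 1) + 1 = b - s by omega] at h3
    have h4 := h (a + s) (by omega) (by omega)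
    rw [show a + b - 1 - (a + s) = b - (s + 1) by omega] at h4
    rw [show a + (s + 1) = a + s + 1 by ring, h2, h4]
    omega

/-- Images of palindromes are palindromes. -/
theorem palUp (M : Mor v u pos len F e) {a b : ℕ} (h : Pal v a b) (hab : a ≤ b) :
    Pal u (pos a) (pos b + e) := by
  intro k hk1 hk2
  have he := M.e_le
  rcases Nat.eq_or_lt_of_le hab with rfl | hlt
  · congr 1
    omega
  · set n := Nat.findGreatest (fun n => pos n ≤ k) (b - 1) with hn
    have hna : a ≤ n := Nat.le_findGreatest (by omega) hk1
    have hnb : n ≤ b - 1 := Nat.findGreatest_le _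
    have hnk : pos n ≤ k := Nat.findGreatest_spec (P := fun n => pos n ≤ k) (m := a) (by omega) hk1
    have hkn : k < pos (n + 1) + e := by
      rcases Nat.eq_or_lt_of_le hnb with h1 | h1
      · rw [h1, Nat.sub_add_cancel (by omega)]
        exact hk2
      · have := Nat.findGreatest_is_greatest (P := fun n => pos n ≤ k) (n := b - 1) (k := n + 1)
          (by omega) (by omega)
        simp only [not_le] at this
        omega
    obtain ⟨r, hr⟩ := Nat.exists_eq_add_of_le hnk
    obtain ⟨s, hs⟩ := Nat.exists_eq_add_of_le hna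
    have h1 := M.pos_succ n
    have h2 := M.reflect h s (by omega)
    rw [← hs] at h2
    have h3 := M.pos_succ (b - s - 1)
    rw [Nat.sub_add_cancel (by omega)] at h3
    have h4 := h n hna (by omega)
    rw [show a + b - 1 - n = b - s - 1 by omega] at h4
    rw [← h4] at h3
    have h5 := M.val n r (by omega)
    have h6 := M.val (b - s - 1) (len (v n) + e - 1 - r) (by rw [← h4]; omega)
    rw [← h4, M.pal n r (by omega)] at h6
    rw [hr, h5, ← h6]
    congr 1
    omega

lemma occ_pos (M : Mor v u pos len F e) {a q a' : ℕ} (h : Occ v a q a') (s : ℕ) (hs : s ≤ q) :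
    pos (a' + s) + pos a = pos (a + s) + pos a' := by
  induction s with
  | zero => simp [add_comm]
  | succ s ih =>
    have h1 := ih (by omega)
    have h2 := M.pos_succ (a + s)
    have h3 := M.pos_succ (a' + s)
    rw [h s (by omega)] at h3
    rw [show a' + (s + 1) = a' + s + 1 by ring, show a + (s + 1) = a + s + 1 by ring]
    omega

/-- Images of equal factors are equal. -/
theorem occUp (M : Mor v u pos len F e) {a q a' : ℕ} (h : Occ v a q a') :
    Occ u (pos a) (pos (a + q) + e - pos a) (pos a') := by
  intro t ht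
  have he := M.e_le
  rcases Nat.eq_zero_or_pos q with rfl | hq
  · exact M.edge _ _ _ (by rw [Nat.add_zero] at ht; omega)
  · set n := Nat.findGreatest (fun n => pos (a + n) ≤ pos a + t) (q - 1) with hn
    have hnb : n ≤ q - 1 := Nat.findGreatest_le _
    have hnk : pos (a + n) ≤ pos a + t :=
      Nat.findGreatest_spec (P := fun n => pos (a + n) ≤ pos a + t) (m := 0) (by omega) (by simp)
    have hkn : pos a + t < pos (a + n + 1) + e := by
      rcases Nat.eq_or_lt_of_le hnb with h1 | h1
      · rw [h1, show a + (q - 1) + 1 = a + q by omega]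
        omega
      · have := Nat.findGreatest_is_greatest (P := fun n => pos (a + n) ≤ pos a + t)
          (n := q - 1) (k := n + 1) (by omega) (by omega)
        simp only [not_le] at this
        rw [show a + (n + 1) = a + n + 1 by ring] at this
        omega
    obtain ⟨r, hr⟩ := Nat.exists_eq_add_of_le hnk
    have h1 := M.pos_succ (a + n)
    have h2 := M.occ_pos h n (by omega)
    have h4 := h n (by omega)
    have h5 := M.val (a + n) r (by omega)
    have h6 := M.val (a' + n) r (by rw [h4]; omega)
    rw [h4, ← h5, ← hr] at h6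
    rw [← h6]
    congr 1
    omega

/-- Decoding of equal factors. -/
lemma occDown (M : Mor v u pos len F e) {j j' m o a a' q : ℕ} (hO : Occ u j m j')
    (ha : pos a = j + o) (ha' : pos a' = j' + o) (hb : pos (a + q) + o + e = j + m) (s : ℕ)
    (hs : s ≤ q) :
    pos (a' + s) + j = pos (a + s) + j' ∧ ∀ t < s, v (a' + t) = v (a + t) := by
  induction s with
  | zero => exact ⟨by simp only [Nat.add_zero]; omega, fun t ht => absurd ht (by omega)⟩
  | succ s ih =>
    obtain ⟨h1, h2⟩ := ih (by omega)
    have h3 := M.pos_succ (a + s)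
    have h4 := M.pos_succ (a' + s)
    have h5 : pos (a + s + 1) ≤ pos (a + q) := M.mono.monotone (by omega)
    have h6 : pos a ≤ pos (a + s) := M.mono.monotone (by omega)
    have hv : v (a' + s) = v (a + s) := by
      apply M.code
      intro r hr hr'
      rw [← M.val _ r (by omega), ← M.val _ r (by omega)]
      have := hO (pos (a + s) + r - j) (by omega)
      rw [show j' + (pos (a + s) + r - j) = pos (a' + s) + r by omega,
        show j + (pos (a + s) + r - j) = pos (a + s) + r by omega] at this
      exact this
    refine ⟨?_, ?_⟩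
    · rw [show a' + (s + 1) = a' + s + 1 by ring, show a + (s + 1) = a + s + 1 by ring, h3, h4, hv]
      omega
    · intro t ht
      rcases Nat.lt_succ_iff_lt_or_eq.1 ht with h | rfl
      · exact h2 t h
      · exact hv

/-- Decoding of palindromes. -/
lemma palDown (M : Mor v u pos len F e) {j m o a q : ℕ} (hP : Pal u j (j + m))
    (ha : pos a = j + o) (hb : pos (a + q) + o + e = j + m) (s : ℕ) (hs : s ≤ q) :
    pos (a + s) + pos (a + q - s) = pos a + pos (a + q) ∧
      ∀ t < s, v (a + t) = v (a + q - 1 - t) := by
  induction s with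
  | zero => exact ⟨by simp, fun t ht => absurd ht (by omega)⟩
  | succ s ih =>
    obtain ⟨h1, h2⟩ := ih (by omega)
    have h3 := M.pos_succ (a + s)
    have h4 := M.pos_succ (a + q - 1 - s)
    rw [show a + q - 1 - s + 1 = a + q - s by omega] at h4
    have h5 : pos (a + s + 1) ≤ pos (a + q) := M.mono.monotone (by omega)
    have h6 : pos a ≤ pos (a + s) := M.mono.monotone (by omega)
    have h7 : pos a ≤ pos (a + q - 1 - s) := M.mono.monotone (by omega)
    have h8 : pos (a + q - s) ≤ pos (a + q) := M.mono.monotone (by omega)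
    have hv : v (a + s) = v (a + q - 1 - s) := by
      apply M.code
      intro r hr hr'
      have p1 := M.val (a + s) r (by omega)
      have p2 := M.val (a + q - 1 - s) (len (v (a + q - 1 - s)) + e - 1 - r) (by omega)
      rw [M.pal _ r (by omega)] at p2
      rw [← p1, ← p2]
      have := hP (pos (a + s) + r) (by omega) (by omega)
      rw [this]
      congr 1
      omega
    refine ⟨?_, ?_⟩
    · rw [show a + (s + 1) = a + s + 1 by ring, show a + q - (s + 1) = a + q - 1 - s by omega]
      rw [hv] at h3
      omega
    · intro t ht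
      rcases Nat.lt_succ_iff_lt_or_eq.1 ht with h | rfl
      · exact h2 t h
      · exact hv

lemma clsLeft (M : Mor v u pos len F e) {j j' m o a' : ℕ} (hO : Occ u j m j') (hom : o ≤ m)
    (ha' : pos a' = j' + o) (hn : ∀ c < a', pos c < j') (ho : 1 ≤ o) :
    1 ≤ a' ∧ Cls u len F j o (v (a' - 1)) := by
  have h1 : 1 ≤ a' := by
    rcases Nat.eq_zero_or_pos a' with rfl | h
    · rw [M.pos_zero] at ha'
      omega
    · exact h
  have h2 := hn (a' - 1) (by omega)
  have h3 := M.pos_succ (a' - 1)
  rw [Nat.sub_add_cancel h1] at h3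
  refine ⟨h1, by omega, ?_⟩
  intro s hs
  rw [← M.val (a' - 1) _ (by omega), ← hO s (by omega)]
  congr 1
  omega

lemma clsRight (M : Mor v u pos len F e) {j j' m o b : ℕ} (hP : Pal u j (j + m))
    (hO : Occ u j m j') (hom : o ≤ m) (hb : pos b + o + e = j' + m)
    (hn : j' + m < pos (b + 1) + e) : Cls u len F j o (v b) := by
  have h3 := M.pos_succ b
  refine ⟨by omega, ?_⟩
  intro s hs
  have h1 := M.pal b (e + o - 1 - s) (by omega)
  rw [show len (v b) + e - 1 - (e + o - 1 - s) = len (v b) - o + s by omega] at h1
  rw [h1, ← M.val b _ (by omega), hP (j + s) (by omega) (by omega)]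
  have h2 := hO (m - 1 - s) (by omega)
  rw [show j + (j + m) - 1 - (j + s) = j + (m - 1 - s) by omega, ← h2]
  congr 1
  omega

/-- Coding of contexts: parent occurrences give occurrences. -/
lemma occUpCtx (M : Mor v u pos len F e) {j m o a q c : ℕ} (hP : Pal u j (j + m))
    (ha : pos a = j + o) (hb : pos (a + q) + o + e = j + m) (hO : Occ v a q c)
    (hc : 1 ≤ o → 1 ≤ c ∧ Cls u len F j o (v (c - 1)) ∧ Cls u len F j o (v (c + q))) :
    o ≤ pos c ∧ Occ u j m (pos c - o) ∧ Fit pos e (pos c - o) m o := by
  have he := M.e_le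
  have hup := M.occUp hO
  have hq := M.occ_pos hO q le_rfl
  have haq : pos a ≤ pos (a + q) := M.mono.monotone (by omega)
  rcases Nat.eq_zero_or_pos o with rfl | ho
  · refine ⟨by omega, ?_, c, q, by omega, by omega, ?_, ?_⟩
    · intro t ht
      have := hup t (by omega)
      rw [Nat.sub_zero, this, ha, Nat.add_zero]
    · intro a' ha'
      rw [Nat.sub_zero]
      exact M.mono ha'
    · have := M.pos_succ (c + q)
      have := M.len_pos (c + q)
      omega
  · obtain ⟨hc1, hc2, hc3⟩ := hc ho
    have h1 := M.pos_succ (c - 1)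
    rw [Nat.sub_add_cancel hc1] at h1
    have h2 := hc2.1
    have h3 := M.pos_succ (c + q)
    have h4 := hc3.1
    refine ⟨by omega, ?_, c, q, by omega, by omega, ?_, by omega⟩
    · intro t ht
      rcases lt_or_ge t o with h | h
      · rw [← hc2.2 t h, ← M.val (c - 1) _ (by omega)]
        congr 1
        omega
      · rcases lt_or_ge t (m - o) with h' | h'
        · have := hup (t - o) (by omega)
          rw [show pos c - o + t = pos c + (t - o) by omega, this]
          congr 1
          omega
        · obtain ⟨s, hs⟩ := Nat.exists_eq_add_of_le h'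
          have p1 := M.val (c + q) (e + s) (by omega)
          have p2 := M.pal (c + q) (e + s) (by omega)
          rw [← p2] at p1
          have p3 := hc3.2 (o - 1 - s) (by omega)
          rw [show len (v (c + q)) - o + (o - 1 - s) = len (v (c + q)) + e - 1 - (e + s) by omega]
            at p3
          rw [p3, hP (j + (o - 1 - s)) (by omega) (by omega)] at p1
          rw [show pos c - o + t = pos (c + q) + (e + s) by omega, p1]
          congr 1
          omega
    · intro a' ha'
      have : pos a' ≤ pos (c - 1) := M.mono.monotone (by omega)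
      omega

/-- Complete returns are reduced to complete returns in the parent word. -/
theorem lift (M : Mor v u pos len F e) {j j' m o : ℕ} (hP : Pal u j (j + m))
    (hO : Occ u j m j') (hjj : j < j') (hF : Fit pos e j m o) (hF' : Fit pos e j' m o)
    (hn : ∀ k, j < k → k < j' → Occ u j m k → Fit pos e k m o → False) :
    ∃ a a' q, a < a' ∧ pos a = j + o ∧ pos a' = j' + o ∧ pos (a + q) + o + e = j + m ∧
      Pal v a (a + q) ∧ Occ v a q a' ∧
      (1 ≤ o → 1 ≤ a ∧ Cls u len F j o (v (a - 1)) ∧ Cls u len F j o (v (a' - 1))) ∧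
      Cls u len F j o (v (a + q)) ∧ Cls u len F j o (v (a' + q)) ∧
      (∀ c, a < c → c < a' → Occ v a q c →
        (1 ≤ o → Cls u len F j o (v (c - 1)) ∧ Cls u len F j o (v (c + q))) → False) ∧
      (Pal v a (a' + q) → Pal u j (j' + m)) := by
  obtain ⟨a, q, ha, hb, hl, hr⟩ := hF
  obtain ⟨a', q', ha', hb', hl', hr'⟩ := hF'
  have hd := M.occDown hO ha ha' hb
  have hq : q' = q := by
    have h1 := (hd q le_rfl).1
    have h2 : pos (a' + q') = pos (a' + q) := by omega
    have := M.mono.injective h2
    omega
  subst hq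
  have haq : pos a ≤ pos (a + q') := M.mono.monotone (by omega)
  have hpd := M.palDown hP ha hb
  have hjj' : Occ u j m j := fun _ _ => rfl
  have haa : a < a' := M.mono.lt_iff_lt.1 (by omega)
  refine ⟨a, a', q', haa, ha, ha', hb, ?_, ?_, ?_, ?_, ?_, ?_, ?_⟩
  · intro k hk1 hk2
    have := (hpd q' le_rfl).2 (k - a) (by omega)
    rw [show a + (k - a) = k by omega] at this
    rw [this]
    congr 1
    omega
  · intro t ht
    exact (hd q' le_rfl).2 t ht
  · intro ho
    obtain ⟨h1, h2⟩ := M.clsLeft hjj' (by omega) ha hl ho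
    exact ⟨h1, h2, (M.clsLeft hO (by omega) ha' hl' ho).2⟩
  · exact M.clsRight hP hjj' (by omega) hb hr
  · exact M.clsRight hP hO (by omega) hb' hr'
  · intro c hc1 hc2 hOc hctx
    have hlt1 := M.mono hc1
    have hlt2 := M.mono hc2
    obtain ⟨h1, h2, h3⟩ := M.occUpCtx hP ha hb hOc (fun ho => ⟨by omega, hctx ho⟩)
    exact hn (pos c - o) (by omega) (by omega) h2 h3
  · intro hPv
    have hup := M.palUp hPv (by omega)
    intro k hk1 hk2
    rcases lt_or_ge k (j + o) with h | h
    · -- left overhang
      obtain ⟨s, rfl⟩ := Nat.exists_eq_add_of_le hk1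
      rw [hP (j + s) (by omega) (by omega)]
      have := hO (m - 1 - s) (by omega)
      rw [show j + (j + m) - 1 - (j + s) = j + (m - 1 - s) by omega, ← this]
      congr 1
      omega
    · rcases lt_or_ge k (j' + m - o) with h' | h'
      · have := hup k (by omega) (by omega)
        rw [this]
        congr 1
        omega
      · obtain ⟨s, hs⟩ := Nat.exists_eq_add_of_le h'
        have p1 := hO (m - o + s) (by omega)
        rw [show j' + (m - o + s) = k by omega] at p1
        rw [p1, hP (j + (m - o + s)) (by omega) (by omega)]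
        congr 1
        omega

end Mor

end Pool.Agent.H42.Rich
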