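import Pool.Agent.H42.Rich.Outer

/-!
# Templates: five positions of `y` with prescribed second differences
-/

set_option autoImplicit false

namespace Pool.Agent.H42.Rich

/-- Binary search trees with a key and a bit mask in each node. -/
inductive VTree
  | L : VTree
  | N (l : VTree) (k m : ℕ) (r : VTree) : VTree

namespace VTree

/-- The mask stored under the key `x` (or `0`). -/
def look : VTree → ℕ → ℕ
  | L, _ => 0
  | N l k m r, x => bif Nat.blt x k then l.look x else bif Nat.blt k x then r.look x else m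

/-- All nodes satisfy `p`. -/
def allp (p : ℕ → ℕ → Bool) : VTree → Bool
  | L => true
  | N l k m r => p k m && (l.allp p && r.allp p)

lemma look_allp {p : ℕ → ℕ → Bool} {t : VTree} (h : t.allp p = true) {x : ℕ}
    (hx : t.look x ≠ 0) : p x (t.look x) = true := by
  induction t with
  | L => simp [look] at hx
  | N l k m r ihl ihr =>
    simp only [allp, Bool.and_eq_true] at h
    unfold look at hx ⊢
    rcases h1 : Nat.blt x k with _ | _
    · rcases h2 : Nat.blt k x with _ | _
      · simp only [cond_false]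
        have h3 : x = k := by
          have h1' : ¬ x < k := fun hh => by
            rw [← Nat.blt_eq] at hh
            rw [hh] at h1
            exact absurd h1 (by decide)
          have h2' : ¬ k < x := fun hh => by
            rw [← Nat.blt_eq] at hh
            rw [hh] at h2
            exact absurd h2 (by decide)
          omega
        rw [h3]
        exact h.1
      · simp only [h1, h2, cond_false, cond_true] at hx ⊢
        exact ihr h.2.2 hx
    · simp only [h1, cond_true] at hx ⊢
      exact ihl h.2.1 hx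

end VTree

open VTree

/-- Part of the table. -/
def t0 : VTree :=
  (N (N (N (N (N (N L 4803 117440512 L) 4804 117440512 L) 4805 117440512 (N L 5478 14680064 L))
  5479 14680064 (N (N L 5480 14680064 L) 6153 1835008 (N L 6154 1835008 L))) 6155 1835008 (N (N
  (N L 11301 67108864 L) 11328 33554432 (N L 11355 16777216 L)) 11976 8388608 (N (N L 12003
  4194304 L) 12030 102760448 (N L 12651 1048576 L)))) 12678 524288 (N (N (N (N (N L 12705
  133955584 L) 19230 76546048 L) 19257 114819072 (N L 23055 229376 L)) 23056 229376 (N (N L 23057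
  229376 L) 23730 28672 (N L 23731 28672 L))) 23732 28672 (N (N (N L 24405 3584 L) 24406 3584 (N
  L 24407 3584 L)) 24432 67108864 (N (N L 24433 67108864 L) 24434 67108864 (N L 24459 100663296
  L)))))

/-- Part of the table. -/
def t1 : VTree :=
  (N (N (N (N (N (N L 24461 100663296 L) 24483 117440512 L) 24484 117440512 (N L 24485 117440512
  L)) 25107 8388608 (N (N L 25108 8388608 L) 25109 8388608 (N L 25134 12582912 L))) 25135
  12582912 (N (N (N L 25136 12582912 L) 25158 14680064 (N L 25159 14680064 L)) 25160 14680064 (N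
  (N L 25369 12582912 L) 25782 1048576 (N L 25783 1048576 L)))) 25784 1048576 (N (N (N (N L 25809
  1572864 L) 25810 1572864 (N L 25811 1572864 L)) 25833 1835008 (N (N L 25834 1835008 L) 25835
  1835008 (N L 29553 131072 L))) 29580 65536 (N (N (N L 29607 32768 L) 30228 16384 (N L 30255
  8192 L)) 30282 200704 (N (N L 30903 2048 L) 30930 1024 (N L 30957 67370496 L)))))

/-- Part of the table. -/
def t2 : VTree :=
  (N (N (N (N (N (N L 30959 67108864 L) 30981 67108864 L) 30984 100663296 (N L 30985 100663296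
  L)) 30986 100663296 (N (N L 31008 33554432 L) 31012 100663296 (N L 31013 100663296 L))) 31035
  16777216 (N (N (N L 31632 1048576 L) 31633 75497472 (N L 31634 75497472 L)) 31656 8388608 (N (N
  L 31659 1572864 L) 31660 113246208 (N L 31661 113246208 L)))) 31683 4194304 (N (N (N (N L 31687
  113246208 L) 31688 113246208 (N L 31710 102760448 L)) 32331 1048576 (N (N L 32358 524288 L)
  32385 133955584 (N L 37482 149504 L))) 37509 224256 (N (N (N L 38910 76546048 L) 38913 76546048
  (N L 38937 114819072 L)) 38940 114819072 (N (N L 41307 117669888 L) 41308 117669888 (N L 41309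
  117669888 L)))))

/-- Part of the table. -/
def t3 : VTree :=
  (N (N (N (N (N (N L 41983 14708736 L) 41984 14708736 L) 42657 1838592 (N L 42658 1838592 L))
  42659 1838592 (N (N L 42684 131072 L) 42685 155648 (N L 42686 131072 L))) 42711 196608 (N (N (N
  L 42712 196608 L) 42713 196608 (N L 42735 229376 L)) 42736 229376 (N (N L 42737 229376 L) 43359
  16384 (N L 43360 16384 L)))) 43361 16384 (N (N (N (N L 43386 24576 L) 43387 24576 (N L 43388
  24576 L)) 43410 28672 (N (N L 43411 28672 L) 43412 28672 (N L 43621 24576 L))) 44034 2048 (N (N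
  (N L 44035 2048 L) 44036 2048 (N L 44061 3072 L)) 44062 3072 (N (N L 44063 3072 L) 44085 3584
  (N L 44086 3584 L)))))

/-- Part of the table. -/
def t4 : VTree :=
  (N (N (N (N (N (N L 44112 67108864 L) 44113 67108864 L) 44114 67108864 (N L 44115 67108864 L))
  44116 67108864 (N (N L 44117 67108864 L) 44139 100663296 (N L 44140 100663296 L))) 44141
  100663296 (N (N (N L 44142 100663296 L) 44143 100663296 (N L 44144 100663296 L)) 44163
  117440512 (N (N L 44164 117440512 L) 44165 117440512 (N L 44286 1048576 L)))) 44787 8388608 (N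
  (N (N (N L 44788 8388608 L) 44789 8388608 (N L 44790 8388608 L)) 44791 8388608 (N (N L 44792
  8388608 L) 44814 12582912 (N L 44815 12582912 L))) 44816 12582912 (N (N (N L 44817 12582912 L)
  44818 12582912 (N L 44819 12582912 L)) 44838 14680064 (N (N L 44839 14680064 L) 44840 14680064
  (N L 45462 1048576 L)))))

/-- Part of the table. -/
def t5 : VTree :=
  (N (N (N (N (N (N L 45464 1048576 L) 45465 1048576 L) 45466 1048576 (N L 45467 1048576 L))
  45489 1572864 (N (N L 45490 1572864 L) 45491 1572864 (N L 45492 1572864 L))) 45493 1572864 (N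
  (N (N L 45494 1572864 L) 45513 1835008 (N L 45514 1835008 L)) 45515 1835008 (N (N L 47805 256
  L) 47832 128 (N L 47859 64 L)))) 48480 32 (N (N (N (N L 48507 67239952 L) 48534 100859912 (N L
  49155 4 L)) 49182 75644930 (N (N L 49209 134217217 L) 49210 67239936 (N L 49211 67239936 L)))
  49233 131072 (N (N (N L 49236 100859904 L) 49237 100859904 (N L 49238 100859904 L)) 49260 65536
  (N (N L 49264 196608 L) 49265 196608 (N L 49287 32768 L)))))

/-- Part of the table. -/
def t6 : VTree :=
  (N (N (N (N (N (N L 49885 75644928 L) 49886 75644928 L) 49908 16384 (N L 49911 1575936 L))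
  49912 113467392 (N (N L 49913 113467392 L) 49935 8192 (N L 49938 67108864 L))) 49939 67330048
  (N (N (N L 49940 67330048 L) 49962 200704 (N L 49965 16777216 L)) 49966 100663296 (N (N L 49967
  100663296 L) 49993 16777216 (N L 50583 2048 L)))) 50610 1024 (N (N (N (N L 50613 1048576 L)
  50614 75497472 (N L 50615 75497472 L)) 50637 67370496 (N (N L 50638 67108864 L) 50639 67108864
  (N L 50640 67371008 L))) 50641 113246208 (N (N (N L 50642 113246208 L) 50661 67108864 (N L
  50662 67108864 L)) 50663 67108864 (N (N L 50664 100663296 L) 50665 100663296 (N L 50666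
  100663296 L)))))

/-- Part of the table. -/
def t7 : VTree :=
  (N (N (N (N (N (N L 50668 102760448 L) 50669 100663296 L) 50688 33554432 (N L 50689 33554432
  L)) 50690 33554432 (N (N L 50691 100663296 L) 50692 100663296 (N L 50693 100663296 L))) 50694
  100663296 (N (N (N L 50695 100663296 L) 50696 100663296 (N L 50715 16777216 L)) 50716 16777216
  (N (N L 50717 16777216 L) 50718 16777216 (N L 50719 16777216 L)))) 50720 16777216 (N (N (N (N L
  50721 16777216 L) 50722 16777216 (N L 50723 16777216 L)) 51289 1048576 (N (N L 51312 1048576 L)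
  51313 75497472 (N L 51314 75497472 L))) 51315 1048576 (N (N (N L 51316 76021760 L) 51317
  75497472 (N L 51336 8388608 L)) 51337 8388608 (N (N L 51338 8388608 L) 51339 77070336 (N L
  51340 113246208 L)))))

/-- Part of the table. -/
def t8 : VTree :=
  (N (N (N (N (N (N L 51342 77070336 L) 51343 133955584 L) 51344 114819072 (N L 51363 4194304 L))
  51364 4194304 (N (N L 51365 4194304 L) 51366 113246208 (N L 51367 113246208 L))) 51368
  113246208 (N (N (N L 51369 113246208 L) 51370 113246208 (N L 51371 113246208 L)) 51390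
  102760448 (N (N L 51391 2097152 L) 51392 2097152 (N L 51393 2097152 L)))) 51394 2097152 (N (N
  (N (N L 51395 2097152 L) 51396 2097152 (N L 51397 2097152 L)) 51398 2097152 (N (N L 52011
  1048576 L) 52012 1048576 (N L 52013 1048576 L))) 52014 1048576 (N (N (N L 52015 1048576 L)
  52016 1048576 (N L 52017 1048576 L)) 52018 1048576 (N (N L 52019 1048576 L) 52038 524288 (N L
  52039 524288 L)))))

/-- Part of the table. -/
def t9 : VTree :=
  (N (N (N (N (N (N L 52041 524288 L) 52042 524288 L) 52043 524288 (N L 52044 524288 L)) 52045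
  524288 (N (N L 52046 524288 L) 52065 133955584 (N L 52066 262144 L))) 52067 262144 (N (N (N L
  52068 262144 L) 52069 262144 (N L 52070 262144 L)) 52071 262144 (N (N L 52072 262144 L) 52073
  262144 (N L 55734 76695552 L)))) 55761 115043328 (N (N (N (N L 56940 1048576 L) 57162 149504 (N
  L 57165 149504 L)) 57189 224256 (N (N L 57192 224256 L) 57868 76546048 (N L 57895 114819072
  L))) 58563 76546048 (N (N (N L 58566 76546048 L) 58569 76546048 (N L 58590 38273024 L)) 58593
  38273024 (N (N L 58596 38273024 L) 58617 19136512 (N L 58620 19136512 L)))))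

/-- Part of the table. -/
def t10 : VTree :=
  (N (N (N (N (N (N L 60936 67239936 L) 60937 67239936 L) 60938 67239936 (N L 60963 100859904 L))
  60964 100859904 (N (N L 60965 100859904 L) 60987 117669888 (N L 60988 117669888 L))) 60989
  117669888 (N (N (N L 61611 8404992 L) 61612 8404992 (N L 61613 8404992 L)) 61638 12607488 (N (N
  L 61639 12607488 L) 61640 12607488 (N L 61662 14708736 L)))) 61663 14708736 (N (N (N (N L 61664
  14708736 L) 61690 65536 (N L 61691 65536 L)) 62286 1050624 (N (N L 62287 1050624 L) 62288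
  1050624 (N L 62313 1575936 L))) 62314 1575936 (N (N (N L 62315 1575936 L) 62337 1838592 (N L
  62338 1838592 L)) 62339 1838592 (N (N L 62364 131072 L) 62365 155648 (N L 62366 139264 L)))))

/-- Part of the table. -/
def t11 : VTree :=
  (N (N (N (N (N (N L 62368 131072 L) 62369 131072 L) 62391 196608 (N L 62392 196608 L)) 62393
  196608 (N (N L 62394 196608 L) 62395 196608 (N L 62396 196608 L))) 62415 229376 (N (N (N L
  62416 229376 L) 62417 229376 (N L 63039 16384 L)) 63040 16384 (N (N L 63041 16384 L) 63042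
  16384 (N L 63043 16384 L)))) 63044 16384 (N (N (N (N L 63066 24576 L) 63067 24576 (N L 63068
  24576 L)) 63069 24576 (N (N L 63070 24576 L) 63071 24576 (N L 63090 28672 L))) 63091 28672 (N
  (N (N L 63092 28672 L) 63324 65536 (N L 63325 65536 L)) 63326 65536 (N (N L 63714 2048 L) 63715
  2048 (N L 63716 2048 L)))))

/-- Part of the table. -/
def t12 : VTree :=
  (N (N (N (N (N (N L 63718 2048 L) 63719 2048 L) 63741 3072 (N L 63742 3072 L)) 63743 3072 (N (N
  L 63744 3072 L) 63745 3072 (N L 63746 3072 L))) 63765 3584 (N (N (N L 63766 3584 L) 63767 3584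
  (N L 63999 1024 L)) 64000 1024 (N (N L 64001 1024 L) 67485 256 (N L 67489 67239936 L)))) 67490
  67239936 (N (N (N (N L 67512 128 L) 67516 100859904 (N L 67517 100859904 L)) 67539 64 (N (N L
  67957 8404992 L) 68160 32 (N L 68164 75644928 L))) 68165 75644928 (N (N (N L 68187 67239952 L)
  68190 256 (N L 68191 113467392 L)) 68192 113467392 (N (N L 68214 100859912 L) 68217 64 (N L
  68218 100859904 L)))))

/-- Part of the table. -/
def t13 : VTree :=
  (N (N (N (N (N (N L 68245 32768 L) 68835 4 L) 68839 1050624 (N L 68840 1050624 L)) 68862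
  75644930 (N (N L 68865 4 L) 68866 76170240 (N L 68867 76170240 L))) 68880 37376 (N (N (N L
  68889 134217217 L) 68890 67239936 (N L 68891 67239936 L)) 68892 67239937 (N (N L 68893
  113467392 L) 68894 113467392 (N L 68913 131072 L)))) 68914 131072 (N (N (N (N L 68915 131072 L)
  68916 100859904 (N L 68917 100859904 L)) 68918 100859904 (N (N L 68919 100859904 L) 68920
  100864000 (N L 68921 100859904 L))) 68940 65536 (N (N (N L 68941 65536 L) 68942 65536 (N L
  68943 196608 L)) 68944 196608 (N (N L 68945 196608 L) 68946 196608 (N L 68947 117637120 L)))))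

/-- Part of the table. -/
def t14 : VTree :=
  (N (N (N (N (N (N L 68967 32768 L) 68968 32768 L) 68969 32768 (N L 68970 32768 L)) 68971 32768
  (N (N L 68972 32768 L) 68973 32768 (N L 68974 32768 L))) 68975 32768 (N (N (N L 69541 2048 L)
  69564 1050624 (N L 69565 75644928 L)) 69566 75644928 (N (N L 69567 1050624 L) 69568 75645952 (N
  L 69569 75644928 L)))) 69588 16384 (N (N (N (N L 69589 16384 L) 69590 16384 (N L 69591 1723392
  L)) 69592 113467392 (N (N L 69593 113467392 L) 69594 1723392 (N L 69595 113507840 L))) 69596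
  113470464 (N (N (N L 69615 67121664 L) 69616 8192 (N L 69617 8192 L)) 69618 221184 (N (N L
  69619 67330048 L) 69620 67330048 (N L 69621 221184 L)))))

/-- Part of the table. -/
def t15 : VTree :=
  (N (N (N (N (N (N L 69623 132341760 L) 69642 16977920 L) 69643 4096 (N L 69644 4096 L)) 69645
  4096 (N (N L 69646 100667392 L) 69647 100667392 (N L 69648 4096 L))) 69649 100667392 (N (N (N L
  69650 100667392 L) 69673 16777216 (N L 70263 2048 L)) 70264 2048 (N (N L 70265 2048 L) 70266
  2048 (N L 70267 2048 L)))) 70268 2048 (N (N (N (N L 70269 2048 L) 70270 2048 (N L 70271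
  76548096 L)) 70290 1049600 (N (N L 70291 1024 L) 70292 1024 (N L 70293 1024 L))) 70294 75498496
  (N (N (N L 70295 75498496 L) 70296 1024 (N L 70297 75498496 L)) 70298 114820096 (N (N L 70317
  523776 L) 70318 512 (N L 70319 512 L)))))

/-- Part of the table. -/
def t16 : VTree :=
  (N (N (N (N (N (N L 70321 113246720 L) 70322 113246720 L) 70323 512 (N L 70324 113246720 L))
  70325 113246720 (N (N L 70348 102760448 L) 70349 100663296 (N L 70351 100663296 L))) 70352
  100663296 (N (N (N L 70554 37376 L) 70969 1048576 (N L 70996 76021760 L)) 70997 75497472 (N (N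
  L 70999 75497472 L) 71000 75497472 (N L 71023 133955584 L)))) 71024 114819072 (N (N (N (N (N L
  71026 114819072 L) 71027 114819072 L) 71230 8388608 (N L 71233 8388608 L)) 75414 76695552 (N (N
  L 75417 76695552 L) 75441 115043328 (N L 75444 115043328 L))) 75915 1 (N (N (N L 76120 149504
  L) 76147 224256 (N L 76167 512 L)) 76815 149504 (N (N L 76818 149504 L) 76821 149504 (N L 76842
  74752 L)))))

/-- Part of the table. -/
def t17 : VTree :=
  (N (N (N (N (N (N L 76848 74752 L) 76869 37376 L) 76872 37376 (N L 76875 37376 L)) 77548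
  76546048 (N (N L 77551 76546048 L) 77575 114819072 (N L 77578 114819072 L))) 80616 67239936 (N
  (N (N L 80617 67239936 L) 80618 67239936 (N L 80619 67239936 L)) 80620 67239936 (N (N L 80621
  67239936 L) 80643 100859904 (N L 80644 100859904 L)))) 80645 100859904 (N (N (N (N L 80646
  100859904 L) 80647 100859904 (N L 80648 100859904 L)) 80667 117669888 (N (N L 80668 117669888
  L) 80669 117669888 (N L 81291 8404992 L))) 81292 8404992 (N (N (N L 81293 8404992 L) 81294
  8404992 (N L 81295 8404992 L)) 81296 8404992 (N (N L 81306 65536 L) 81307 65536 (N L 81308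
  65536 L)))))

/-- Part of the table. -/
def t18 : VTree :=
  (N (N (N (N (N (N L 81319 12607488 L) 81320 12607488 L) 81321 12607488 (N L 81322 12607488 L))
  81323 12607488 (N (N L 81342 14708736 L) 81343 14708736 (N L 81344 14708736 L))) 81966 1050624
  (N (N (N L 81967 1050624 L) 81968 1050624 (N L 81969 1050624 L)) 81970 1050624 (N (N L 81971
  1050624 L) 81981 1024 (N L 81982 1024 L)))) 81983 1024 (N (N (N (N L 81993 1575936 L) 81994
  1575936 (N L 81995 1575936 L)) 81996 1575936 (N (N L 81997 1575936 L) 81998 1575936 (N L 82017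
  1838592 L))) 82018 1838592 (N (N (N L 82019 1838592 L) 82719 512 (N L 86443 256 L)) 86470 128
  (N (N L 86497 64 L) 87118 32 (N L 87145 67239952 L)))))

/-- Part of the table. -/
def t19 : VTree :=
  (N (N (N (N (N (N L 87165 67240192 L) 87166 67239936 L) 87167 67239936 (N L 87168 67239936 L))
  87169 67239936 (N (N L 87170 67239936 L) 87171 67239936 (N L 87172 100860168 L))) 87173
  100860160 (N (N (N L 87192 33620096 L) 87193 33619968 (N L 87194 33619968 L)) 87195 33619968 (N
  (N L 87196 100859904 L) 87197 100859904 (N L 87198 33619968 L)))) 87199 100859968 (N (N (N (N L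
  87200 100859968 L) 87219 16810048 (N L 87220 16809984 L)) 87221 16809984 (N (N L 87222 16809984
  L) 87223 16809984 (N L 87224 16809984 L))) 87225 16809984 (N (N (N L 87226 16809984 L) 87227
  16809984 (N L 87637 8404992 L)) 87793 4 (N (N L 87820 75644930 L) 87821 75644928 (N L 87840
  75644960 L)))))

/-- Part of the table. -/
def t20 : VTree :=
  (N (N (N (N (N (N L 87842 75644928 L) 87843 75644928 L) 87844 75644928 (N L 87845 75644928 L))
  87846 75644928 (N (N L 87847 134217505 L) 87848 134217504 (N L 87867 37822736 L))) 87868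
  37822464 (N (N (N L 87869 37822464 L) 87870 37822464 (N L 87871 113467392 L)) 87872 113467392
  (N (N L 87873 37822464 L) 87874 113467464 (N L 87875 113467464 L)))) 87894 2101320 (N (N (N (N
  L 87895 2101248 L) 87896 2101248 (N L 87897 2101248 L)) 87898 102961152 (N (N L 87899 102961152
  L) 87900 2101248 (N L 87901 102961152 L))) 87902 102961152 (N (N (N L 87925 32768 L) 88515
  1050628 (N L 88516 1050624 L)) 88517 1050624 (N (N L 88518 1050624 L) 88519 1050624 (N L 88520
  1050624 L)))))

/-- Part of the table. -/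
def t21 : VTree :=
  (N (N (N (N (N (N L 88522 1050624 L) 88523 76695552 L) 88542 525318 (N L 88543 525312 L)) 88544
  525312 (N (N L 88545 525312 L) 88546 76170240 (N L 88547 76170240 L))) 88548 525312 (N (N (N L
  88549 76170240 L) 88550 115043328 (N L 88569 134217727 L)) 88570 134217727 (N (N L 88571
  134217727 L) 88572 134217727 (N L 88573 134217727 L)))) 88574 134217727 (N (N (N (N L 88575
  134217727 L) 88576 134217727 (N L 88577 134217727 L)) 88596 4096 (N (N L 88597 67112960 L)
  88598 67108864 (N L 88600 67309568 L))) 88601 67305472 (N (N (N L 88603 67305472 L) 88604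
  117637120 (N L 88624 16777216 L)) 88625 16777216 (N (N L 88627 100663296 L) 88628 100663296 (N
  L 88630 100663296 L)))))

/-- Part of the table. -/
def t22 : VTree :=
  (N (N (N (N (N (N L 89221 2048 L) 89248 148480 L) 89249 147456 (N L 89251 147456 L)) 89252
  76693504 (N (N L 89271 512 L) 89272 75497984 (N L 89273 75497472 L))) 89275 75759104 (N (N (N L
  89276 75721728 L) 89278 75721728 (N L 89279 113732608 L)) 89299 85983232 (N (N L 89300 18874368
  L) 89302 113246208 (N L 89303 113246208 L)))) 89305 113246208 (N (N (N (N L 89306 115343360 L)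
  89326 33554432 (N L 89330 100663296 L)) 89333 100663296 (N (N L 89353 16777216 L) 89357
  16777216 (N L 89360 16777216 L))) 89482 16384 (N (N (N L 89485 16384 L) 89927 1048576 (N L
  89951 76546048 L)) 89954 77070336 (N (N L 89974 8388608 L) 89978 114819072 (N L 89981 133955584
  L)))))

/-- Part of the table. -/
def t23 : VTree :=
  (N (N (N (N (N (N L 90005 113246208 L) 90008 113246208 L) 90028 102760448 (N L 90032 2097152
  L)) 90035 2097152 (N (N L 90649 1048576 L) 90653 1048576 (N L 90656 1048576 L))) 90676 524288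
  (N (N (N L 90680 524288 L) 90683 524288 (N L 90703 133955584 L)) 90707 262144 (N (N L 90710
  262144 L) 94372 76695552 (N L 94399 115043328 L)))) 95067 76695552 (N (N (N (N L 95070 76695552
  L) 95073 76695552 (N L 95094 38347776 L)) 95097 38347776 (N (N L 95100 38347776 L) 95121
  19173888 (N L 95124 19173888 L))) 95127 19173888 (N (N (N L 95800 149504 L) 95803 149504 (N L
  95827 224256 L)) 95830 224256 (N (N L 96506 76546048 L) 96533 114819072 (N L 97201 76546048
  L)))))

/-- Part of the table. -/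
def t24 : VTree :=
  (N (N (N (N (N (N L 97207 76546048 L) 97228 38273024 L) 97231 38273024 (N L 97234 38273024 L))
  97255 19136512 (N (N L 97258 19136512 L) 97261 19136512 (N L 101223 1 L))) 106123 256 (N (N (N
  L 106127 67239936 L) 106150 128 (N L 106154 100859904 L)) 106177 64 (N (N L 106798 32 L) 106802
  75644928 (N L 106825 67239952 L)))) 106826 67239936 (N (N (N (N L 106828 67239936 L) 106829
  113467648 (N L 106849 256 L)) 106850 256 (N (N L 106852 100859912 L) 106853 100859904 (N L
  106855 100859904 L))) 106856 100859968 (N (N (N L 106876 64 L) 106877 64 (N L 106879 100859904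
  L)) 106880 100859904 (N (N L 106882 100859904 L) 106883 100892672 (N L 107473 4 L)))))

/-- Part of the table. -/
def t25 : VTree :=
  (N (N (N (N (N (N L 107500 75644930 L) 107501 75644928 L) 107503 75644928 (N L 107504 76170244
  L)) 107519 37376 (N (N L 107524 288 L) 107525 288 (N L 107527 134217217 L))) 107528 134217216
  (N (N (N L 107530 113467392 L) 107531 113467393 (N L 107551 131144 L)) 107552 72 (N (N L 107554
  113467392 L) 107555 113467392 (N L 107557 113467392 L)))) 107558 113471488 (N (N (N (N L 107578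
  65536 L) 107579 32768 (N L 107582 196608 L)) 107585 117637120 (N (N L 107605 32768 L) 107609
  32768 (N L 107612 32768 L))) 108179 2048 (N (N (N L 108203 76695552 L) 108206 76696576 (N L
  108226 16384 L)) 108230 115043328 (N (N L 108233 115080704 L) 108253 12800 (N L 108254 67108864
  L)))))

/-- Part of the table. -/
def t26 : VTree :=
  (N (N (N (N (N (N L 108260 132341760 L) 108280 200704 L) 108281 16777216 (N L 108284 100667392
  L)) 108287 100667392 (N (N L 108311 16777216 L) 108901 2048 (N L 108905 2048 L))) 108908 2048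
  (N (N (N L 108928 1024 L) 108929 1048576 (N L 108932 75498496 L)) 108935 75498496 (N (N L
  108955 261632 L) 108956 262144 (N L 108959 113246720 L)))) 108962 113246720 (N (N (N (N L
  108986 102760448 L) 108989 100663296 (N L 109193 37376 L)) 109607 1048576 (N (N L 109634
  76021760 L) 109637 75497472 (N L 109661 133955584 L))) 109664 114819072 (N (N (N L 113821
  8404992 L) 113848 4202496 (N L 114052 76695552 L)) 114055 76695552 (N (N L 114079 115043328 L)
  114082 115043328 (N L 114754 16384 L)))))

/-- Part of the table. -/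
def t27 : VTree :=
  (N (N (N (N (N (N L 114758 149504 L) 114781 73728 L) 114784 8192 (N L 114785 224256 L)) 115453
  149504 (N (N L 115456 149504 L) 115459 149504 (N L 115480 74752 L))) 115483 74752 (N (N (N L
  115486 74752 L) 115507 37376 (N L 115510 37376 L)) 115513 37376 (N (N L 116186 76546048 L)
  116189 76546048 (N L 116213 114819072 L)))) 116216 114819072 (N (N (N (N L 120206 64 L) 125081
  256 (N L 125108 128 L)) 125135 64 (N (N L 125756 32 L) 125783 67239952 (N L 125803 256 L)))
  125807 67239936 (N (N (N L 125810 100860168 L) 125830 128 (N L 125834 100859904 L)) 125837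
  100859968 (N (N L 125857 64 L) 126431 4 (N L 126458 75644930 L)))))

/-- Part of the table. -/
def t28 : VTree :=
  (N (N (N (N (N (N L 126482 75644928 L) 126485 134217505 L) 126505 16 (N L 126506 256 L)) 126509
  113467392 (N (N L 126512 113467464 L) 126532 8 (N L 126533 64 L))) 126536 100859904 (N (N (N L
  126539 100859904 L) 126563 32768 (N L 127153 4 L)) 127157 1050624 (N (N L 127160 1050624 L)
  127180 2 (N L 127181 4 L)))) 127184 76170240 (N (N (N (N L 127187 76170240 L) 127207 134217217
  (N L 127208 1 L)) 127211 113467392 (N (N L 127214 113467392 L) 127235 67141632 (N L 127238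
  67309568 L))) 127241 67305472 (N (N (N L 127262 16777216 L) 127265 100663296 (N L 127268
  100663296 L)) 127859 2048 (N (N L 127886 148480 L) 127889 147456 (N L 127910 75497472 L)))))

/-- Part of the table. -/
def t29 : VTree :=
  (N (N (N (N (N (N L 127916 75721728 L) 127937 85983232 L) 127940 113246208 (N L 127943
  113246208 L)) 127964 33554432 (N (N L 127991 16777216 L) 128612 8388608 (N L 128639 4194304
  L))) 128666 102760448 (N (N (N L 129287 1048576 L) 129314 524288 (N L 129341 133955584 L))
  132860 64 (N (N L 133010 76695552 L) 133037 115043328 (N L 133705 76695552 L)))) 133708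
  76695552 (N (N (N (N L 133711 76695552 L) 133732 38347776 (N L 133735 38347776 L)) 133738
  38347776 (N (N L 133759 19173888 L) 133762 19173888 (N L 133765 19173888 L))) 134438 149504 (N
  (N (N L 134441 149504 L) 134465 224256 (N L 134468 224256 L)) 135839 76546048 (N (N L 135842
  76546048 L) 135845 76546048 (N L 135866 38273024 L)))))

/-- Part of the table. -/
def t30 : VTree :=
  (N (N (N (N (N (N L 135872 38273024 L) 135893 19136512 L) 135896 19136512 (N L 135899 19136512
  L)) 144761 256 (N (N L 144788 128 L) 144815 64 (N L 145436 32 L))) 145463 67239952 (N (N (N L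
  145466 67239936 L) 145487 256 (N L 145490 100859912 L)) 145493 100859904 (N (N L 145514 64 L)
  145517 100859904 (N L 145520 100859904 L)))) 146111 4 (N (N (N (N L 146138 75644930 L) 146141
  75644928 (N L 146162 288 L)) 146165 134217217 (N (N L 146168 113467392 L) 146189 131144 (N L
  146192 113467392 L))) 146195 113467392 (N (N (N L 146216 65536 L) 146243 32768 (N L 146864
  16384 L)) 146891 8192 (N (N L 146918 200704 L) 147539 2048 (N L 147566 1024 L)))))

/-- Part of the table. -/
def t31 : VTree :=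
  (N (N (N (N (N (N L 152690 76695552 L) 152693 76695552 L) 152717 115043328 (N L 152720
  115043328 L)) 153419 73728 (N (N L 154091 149504 L) 154094 149504 (N L 154097 149504 L)))
  154118 74752 (N (N (N L 154121 74752 L) 154124 74752 (N L 154145 37376 L)) 154148 37376 (N (N L
  154151 37376 L) 164441 256 (N L 164468 128 L)))) 164495 64 (N (N (N (N L 165116 32 L) 165143 16
  (N L 165170 8 L)) 165791 4 (N (N L 165818 2 L) 165845 134217217 (N L 172343 76695552 L)))
  172346 76695552 (N (N (N L 172349 76695552 L) 172370 38347776 (N L 172373 38347776 L)) 172376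
  38347776 (N (N L 172397 19173888 L) 172400 19173888 (N L 172403 19173888 L)))))

/-- The table of all templates. -/
def T : VTree :=
  (N (N (N (N (N t0 24460 100663296 t1) 30958 67108864 (N t2 41982 14708736 t3)) 44087 3584 (N (N
  t4 45463 1048576 t5) 49884 1050624 (N t6 50667 100663296 t7))) 51341 113246208 (N (N (N t8
  52040 524288 t9) 58623 19136512 (N t10 62367 131072 t11)) 63717 2048 (N (N t12 68219 100859904
  t13) 68948 117637120 (N t14 69622 132341760 t15)))) 70320 512 (N (N (N (N t16 76845 74752 t17)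
  81318 12607488 (N t18 87146 67239936 t19)) 87841 75644928 (N (N t20 88521 1050624 t21) 88631
  117440512 (N t22 90001 4194304 t23))) 97204 76546048 (N (N (N t24 107477 1050624 t25) 108257
  67330048 (N t26 114757 16384 t27)) 126478 32 (N (N t28 127913 75759104 t29) 135869 38273024 (N
  t30 147593 261632 t31)))))


/-- Bit test. -/
def bitb (m i : ℕ) : Bool := Nat.beq (Nat.mod (Nat.shiftRight m i) 2) 1

lemma bitb_zero (i : ℕ) : bitb 0 i = false := by
  have h : Nat.shiftRight 0 i = 0 := Nat.zero_shiftRight i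
  unfold bitb
  rw [h]
  rfl

/-- Range check for one difference. -/
def rng (A B : ℕ) : Bool := Nat.ble 7 A && (Nat.ble A 9 && (Nat.ble 4 B && Nat.ble B 12))

/-- Key of one difference. -/
def vk (A B : ℕ) : ℕ := (A - 7) + 3 * (B - 4)

/-- Membership in the template table. -/
def memT (x1 x2 x3 x4 x5 A1 B1 A2 B2 A3 B3 : ℕ) : Bool :=
  (rng A1 B1 && (rng A2 B2 && rng A3 B3)) &&
    force (9 * (vk A1 B1 + 27 * vk A2 B2 + 729 * vk A3 B3) + (x4 + 3 * x5)) fun key =>
      force (x1 + 3 * x2 + 9 * x3) fun l => bitb (T.look key) l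

/-- The possible parents of a letter: the parent letter, the offset, and the sum before it. -/
def par : ℕ → List (ℕ × ℕ × ℕ)
  | 0 => [(1, 1, 1), (2, 1, 1), (2, 2, 1), (2, 3, 1)]
  | 1 => [(1, 0, 0), (1, 2, 1), (2, 0, 0), (2, 4, 1)]
  | _ => [(0, 0, 0)]

/-- One step of the parent computation. -/
def step (A B : ℕ) (p1 p2 p3 : ℕ × ℕ × ℕ) (k : ℕ → ℕ → Bool) : Bool :=
  force (B + 8 + 2 * p2.2.2 - (p1.2.2 + p3.2.2)) fun X =>
  bif Nat.beq (X % 2) 1 then true else
  force (X / 2) fun A' => force (A + 16 + 2 * p2.2.1 - (A' + p1.2.1 + p3.2.1)) fun Y =>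
  bif Nat.beq (Y % 2) 1 then true else force (Y / 2) fun B' => k A' B'

lemma step_spec {A B A' B' : ℕ} {p1 p2 p3 : ℕ × ℕ × ℕ} {k : ℕ → ℕ → Bool}
    (h : step A B p1 p2 p3 k = true) (hB : B + 8 + 2 * p2.2.2 = 2 * A' + p1.2.2 + p3.2.2)
    (hA : A + 16 + 2 * p2.2.1 = A' + 2 * B' + p1.2.1 + p3.2.1) : k A' B' = true := by
  have e1 : (B + 8 + 2 * p2.2.2 - (p1.2.2 + p3.2.2)) = 2 * A' := by omega
  have e2 : (A + 16 + 2 * p2.2.1 - (A' + p1.2.1 + p3.2.1)) = 2 * B' := by omega
  unfold step at h
  simp only [force_eq] at h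
  rw [e1, Nat.mul_div_cancel_left _ (by norm_num), e2, Nat.mul_div_cancel_left _ (by norm_num),
    Nat.mul_mod_right, Nat.mul_mod_right] at h
  simpa using h

/-- All parents of the given template are in the table. -/
def chkP (x1 x2 x3 x4 x5 A1 B1 A2 B2 A3 B3 : ℕ) : Bool :=
  (par x1).all fun p1 => (par x2).all fun p2 => (par x3).all fun p3 =>
    step A1 B1 p1 p2 p3 fun a1 b1 =>
      (par x4).all fun p4 => step A2 B2 p2 p3 p4 fun a2 b2 =>
        (par x5).all fun p5 => step A3 B3 p3 p4 p5 fun a3 b3 =>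
          memT p1.1 p2.1 p3.1 p4.1 p5.1 a1 b1 a2 b2 a3 b3

/-- The check of one state. -/
def chkS (key l : ℕ) : Bool :=
  force (key / 9 % 3 + 7) fun a1 => force (key / 27 % 9 + 4) fun b1 =>
  force (key / 243 % 3 + 7) fun a2 => force (key / 729 % 9 + 4) fun b2 =>
  force (key / 6561 % 3 + 7) fun a3 => force (key / 19683 % 9 + 4) fun b3 =>
  chkP (l % 3) (l / 3 % 3) (l / 9 % 3) (key % 3) (key / 3 % 3) a1 b1 a2 b2 a3 b3

/-- The check of one node of the table. -/
def chkN (key m : ℕ) : Bool := (List.range 27).all fun l => !(bitb m l) || chkS key l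

lemma chkT : T.allp chkN = true := by decide +kernel

/-- The table is closed under parents. -/
theorem closedT {x1 x2 x3 x4 x5 A1 B1 A2 B2 A3 B3 : ℕ} (h1 : x1 ≤ 2) (h2 : x2 ≤ 2)
    (h3 : x3 ≤ 2) (h4 : x4 ≤ 2) (h5 : x5 ≤ 2)
    (h : memT x1 x2 x3 x4 x5 A1 B1 A2 B2 A3 B3 = true) :
    chkP x1 x2 x3 x4 x5 A1 B1 A2 B2 A3 B3 = true := by
  unfold memT at h
  simp only [Bool.and_eq_true, rng, Nat.ble_eq, force_eq] at h
  obtain ⟨⟨⟨a1, a2, a3, a4⟩, ⟨b1, b2, b3, b4⟩, c1, c2, c3, c4⟩, hb⟩ := h
  set key := 9 * (vk A1 B1 + 27 * vk A2 B2 + 729 * vk A3 B3) + (x4 + 3 * x5) with hkey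
  set l := x1 + 3 * x2 + 9 * x3 with hl
  have hne : T.look key ≠ 0 := by
    intro h0
    rw [h0, bitb_zero] at hb
    exact absurd hb (by decide)
  have h6 := look_allp chkT hne
  unfold chkN at h6
  rw [List.all_eq_true] at h6
  have h7 := h6 l (List.mem_range.2 (by omega))
  rw [hb] at h7
  simp only [Bool.not_true, Bool.false_or] at h7
  unfold chkS at h7
  simp only [force_eq] at h7
  unfold vk at hkey
  have d1 : l % 3 = x1 := by omega
  have d2 : l / 3 % 3 = x2 := by omega
  have d3 : l / 9 % 3 = x3 := by omega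
  have d4 : key % 3 = x4 := by omega
  have d5 : key / 3 % 3 = x5 := by omega
  have e1 : key / 9 % 3 + 7 = A1 := by omega
  have e2 : key / 27 % 9 + 4 = B1 := by omega
  have e3 : key / 243 % 3 + 7 = A2 := by omega
  have e4 : key / 729 % 9 + 4 = B2 := by omega
  have e5 : key / 6561 % 3 + 7 = A3 := by omega
  have e6 : key / 19683 % 9 + 4 = B3 := by omega
  rw [d1, d2, d3, d4, d5, e1, e2, e3, e4, e5, e6] at h7
  exact h7

lemma memT_rng {x1 x2 x3 x4 x5 A1 B1 A2 B2 A3 B3 : ℕ}
    (h : memT x1 x2 x3 x4 x5 A1 B1 A2 B2 A3 B3 = true) :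
    (7 ≤ A1 ∧ A1 ≤ 9 ∧ 4 ≤ B1 ∧ B1 ≤ 12) ∧ (7 ≤ A2 ∧ A2 ≤ 9 ∧ 4 ≤ B2 ∧ B2 ≤ 12) ∧
      (7 ≤ A3 ∧ A3 ≤ 9 ∧ 4 ≤ B3 ∧ B3 ≤ 12) := by
  unfold memT at h
  simp only [Bool.and_eq_true, rng, Nat.ble_eq, force_eq] at h
  tauto

/-- The second difference of three positions (shifted by 8). -/
def Diff (i1 i2 i3 A B : ℕ) : Prop :=
  i1 + i3 + 8 = 2 * i2 + A ∧ S i1 + S i3 + 8 = 2 * S i2 + B

/-- Locating a position in its parent block. -/
lemma locate_par (i : ℕ) : ∃ n, ∃ p ∈ par (y i), p.1 = y n ∧ i = n + 2 * S n + p.2.1 ∧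
    S i = 2 * n + p.2.2 ∧ p.2.1 ≤ 4 ∧ p.2.2 ≤ 1 ∧ pos n ≤ i ∧ i < pos (n + 1) := by
  obtain ⟨n, r, rfl, hr⟩ := desub_y.locate i
  refine ⟨n, (y n, r, ((f (y n)).take r).sum), ?_, rfl, ?_, S_pos_add hr.le, ?_, ?_, ?_, ?_⟩
  · rw [y_pos_add hr]
    have := y_le n
    generalize y n = x at *
    interval_cases x
    · simp only [f, List.length_cons, List.length_nil] at hr
      interval_cases r
      simp [f, par]
    · simp only [f, List.length_cons, List.length_nil] at hr
      interval_cases r <;> simp [f, par]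
    · simp only [f, List.length_cons, List.length_nil] at hr
      interval_cases r <;> simp [f, par]
  · rw [pos_eq]
  · have h1 := length_f_y n
    have h2 := y_le n
    change r ≤ 4
    omega
  · have := y_le n
    change ((f (y n)).take r).sum ≤ 1
    generalize y n = x at *
    interval_cases x
    · simp only [f, List.length_cons, List.length_nil] at hr
      interval_cases r
      simp [f]
    · simp only [f, List.length_cons, List.length_nil] at hr
      interval_cases r <;> simp [f]
    · simp only [f, List.length_cons, List.length_nil] at hr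
      interval_cases r <;> simp [f]
  · omega
  · rw [desub_y.pos_succ]
    omega

/-- No small instances. -/
def chk5 (v : List ℕ) : Bool :=
  (List.range 5).all fun j2 => (List.range 5).all fun j3 => (List.range 5).all fun j4 =>
    (List.range 5).all fun j5 =>
      !(Nat.ble j2 j3 && (Nat.ble j3 j4 && (Nat.ble j4 j5 && Nat.ble 1 j5))) ||
      !(memT (v.getD 0 0) (v.getD j2 0) (v.getD j3 0) (v.getD j4 0) (v.getD j5 0)
        (j3 + 8 - 2 * j2) ((v.take j3).sum + 8 - 2 * (v.take j2).sum)
        (j2 + j4 + 8 - 2 * j3) ((v.take j2).sum + (v.take j4).sum + 8 - 2 * (v.take j3).sum)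
        (j3 + j5 + 8 - 2 * j4) ((v.take j3).sum + (v.take j5).sum + 8 - 2 * (v.take j4).sum))

lemma chk5_all : (codes5.all fun c => chk5 (dec 5 c)) = true := by decide +kernel

lemma no_small {i1 i2 i3 i4 i5 A1 B1 A2 B2 A3 B3 : ℕ} (h12 : i1 ≤ i2) (h23 : i2 ≤ i3)
    (h34 : i3 ≤ i4) (h45 : i4 ≤ i5) (h4 : i5 ≤ i1 + 4)
    (d1 : Diff i1 i2 i3 A1 B1) (d2 : Diff i2 i3 i4 A2 B2) (d3 : Diff i3 i4 i5 A3 B3)
    (hT : memT (y i1) (y i2) (y i3) (y i4) (y i5) A1 B1 A2 B2 A3 B3 = true) : i1 = i5 := by
  by_contra hne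
  obtain ⟨j2, rfl⟩ := Nat.exists_eq_add_of_le h12
  obtain ⟨j3, rfl⟩ := Nat.exists_eq_add_of_le (h12.trans h23)
  obtain ⟨j4, rfl⟩ := Nat.exists_eq_add_of_le ((h12.trans h23).trans h34)
  obtain ⟨j5, rfl⟩ := Nat.exists_eq_add_of_le (((h12.trans h23).trans h34).trans h45)
  have h := forall_win5 chk5 chk5_all i1
  unfold chk5 at h
  simp only [List.all_eq_true, List.mem_range] at h
  have h' := h j2 (by omega) j3 (by omega) j4 (by omega) j5 (by omega)
  rw [getD_win y i1 5 j2 (by omega), getD_win y i1 5 j3 (by omega),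
    getD_win y i1 5 j4 (by omega), getD_win y i1 5 j5 (by omega), getD_win y i1 5 0 (by omega),
    take_win _ _ _ _ (by omega), take_win _ _ _ _ (by omega), take_win _ _ _ _ (by omega),
    take_win _ _ _ _ (by omega)] at h'
  have s2 := S_add i1 j2
  have s3 := S_add i1 j3
  have s4 := S_add i1 j4
  have s5 := S_add i1 j5
  obtain ⟨a1, b1⟩ := d1
  obtain ⟨a2, b2⟩ := d2
  obtain ⟨a3, b3⟩ := d3
  have e1 : j3 + 8 - 2 * j2 = A1 := by omega
  have e2 : (win y i1 j3).sum + 8 - 2 * (win y i1 j2).sum = B1 := by omega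
  have e3 : j2 + j4 + 8 - 2 * j3 = A2 := by omega
  have e4 : (win y i1 j2).sum + (win y i1 j4).sum + 8 - 2 * (win y i1 j3).sum = B2 := by omega
  have e5 : j3 + j5 + 8 - 2 * j4 = A3 := by omega
  have e6 : (win y i1 j3).sum + (win y i1 j5).sum + 8 - 2 * (win y i1 j4).sum = B3 := by omega
  rw [e1, e2, e3, e4, e5, e6, Nat.add_zero, hT] at h'
  have g1 : Nat.ble j2 j3 = true := Nat.ble_eq_true_of_le (by omega)
  have g2 : Nat.ble j3 j4 = true := Nat.ble_eq_true_of_le (by omega)
  have g3 : Nat.ble j4 j5 = true := Nat.ble_eq_true_of_le (by omega)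
  have g4 : Nat.ble 1 j5 = true := Nat.ble_eq_true_of_le (by omega)
  rw [g1, g2, g3, g4] at h'
  simp at h'

lemma exists_diff {i1 i2 i3 n1 n2 n3 A B r1 r2 r3 s1 s2 s3 : ℕ}
    (d : Diff i1 i2 i3 A B) (hA : 7 ≤ A) (hB : 4 ≤ B ∧ B ≤ 12)
    (e1 : i1 = n1 + 2 * S n1 + r1) (e2 : i2 = n2 + 2 * S n2 + r2) (e3 : i3 = n3 + 2 * S n3 + r3)
    (f1 : S i1 = 2 * n1 + s1) (f2 : S i2 = 2 * n2 + s2) (f3 : S i3 = 2 * n3 + s3)
    (g1 : r1 ≤ 4) (g3 : r3 ≤ 4) (k1 : s1 ≤ 1) (k2 : s2 ≤ 1) (k3 : s3 ≤ 1) :
    ∃ A' B', Diff n1 n2 n3 A' B' ∧ B + 8 + 2 * s2 = 2 * A' + s1 + s3 ∧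
      A + 16 + 2 * r2 = A' + 2 * B' + r1 + r3 := by
  obtain ⟨a, b⟩ := d
  refine ⟨n1 + n3 + 8 - 2 * n2, S n1 + S n3 + 8 - 2 * S n2, ⟨?_, ?_⟩, ?_, ?_⟩ <;> omega

/-- The template theorem: the only instances of templates of the table are the trivial ones. -/
theorem no_inst (i5 : ℕ) : ∀ i1 i2 i3 i4 A1 B1 A2 B2 A3 B3 : ℕ, i1 ≤ i2 → i2 ≤ i3 → i3 ≤ i4 →
    i4 ≤ i5 → Diff i1 i2 i3 A1 B1 → Diff i2 i3 i4 A2 B2 → Diff i3 i4 i5 A3 B3 →
    memT (y i1) (y i2) (y i3) (y i4) (y i5) A1 B1 A2 B2 A3 B3 = true → i1 = i5 := by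
  induction i5 using Nat.strong_induction_on with
  | _ i5 ih =>
    intro i1 i2 i3 i4 A1 B1 A2 B2 A3 B3 h12 h23 h34 h45 d1 d2 d3 hT
    by_cases h4 : i5 ≤ i1 + 4
    · exact no_small h12 h23 h34 h45 h4 d1 d2 d3 hT
    · exfalso
      obtain ⟨⟨ra1, ra2, ra3, ra4⟩, ⟨rb1, rb2, rb3, rb4⟩, ⟨rc1, rc2, rc3, rc4⟩⟩ := memT_rng hT
      have hP := closedT (y_le _) (y_le _) (y_le _) (y_le _) (y_le _) hT
      obtain ⟨n1, p1, m1, l1, e1, f1, g1, k1, o1, q1⟩ := locate_par i1
      obtain ⟨n2, p2, m2, l2, e2, f2, g2, k2, o2, q2⟩ := locate_par i2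
      obtain ⟨n3, p3, m3, l3, e3, f3, g3, k3, o3, q3⟩ := locate_par i3
      obtain ⟨n4, p4, m4, l4, e4, f4, g4, k4, o4, q4⟩ := locate_par i4
      obtain ⟨n5, p5, m5, l5, e5, f5, g5, k5, o5, q5⟩ := locate_par i5
      obtain ⟨A1', B1', d1', b1, a1⟩ := exists_diff d1 ra1 ⟨ra3, ra4⟩ e1 e2 e3 f1 f2 f3 g1 g3 k1 k2 k3
      obtain ⟨A2', B2', d2', b2, a2⟩ := exists_diff d2 rb1 ⟨rb3, rb4⟩ e2 e3 e4 f2 f3 f4 g2 g4 k2 k3 k4
      obtain ⟨A3', B3', d3', b3, a3⟩ := exists_diff d3 rc1 ⟨rc3, rc4⟩ e3 e4 e5 f3 f4 f5 g3 g5 k3 k4 k5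
      unfold chkP at hP
      rw [List.all_eq_true] at hP
      have hP1 := hP p1 m1
      rw [List.all_eq_true] at hP1
      have hP2 := hP1 p2 m2
      rw [List.all_eq_true] at hP2
      have hP3 := step_spec (hP2 p3 m3) b1 a1
      rw [List.all_eq_true] at hP3
      have hP4 := step_spec (hP3 p4 m4) b2 a2
      rw [List.all_eq_true] at hP4
      have hP5 := step_spec (hP4 p5 m5) b3 a3
      rw [l1, l2, l3, l4, l5] at hP5
      have mono : ∀ {a b : ℕ}, pos a < pos (b + 1) → a ≤ b := by
        intro a b h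
        have := (desub_y.strictMono.lt_iff_lt).1 h
        omega
      have h51 : n5 < i5 := by
        have hh := lt_pos_add (n := n5) (r := i5 - pos n5) (by omega)
          (by rw [desub_y.pos_succ] at q5; omega)
        omega
      have h6 := ih n5 h51 n1 n2 n3 n4 A1' B1' A2' B2' A3' B3' (mono (by omega))
        (mono (by omega)) (mono (by omega)) (mono (by omega)) d1' d2' d3' hP5
      subst h6
      have := length_f_y n1
      have := y_le n1
      rw [desub_y.pos_succ] at q5
      omega

end Pool.Agent.H42.Rich
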