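import Mathlib

/-!
# Windows of infinite words and desubstitution
-/

set_option autoImplicit false

namespace Pool.Agent.H42.Rich

/-- The window of length `K` of the word `u` starting at `n`. -/
def win (u : ℕ → ℕ) : ℕ → ℕ → List ℕ
  | _, 0 => []
  | n, K + 1 => u n :: win u (n + 1) K

@[simp] lemma win_zero (u : ℕ → ℕ) (n : ℕ) : win u n 0 = [] := rfl

lemma win_succ (u : ℕ → ℕ) (n K : ℕ) : win u n (K + 1) = u n :: win u (n + 1) K := rfl

@[simp] lemma length_win (u : ℕ → ℕ) (n K : ℕ) : (win u n K).length = K := by
  induction K generalizing n with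
  | zero => rfl
  | succ K ih => simp [win_succ, ih]

lemma win_add (u : ℕ → ℕ) (n a b : ℕ) : win u n (a + b) = win u n a ++ win u (n + a) b := by
  induction a generalizing n with
  | zero => simp
  | succ a ih =>
    rw [show a + 1 + b = (a + b) + 1 by ring, win_succ, win_succ, ih]
    simp [show n + 1 + a = n + (a + 1) by ring]

lemma getD_win (u : ℕ → ℕ) (n K t : ℕ) (h : t < K) : (win u n K).getD t 0 = u (n + t) := by
  induction K generalizing n t with
  | zero => omega
  | succ K ih =>
    rw [win_succ]
    cases t with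
    | zero => simp
    | succ t =>
      rw [List.getD_cons_succ, ih _ _ (by omega)]
      congr 1
      ring

lemma take_win (u : ℕ → ℕ) (n K m : ℕ) (h : m ≤ K) : (win u n K).take m = win u n m := by
  obtain ⟨c, rfl⟩ := Nat.exists_eq_add_of_le h
  rw [win_add, List.take_left' (by simp)]

lemma drop_win (u : ℕ → ℕ) (n r K : ℕ) : (win u n (r + K)).drop r = win u (n + r) K := by
  rw [win_add, List.drop_left' (by simp)]

lemma win_congr {u u' : ℕ → ℕ} {n n' K : ℕ} (h : ∀ t < K, u (n + t) = u' (n' + t)) :
    win u n K = win u' n' K := by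
  induction K generalizing n n' with
  | zero => rfl
  | succ K ih =>
    rw [win_succ, win_succ, ih (n := n + 1) (n' := n' + 1)]
    · rw [show u n = u' n' by simpa using h 0 (by omega)]
    · intro t ht
      have := h (t + 1) (by omega)
      rwa [show n + (t + 1) = n + 1 + t by ring, show n' + (t + 1) = n' + 1 + t by ring] at this

lemma win_inj {u u' : ℕ → ℕ} {n n' K : ℕ} (h : win u n K = win u' n' K) :
    ∀ t < K, u (n + t) = u' (n' + t) := by
  intro t ht
  rw [← getD_win u n K t ht, h, getD_win u' n' K t ht]

lemma win_iff {u u' : ℕ → ℕ} {n n' K : ℕ} :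
    win u n K = win u' n' K ↔ ∀ t < K, u (n + t) = u' (n' + t) :=
  ⟨win_inj, win_congr⟩

/-- `u` is the image of `v` under `φ`, with block starts `pos`. -/
structure Desub (φ : ℕ → List ℕ) (v u : ℕ → ℕ) (pos : ℕ → ℕ) : Prop where
  pos_zero : pos 0 = 0
  pos_succ : ∀ n, pos (n + 1) = pos n + (φ (v n)).length
  len_pos : ∀ n, 1 ≤ (φ (v n)).length
  val : ∀ n, win u (pos n) (φ (v n)).length = φ (v n)

namespace Desub

variable {φ : ℕ → List ℕ} {v u pos : ℕ → ℕ}

lemma strictMono (H : Desub φ v u pos) : StrictMono pos :=
  strictMono_nat_of_lt_succ fun n => by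
    have := H.pos_succ n
    have := H.len_pos n
    omega

lemma le_pos (H : Desub φ v u pos) (n : ℕ) : n ≤ pos n := H.strictMono.id_le n

lemma locate (H : Desub φ v u pos) (k : ℕ) : ∃ n r, k = pos n + r ∧ r < (φ (v n)).length := by
  induction k with
  | zero => exact ⟨0, 0, by simp [H.pos_zero], H.len_pos 0⟩
  | succ k ih =>
    obtain ⟨n, r, h1, h2⟩ := ih
    by_cases h : r + 1 < (φ (v n)).length
    · exact ⟨n, r + 1, by omega, h⟩
    · refine ⟨n + 1, 0, ?_, H.len_pos _⟩
      have := H.pos_succ n
      omega

lemma flatMap (H : Desub φ v u pos) (n K : ℕ) :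
    (win v n K).flatMap φ = win u (pos n) (pos (n + K) - pos n) := by
  induction K generalizing n with
  | zero => simp
  | succ K ih =>
    have h1 := H.pos_succ n
    have h2 : pos (n + 1) ≤ pos (n + 1 + K) := H.strictMono.monotone (by omega)
    rw [win_succ, List.flatMap_cons, ih,
      show pos (n + (K + 1)) - pos n
        = (φ (v n)).length + (pos (n + 1 + K) - pos (n + 1)) by
          rw [show n + (K + 1) = n + 1 + K by ring]; omega,
      win_add, H.val, h1]

lemma drop_take (H : Desub φ v u pos) (n r K M : ℕ) (hr : r + K ≤ pos (n + M) - pos n) :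
    (((win v n M).flatMap φ).drop r).take K = win u (pos n + r) K := by
  rw [H.flatMap]
  obtain ⟨c, hc⟩ := Nat.exists_eq_add_of_le (show r ≤ pos (n + M) - pos n by omega)
  rw [hc, drop_win, take_win]
  omega

/-- The windows of a self-similar word all lie in a finite list with the closure property. -/
theorem mem_of_closed {φ : ℕ → List ℕ} {u pos : ℕ → ℕ} (H : Desub φ u u pos) (c K : ℕ)
    (hK : 1 ≤ K)
    (hlt : ∀ n r, c ≤ pos n + r → r < (φ (u n)).length → n < pos n + r)
    (L : List (List ℕ)) (hb : ∀ k < c, win u k K ∈ L)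
    (hc : ∀ l ∈ L, ∀ r < (φ (l.headD 0)).length, ((l.flatMap φ).drop r).take K ∈ L) :
    ∀ k, win u k K ∈ L := by
  intro k
  induction k using Nat.strong_induction_on with
  | _ k ih =>
    by_cases hk : k < c
    · exact hb k hk
    · obtain ⟨n, r, rfl, hr⟩ := H.locate k
      have h1 := hlt n r (by omega) hr
      have h2 := ih n h1
      have h3 : (win u n K).headD 0 = u n := by
        obtain ⟨K, rfl⟩ := Nat.exists_eq_add_of_le hK
        rw [add_comm, win_succ]
        rfl
      have h4 := hc _ h2 r (by rw [h3]; exact hr)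
      rw [H.drop_take] at h4
      · exact h4
      · have h5 := H.pos_succ n
        have h6 : pos (n + 1) + (K - 1) ≤ pos (n + K) := by
          have : ∀ j, pos (n + 1) + j ≤ pos (n + 1 + j) := by
            intro j
            induction j with
            | zero => simp
            | succ j ih =>
              have := H.strictMono (show n + 1 + j < n + 1 + (j + 1) by omega)
              omega
          have := this (K - 1)
          rwa [show n + 1 + (K - 1) = n + K by omega] at this
        omega

end Desub

/-- The image word of `v` under `φ`. -/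
def img (φ : ℕ → List ℕ) (v : ℕ → ℕ) (k : ℕ) : ℕ := ((win v 0 (k + 1)).flatMap φ).getD k 0

/-- Block starts of the image of `v` under `φ`. -/
def ipos (φ : ℕ → List ℕ) (v : ℕ → ℕ) : ℕ → ℕ
  | 0 => 0
  | n + 1 => ipos φ v n + (φ (v n)).length

lemma length_flatMap_win (φ : ℕ → List ℕ) (v : ℕ → ℕ) (K : ℕ) :
    ((win v 0 K).flatMap φ).length = ipos φ v K := by
  induction K with
  | zero => rfl
  | succ K ih => rw [win_add, List.flatMap_append, List.length_append, ih]; simp [win, ipos]

lemma desub_img (φ : ℕ → List ℕ) (v : ℕ → ℕ) (hφ : ∀ n, 1 ≤ (φ (v n)).length) :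
    Desub φ v (img φ v) (ipos φ v) where
  pos_zero := rfl
  pos_succ := fun _ => rfl
  len_pos := hφ
  val := by
    have hmono : StrictMono (ipos φ v) := strictMono_nat_of_lt_succ fun n => by
      have := hφ n
      simp only [ipos]
      omega
    have key : ∀ n r, r < (φ (v n)).length → img φ v (ipos φ v n + r) = (φ (v n)).getD r 0 := by
      intro n r hr
      unfold img
      have hle : n ≤ ipos φ v n := hmono.id_le n
      obtain ⟨c, hc⟩ := Nat.exists_eq_add_of_le (show n + 1 ≤ ipos φ v n + r + 1 by omega)
      rw [hc, win_add, win_add, List.flatMap_append, List.flatMap_append, List.append_assoc,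
        List.getD_append_right, length_flatMap_win, Nat.add_sub_cancel_left]
      · have : (win v (0 + n) 1).flatMap φ = φ (v n) := by
          simp [win]
        rw [this, List.getD_append _ _ _ _ hr]
      · rw [length_flatMap_win]; omega
    intro n
    apply List.ext_getElem (by simp)
    intro t h1 h2
    rw [← List.getD_eq_getElem _ 0 h1, ← List.getD_eq_getElem _ 0 h2, getD_win _ _ _ _ h2, key _ _ h2]

end Pool.Agent.H42.Rich
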